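import Pool.Agent.H47.CD.SeriesBlock

/-!
# helper47: the crossed product step `E[F ⋊ Q] → D[Q]`

`p : E[F] → D`, `Q` acts on `D` compatibly. `Phi : E[F ⋊ Q] → D[Q]`; if `p` transports resolutions then so does `Phi`.
-/

namespace Pool.Agent.H47.CD

/-- `D[Q]` is left free over `D` -/
theorem leftBasis_skew {D Q : Type} [DivisionRing D] [Group Q] [MulSemiringAction Q D] :
    LeftBasis (eps D Q) (fun q : Q => (gu D q : SkewMonoidAlgebra D Q)) := by
  have key : ∀ f : Q →₀ D, f.sum (fun q d => eps D Q d * (gu D q : SkewMonoidAlgebra D Q))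
      = SkewMonoidAlgebra.ofCoeff f := by
    intro f
    have h1 : f.sum (fun q d => eps D Q d * (gu D q : SkewMonoidAlgebra D Q))
        = (SkewMonoidAlgebra.ofCoeff f).sum SkewMonoidAlgebra.single := by
      rw [SkewMonoidAlgebra.sum_def]
      refine Finsupp.sum_congr (fun q _ => ?_)
      rw [single_eq]
    rw [h1, SkewMonoidAlgebra.sum_single]
  intro r
  refine ⟨r.coeff, ?_, ?_⟩
  · change r.coeff.sum _ = r
    rw [key]
  · intro g hg
    change g.sum _ = r at hg
    rw [key] at hg
    rw [← hg]

section Step

variable {E F Q D : Type} [DivisionRing E] [Group F] [Group Q] [DivisionRing D]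
  {θ : Q →* MulAut F} [MulSemiringAction (F ⋊[θ] Q) E] [MulSemiringAction F E]
  (hF : ∀ (f : F) (e : E), f • e = (SemidirectProduct.inl f : F ⋊[θ] Q) • e)
  [MulSemiringAction Q D] (p : SkewMonoidAlgebra E F →+* D)
  (hQ : ∀ (q : Q) (f : F) (e : E), q • p (SkewMonoidAlgebra.single f e)
    = p (SkewMonoidAlgebra.single (θ q f) ((SemidirectProduct.inr q : F ⋊[θ] Q) • e)))

/-- group part of `Phi` -/
noncomputable def PhiG : F ⋊[θ] Q →* SkewMonoidAlgebra D Q where
  toFun x := SkewMonoidAlgebra.single x.right (p (SkewMonoidAlgebra.single x.left 1))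
  map_one' := by
    rw [SemidirectProduct.one_left, SemidirectProduct.one_right]
    change SkewMonoidAlgebra.single 1 (p 1) = 1
    rw [map_one]
    rfl
  map_mul' x y := by
    rw [SkewMonoidAlgebra.single_mul_single, hQ, ← map_mul, SkewMonoidAlgebra.single_mul_single,
      smul_one, smul_one, mul_one, SemidirectProduct.mul_left, SemidirectProduct.mul_right]

theorem PhiG_apply (x : F ⋊[θ] Q) : PhiG p hQ x
    = SkewMonoidAlgebra.single x.right (p (SkewMonoidAlgebra.single x.left 1)) := rfl

/-- the ring homomorphism `E[F ⋊ Q] → D[Q]` -/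
noncomputable def Phi : SkewMonoidAlgebra E (F ⋊[θ] Q) →+* SkewMonoidAlgebra D Q :=
  SkewMonoidAlgebra.liftNCRingHom ((eps D Q).comp (p.comp (eps E F))) (PhiG p hQ) (by
    intro e x
    rw [PhiG_apply]
    change SkewMonoidAlgebra.single 1 (p (SkewMonoidAlgebra.single 1 (x • e))) * _
      = _ * SkewMonoidAlgebra.single 1 (p (SkewMonoidAlgebra.single 1 e))
    rw [SkewMonoidAlgebra.single_mul_single, SkewMonoidAlgebra.single_mul_single, one_smul, hQ,
      ← map_mul, ← map_mul, SkewMonoidAlgebra.single_mul_single,
      SkewMonoidAlgebra.single_mul_single, one_mul, mul_one, one_mul, one_smul, mul_one, one_mul,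
      map_one, mul_one, hF, smul_smul, SemidirectProduct.inl_left_mul_inr_right])

theorem Phi_single (x : F ⋊[θ] Q) (e : E) : Phi hF p hQ (SkewMonoidAlgebra.single x e)
    = SkewMonoidAlgebra.single x.right (p (SkewMonoidAlgebra.single x.left e)) := by
  change SkewMonoidAlgebra.liftNC _ _ _ = _
  rw [SkewMonoidAlgebra.liftNC_single, PhiG_apply]
  change SkewMonoidAlgebra.single 1 (p (SkewMonoidAlgebra.single 1 e)) * _ = _
  rw [SkewMonoidAlgebra.single_mul_single, one_smul, ← map_mul, one_mul,
    SkewMonoidAlgebra.single_mul_single, one_smul, mul_one, one_mul]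

/-- the inclusion `E[F] → E[F ⋊ Q]` -/
noncomputable def incF : SkewMonoidAlgebra E F →+* SkewMonoidAlgebra E (F ⋊[θ] Q) :=
  SkewMonoidAlgebra.liftNCRingHom (eps E (F ⋊[θ] Q))
    ((Units.coeHom _).comp ({ toFun := fun f => gu E (SemidirectProduct.inl f : F ⋊[θ] Q)
                              map_one' := by
                                ext1
                                rw [coe_gu, map_one]
                                rfl
                              map_mul' := fun f f' => by
                                ext1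
                                rw [Units.val_mul, coe_gu, coe_gu, coe_gu,
                                  SkewMonoidAlgebra.single_mul_single, smul_one, mul_one,
                                  map_mul] } : F →* (SkewMonoidAlgebra E (F ⋊[θ] Q))ˣ)) (by
    intro e f
    rw [hF]
    exact (gu_eps _ _).symm)

theorem incF_single (f : F) (e : E) : incF hF (SkewMonoidAlgebra.single f e)
    = SkewMonoidAlgebra.single (SemidirectProduct.inl f : F ⋊[θ] Q) e := by
  change SkewMonoidAlgebra.liftNC _ _ _ = _
  rw [SkewMonoidAlgebra.liftNC_single, single_eq]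
  rfl

open Classical in
theorem coeff_incF (s : SkewMonoidAlgebra E F) (q : Q) (x : F ⋊[θ] Q) :
    (incF hF s * (gu E (SemidirectProduct.inr q : F ⋊[θ] Q) : SkewMonoidAlgebra E (F ⋊[θ] Q))).coeff x
      = if x.right = q then s.coeff x.left else 0 := by
  classical
  induction s using SkewMonoidAlgebra.induction_on with
  | zero =>
    rw [map_zero, zero_mul, SkewMonoidAlgebra.coeff_zero, SkewMonoidAlgebra.coeff_zero]
    simp
  | single f e =>
    rw [incF_single, coe_gu, SkewMonoidAlgebra.single_mul_single, smul_one, mul_one,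
      SkewMonoidAlgebra.coeff_single_apply, SkewMonoidAlgebra.coeff_single_apply]
    have h : (SemidirectProduct.inl f * SemidirectProduct.inr q : F ⋊[θ] Q) = x
        ↔ x.right = q ∧ f = x.left := by
      constructor
      · intro h
        rw [← h]
        simp
      · rintro ⟨h1, h2⟩
        rw [h2, ← h1, SemidirectProduct.inl_left_mul_inr_right]
    by_cases h1 : x.right = q
    · by_cases h2 : f = x.left
      · rw [if_pos (h.2 ⟨h1, h2⟩), if_pos h1, if_pos h2]
      · rw [if_neg (fun h' => h2 (h.1 h').2), if_pos h1, if_neg h2]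
    · rw [if_neg (fun h' => h1 (h.1 h').1), if_neg h1]
  | add a b ha hb =>
    rw [map_add, add_mul, SkewMonoidAlgebra.coeff_add, SkewMonoidAlgebra.coeff_add,
      Finsupp.add_apply, Finsupp.add_apply, ha, hb]
    split_ifs
    · rfl
    · rw [add_zero]

theorem leftBasis_incF : LeftBasis (incF hF) (fun q : Q =>
    (gu E (SemidirectProduct.inr q : F ⋊[θ] Q) : SkewMonoidAlgebra E (F ⋊[θ] Q))) := by
  classical
  have key : ∀ (f : Q →₀ SkewMonoidAlgebra E F) (x : F ⋊[θ] Q),
      (f.sum (fun q s => incF hF s * (gu E (SemidirectProduct.inr q : F ⋊[θ] Q) :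
        SkewMonoidAlgebra E (F ⋊[θ] Q)))).coeff x = (f x.right).coeff x.left := by
    intro f x
    have h1 : (f.sum (fun q s => incF hF s * (gu E (SemidirectProduct.inr q : F ⋊[θ] Q) :
        SkewMonoidAlgebra E (F ⋊[θ] Q)))).coeff x
        = ∑ q ∈ f.support, if x.right = q then (f q).coeff x.left else 0 := by
      rw [Finsupp.sum]
      have h2 : ∀ s : Finset Q, (∑ q ∈ s, incF hF (f q)
          * (gu E (SemidirectProduct.inr q : F ⋊[θ] Q) :
            SkewMonoidAlgebra E (F ⋊[θ] Q))).coeff x
          = ∑ q ∈ s, if x.right = q then (f q).coeff x.left else 0 := by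
        intro s
        induction s using Finset.induction_on with
        | empty => simp
        | insert a s ha ih =>
          rw [Finset.sum_insert ha, Finset.sum_insert ha, SkewMonoidAlgebra.coeff_add,
            Finsupp.add_apply, ih, coeff_incF]
      exact h2 _
    rw [h1, Finset.sum_ite_eq]
    split_ifs with h
    · rfl
    · rw [Finsupp.notMem_support_iff.1 h, SkewMonoidAlgebra.coeff_zero]
      rfl
  intro r
  have hex : ∃ f : Q →₀ SkewMonoidAlgebra E F, f.sum (fun q s => incF hF s *
      (gu E (SemidirectProduct.inr q : F ⋊[θ] Q) : SkewMonoidAlgebra E (F ⋊[θ] Q))) = r := by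
    induction r using SkewMonoidAlgebra.induction_on with
    | zero => exact ⟨0, Finsupp.sum_zero_index⟩
    | single x e =>
      refine ⟨Finsupp.single x.right (SkewMonoidAlgebra.single x.left e), ?_⟩
      rw [Finsupp.sum_single_index (by rw [map_zero, zero_mul]), incF_single, coe_gu,
        SkewMonoidAlgebra.single_mul_single, smul_one, mul_one,
        SemidirectProduct.inl_left_mul_inr_right]
    | add a b ha hb =>
      obtain ⟨f, hf⟩ := ha
      obtain ⟨g, hg⟩ := hb
      refine ⟨f + g, ?_⟩
      rw [Finsupp.sum_add_index' (fun q => by rw [map_zero, zero_mul])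
        (fun q s t => by rw [map_add, add_mul]), hf, hg]
  obtain ⟨f, hf⟩ := hex
  refine ⟨f, hf, ?_⟩
  intro g hg
  change g.sum _ = r at hg
  ext1 q
  apply SkewMonoidAlgebra.ext
  intro a
  have h1 := key f ⟨a, q⟩
  have h2 := key g ⟨a, q⟩
  rw [hf] at h1
  rw [hg] at h2
  exact h2.symm.trans h1

/-- **The crossed product step.** -/
theorem transport_Phi (h : Transport p) : Transport (Phi hF p hQ) := by
  refine Transport.tower p (incF hF) (eps D Q) (Phi hF p hQ) ?_ _ _ (leftBasis_incF hF)
    leftBasis_skew ?_ h
  · intro s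
    induction s using SkewMonoidAlgebra.induction_on with
    | zero => simp only [map_zero]
    | single f e =>
      rw [incF_single, Phi_single]
      rfl
    | add a b ha hb => simp only [map_add, ha, hb]
  · intro q
    rw [coe_gu, Phi_single]
    change SkewMonoidAlgebra.single q (p 1) = _
    rw [map_one]
    rfl

end Step

end Pool.Agent.H47.CD
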