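import Pool.Agent.H3.PF.Defs
import Pool.Agent.H47.CD.Step
import Pool.Agent.H97.UF.SeriesD
import Pool.Agent.H6.SK.Star
import Pool.Agent.H54.MN.Api

/-!
# helper47: the step of the tower, `P Q → P (FreeGroup X ⋊ Q)`

`P` is helper3's statement of the tower (`Pool/Agent/H3/PF/Defs.lean`).
-/

namespace Pool.Agent.H47.CD

open Pool.Agent.H3.PF Pool.H97.UF

section General

variable {E G D : Type} [DivisionRing E] [Group G] [MulSemiringAction G E] [DivisionRing D]

/-- the group elements as units of `D`, for a ring homomorphism out of the skew group ring -/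
noncomputable def uOf (f : SkewMonoidAlgebra E G →+* D) : G →* Dˣ :=
  (Units.map (f : SkewMonoidAlgebra E G →* D)).comp (unitS E)

theorem uOf_apply (f : SkewMonoidAlgebra E G →+* D) (g : G) :
    (uOf f g : D) = f (SkewMonoidAlgebra.single g 1) := rfl

theorem uOf_comm (f : SkewMonoidAlgebra E G →+* D) (g : G) (e : E) :
    (uOf f g : D) * (f.comp (eps E G)) e = (f.comp (eps E G)) (g • e) * uOf f g := by
  rw [uOf_apply, RingHom.comp_apply, RingHom.comp_apply, ← map_mul, ← map_mul, eps_apply,
    eps_apply, SkewMonoidAlgebra.single_mul_single, SkewMonoidAlgebra.single_mul_single, one_mul,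
    mul_one, one_mul, one_smul, mul_one]

theorem skLift_uOf (f : SkewMonoidAlgebra E G →+* D) :
    skLift (f.comp (eps E G)) (uOf f) (uOf_comm f) = f := by
  refine skHom_ext (fun g e => ?_)
  rw [skLift_single, uOf_apply, RingHom.comp_apply, ← map_mul, eps_apply,
    SkewMonoidAlgebra.single_mul_single, one_mul, one_smul, mul_one]

/-- constructor for `Good` from a ring homomorphism -/
noncomputable def goodOf [StarRing E] [StarRing D] (f : SkewMonoidAlgebra E G →+* D)
    (h1 : ∀ e : E, star (f (SkewMonoidAlgebra.single 1 e))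
      = f (SkewMonoidAlgebra.single 1 (star e)))
    (h2 : ∀ g : G, star (f (SkewMonoidAlgebra.single g 1)) * f (SkewMonoidAlgebra.single g 1) = 1)
    (h3 : Transport f) : Good E G D where
  ι := f.comp (eps E G)
  u := uOf f
  comm := uOf_comm f
  star_ι := h1
  star_u g := by
    have h4 : star (uOf f g : D) * (uOf f g : D) = 1 := h2 g
    exact (Units.inv_eq_of_mul_eq_one_left h4).symm
  tr := by
    rw [skLift_uOf]
    exact h3

end General

section Step

variable {E F Q D₁ D : Type} [DivisionRing E] [StarRing E] [Group F] [Group Q]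
  [DivisionRing D₁] [StarRing D₁] [DivisionRing D] [StarRing D]
  {θ : Q →* MulAut F} [MulSemiringAction (F ⋊[θ] Q) E] [MulSemiringAction F E]
  (hF : ∀ (f : F) (e : E), f • e = (SemidirectProduct.inl f : F ⋊[θ] Q) • e)
  [MulSemiringAction Q D₁] (p : SkewMonoidAlgebra E F →+* D₁)
  (hQ : ∀ (q : Q) (f : F) (e : E), q • p (SkewMonoidAlgebra.single f e)
    = p (SkewMonoidAlgebra.single (θ q f) ((SemidirectProduct.inr q : F ⋊[θ] Q) • e)))

include hF hQ in
/-- the step, for any block -/
theorem good_step (hp : Transport p)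
    (hps : ∀ (f : F) (e : E), star (p (SkewMonoidAlgebra.single f e))
      = p (SkewMonoidAlgebra.single f⁻¹ (f⁻¹ • star e)))
    (g : Good D₁ Q D) : Nonempty (Good E (F ⋊[θ] Q) D) := by
  let f : SkewMonoidAlgebra E (F ⋊[θ] Q) →+* D := (skLift g.ι g.u g.comm).comp (Phi hF p hQ)
  have hf : ∀ (x : F ⋊[θ] Q) (e : E), f (SkewMonoidAlgebra.single x e)
      = g.ι (p (SkewMonoidAlgebra.single x.left e)) * g.u x.right := by
    intro x e
    change (skLift g.ι g.u g.comm) (Phi hF p hQ (SkewMonoidAlgebra.single x e)) = _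
    rw [Phi_single, skLift_single]
  refine ⟨goodOf f ?_ ?_ (Transport.comp _ _ (transport_Phi hF p hQ hp) g.tr)⟩
  · intro e
    rw [hf, hf, SemidirectProduct.one_right, map_one, Units.val_one, mul_one, mul_one,
      SemidirectProduct.one_left, g.star_ι, hps, inv_one, one_smul]
  · intro x
    rw [hf, star_mul, g.star_ι, hps, star_one, smul_one, g.star_u]
    have h1 : p (SkewMonoidAlgebra.single x.left⁻¹ 1) * p (SkewMonoidAlgebra.single x.left 1)
        = 1 := by
      rw [← map_mul, SkewMonoidAlgebra.single_mul_single, smul_one, mul_one, inv_mul_cancel]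
      exact map_one p
    rw [mul_assoc, ← mul_assoc (g.ι _), ← map_mul, h1, map_one, one_mul, Units.inv_mul]

end Step

/-- **The step of the tower.** -/
theorem P_step (X Q : Type) [Group Q] (θ : Q →* MulAut (FreeGroup X)) (hP : P Q) :
    P (FreeGroup X ⋊[θ] Q) := by
  intro E _ _ _ hst
  let ac : (FreeGroup X ⋊[θ] Q) →* RingAut E :=
    MulSemiringAction.toRingAut (FreeGroup X ⋊[θ] Q) E
  let iF : MulSemiringAction (FreeGroup X) E := Pool.Agent.H6.SK.actF θ ac
  have hF : ∀ (f : FreeGroup X) (e : E),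
      f • e = (SemidirectProduct.inl f : FreeGroup X ⋊[θ] Q) • e := fun _ _ => rfl
  have hstF : ∀ (f : FreeGroup X) (e : E), star (f • e) = f • star e := by
    intro f e
    rw [hF, hF, hst]
  let iS : StarRing (SkewMonoidAlgebra E (FreeGroup X)) := Pool.Agent.H6.SK.starSk hstF
  have hq : ∀ (q : Q) (f : FreeGroup X) (e : E),
      (ac.comp (SemidirectProduct.inr (φ := θ))) q (f • e)
        = (θ q f) • ((ac.comp (SemidirectProduct.inr (φ := θ))) q e) :=
    Pool.Agent.H6.SK.semi_compat θ ac
  obtain ⟨L, _, ⟨S⟩⟩ := Pool.Agent.H54.MNS.exists_series_freeGroup E X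
  obtain ⟨A, hA⟩ := exists_action (univ_Sphi S) (dgen_Sphi S)
    (Pool.Agent.H6.SK.qAct θ (ac.comp (SemidirectProduct.inr (φ := θ))) hq)
  obtain ⟨iD, hs⟩ := exists_star (univ_Sphi S) (dgen_Sphi S)
  let iQ : MulSemiringAction Q (DC S) := Pool.Agent.H6.SK.actOf A
  let iD' : StarRing (DC S) := iD
  have hcompat : ∀ (q : Q) (d : DC S), q • star d = star (q • d) := by
    intro q d
    refine star_aut (j := Sphi S) (dgen_Sphi S) hs
      (Pool.Agent.H6.SK.qAct θ (ac.comp (SemidirectProduct.inr (φ := θ))) hq q) ?_ (A q)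
      (hA q) d
    intro s
    refine Pool.Agent.H6.SK.qAct_star θ _ hq hstF ?_ q s
    intro q e
    exact hst _ _
  obtain ⟨D, _, _, ⟨g⟩⟩ := hP (DC S) hcompat
  refine ⟨D, inferInstance, inferInstance, good_step hF (phi S) ?_ (transport_phi S) ?_ g⟩
  · intro q f e
    refine (hA q _).trans ?_
    rw [Pool.Agent.H6.SK.qAct_single]
    rfl
  · intro f e
    refine (hs _).trans ?_
    rw [Pool.Agent.H6.SK.starSk_single]
    rfl

end Pool.Agent.H47.CD
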