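import Pool.Agent.H47.CD.Trans

/-!
# helper47: transport of resolutions for a block `S = E ⋊ F → E'`

`E ⊆ S → E'`, `E`, `E'` division rings, `S` generated by `E` and units `x i` normalising `E`, `φ : S → E'` injective, `E'` the
division closure of `φ S`. `B U = E' ⊗_E U` is modelled by `C →₀ U`, `C` a basis of `E'` as a right `E`-space. If
`J : ⊕ B E' → B E'`, `(c ⊗ z)_i ↦ c x_i ⊗ x_i⁻¹ z - c ⊗ z` is injective then `φ` transports resolutions.
-/

namespace Pool.Agent.H47.CD

open Module

/-- a basis of `E'` as a right `E`-space, with its coordinates -/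
structure RBasis {E E' : Type} [DivisionRing E] [DivisionRing E'] (f : E →+* E') (C : Type) where
  cb : C → E'
  rep : E' →+ (C →₀ E)
  rep_mul : ∀ b e c, rep (b * f e) c = rep b c * e
  sum_rep : ∀ b, (rep b).sum (fun c e => cb c * f e) = b
  rep_cb : ∀ c, rep (cb c) = Finsupp.single c 1

theorem exists_rbasis {E E' : Type} [DivisionRing E] [DivisionRing E'] (f : E →+* E') :
    ∃ C : Type, Nonempty (RBasis f C) := by
  letI : Module Eᵐᵒᵖ E' := Module.compHom E' f.op
  have hs : ∀ (e : Eᵐᵒᵖ) (b : E'), e • b = b * f e.unop := fun _ _ => rfl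
  let v := Basis.ofVectorSpace Eᵐᵒᵖ E'
  refine ⟨_, ⟨{
    cb := v
    rep :=
      { toFun := fun b => (v.repr b).mapRange MulOpposite.unop rfl
        map_zero' := by simp
        map_add' := fun b b' => by
          rw [map_add, Finsupp.mapRange_add (fun _ _ => rfl)] }
    rep_mul := fun b e c => by
      have : b * f e = (MulOpposite.op e) • b := rfl
      change ((v.repr (b * f e)).mapRange MulOpposite.unop rfl) c = _
      rw [this, map_smul]
      simp
    sum_rep := fun b => by
      change ((v.repr b).mapRange MulOpposite.unop rfl).sum (fun c e => v c * f e) = b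
      rw [Finsupp.sum_mapRange_index (by intro; simp)]
      conv_rhs => rw [← v.linearCombination_repr b]
      rw [Finsupp.linearCombination_apply]
      rfl
    rep_cb := fun c => by
      change (v.repr (v c)).mapRange MulOpposite.unop rfl = _
      rw [v.repr_self, Finsupp.mapRange_single]
      rfl }⟩⟩

section Block

variable {E E' S X : Type} [DivisionRing E] [DivisionRing E'] [Ring S] {ε : E →+* S}
  {φ : S →+* E'} {C : Type} (R : RBasis (φ.comp ε) C) (x : X → Sˣ)

variable {U U₂ U₃ : Type} [AddCommGroup U] [Module S U] [AddCommGroup U₂] [Module S U₂]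
  [AddCommGroup U₃] [Module S U₃]

/-- the tensor `b ⊗ u` -/
noncomputable def T (b : E') (u : U) : C →₀ U :=
  (R.rep b).mapRange (fun e => ε e • u) (by rw [map_zero, zero_smul])

theorem T_apply (b : E') (u : U) (c : C) : T R b u c = ε (R.rep b c) • u := by
  rw [T, Finsupp.mapRange_apply]

theorem T_add_left (b b' : E') (u : U) : T R (b + b') u = T R b u + T R b' u := by
  ext c
  rw [Finsupp.add_apply, T_apply, T_apply, T_apply, map_add, Finsupp.add_apply, map_add, add_smul]

theorem T_add_right (b : E') (u u' : U) : T R b (u + u') = T R b u + T R b u' := by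
  ext c
  rw [Finsupp.add_apply, T_apply, T_apply, T_apply, smul_add]

/-- `T` as a biadditive map -/
noncomputable def TT : E' →+ U →+ (C →₀ U) :=
  AddMonoidHom.mk' (fun b => AddMonoidHom.mk' (fun u => T R b u) (T_add_right R b))
    (fun b b' => by
      ext u : 1
      exact T_add_left R b b' u)

theorem TT_apply (b : E') (u : U) : TT R b u = T R b u := rfl

theorem T_bal (b : E') (e : E) (u : U) : T R (b * φ (ε e)) u = T R b (ε e • u) := by
  ext c
  rw [T_apply, T_apply, ← mul_smul, ← map_mul]
  congr 2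
  exact R.rep_mul b e c

theorem T_cb (c : C) (u : U) : T R (R.cb c) u = Finsupp.single c u := by
  ext c'
  rw [T_apply, R.rep_cb]
  by_cases h : c = c'
  · rw [h, Finsupp.single_eq_same, Finsupp.single_eq_same, map_one, one_smul]
  · rw [Finsupp.single_eq_of_ne (Ne.symm h), Finsupp.single_eq_of_ne (Ne.symm h), map_zero,
      zero_smul]

/-- induction principle: `C →₀ U` is generated by the tensors -/
theorem hom_ext {A : Type} [AddCommGroup A] {f g : (C →₀ U) →+ A}
    (h : ∀ b u, f (T R b u) = g (T R b u)) : f = g := by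
  refine Finsupp.addHom_ext (fun c u => ?_)
  rw [← T_cb R c u]
  exact h _ _

/-- `c ⊗ u ↦ c x_i ⊗ x_i⁻¹ u` -/
noncomputable def al (i : X) : (C →₀ U) →+ (C →₀ U) :=
  Finsupp.liftAddHom (fun c => (TT R (R.cb c * φ (x i))).comp
    (DistribSMul.toAddMonoidHom U ((↑(x i)⁻¹ : S))))

theorem al_single (i : X) (c : C) (u : U) :
    al R x i (Finsupp.single c u) = T R (R.cb c * φ (x i)) ((↑(x i)⁻¹ : S) • u) := by
  rw [al, Finsupp.liftAddHom_apply_single]
  rfl

theorem al_T {a : X → E ≃+* E} (ha : ∀ i e, (x i : S) * ε e = ε (a i e) * x i) (i : X) (b : E')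
    (u : U) : al R x i (T R b u) = T R (b * φ (x i)) ((↑(x i)⁻¹ : S) • u) := by
  have h1 : T R b u = (R.rep b).sum (fun c e => Finsupp.single c (ε e • u)) := by
    rw [← Finsupp.sum_single (T R b u), T, Finsupp.sum_mapRange_index (by simp)]
  have h2 : b * φ (x i) = (R.rep b).sum (fun c e => R.cb c * φ (ε e) * φ (x i)) := by
    conv_lhs => rw [← R.sum_rep b]
    rw [Finsupp.sum, Finset.sum_mul]
    rfl
  rw [h1, h2, Finsupp.sum, Finsupp.sum, map_sum, ← TT_apply, map_sum, AddMonoidHom.finset_sum_apply]
  refine Finset.sum_congr rfl (fun c _ => ?_)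
  rw [al_single, TT_apply]
  set e := (R.rep b) c
  have h3 : (↑(x i)⁻¹ : S) * ε e = ε ((a i).symm e) * ↑(x i)⁻¹ := by
    have := ha i ((a i).symm e)
    rw [RingEquiv.apply_symm_apply] at this
    calc (↑(x i)⁻¹ : S) * ε e = ↑(x i)⁻¹ * (ε e * x i) * ↑(x i)⁻¹ := by
          rw [mul_assoc, mul_assoc, Units.mul_inv, mul_one]
      _ = ↑(x i)⁻¹ * (x i * ε ((a i).symm e)) * ↑(x i)⁻¹ := by rw [this]
      _ = _ := by rw [← mul_assoc, Units.inv_mul, one_mul]
  rw [← mul_smul, h3, mul_smul, ← T_bal, mul_assoc, mul_assoc, ← map_mul, ← map_mul]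
  congr 2
  rw [ha, RingEquiv.apply_symm_apply]

/-- the map `J` -/
noncomputable def J : (X →₀ (C →₀ U)) →+ (C →₀ U) :=
  Finsupp.liftAddHom (fun i => al R x i - AddMonoidHom.id _)

theorem J_single (i : X) (w : C →₀ U) : J R x (Finsupp.single i w) = al R x i w - w := by
  rw [J, Finsupp.liftAddHom_apply_single]
  rfl

/-- functoriality -/
noncomputable def Bf (f : U →+ U₂) : (C →₀ U) →+ (C →₀ U₂) := Finsupp.mapRange.addMonoidHom f

noncomputable def Bf2 (f : U →+ U₂) : (X →₀ (C →₀ U)) →+ (X →₀ (C →₀ U₂)) :=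
  Finsupp.mapRange.addMonoidHom (Bf f)

theorem Bf_T (f : U →ₗ[S] U₂) (b : E') (u : U) : Bf f.toAddMonoidHom (T R b u) = T R b (f u) := by
  ext c
  change f (T R b u c) = _
  rw [T_apply, T_apply, map_smul]

theorem Bf_al (f : U →ₗ[S] U₂) (i : X) (w : C →₀ U) :
    Bf f.toAddMonoidHom (al R x i w) = al R x i (Bf f.toAddMonoidHom w) := by
  have : (Bf f.toAddMonoidHom).comp (al R x i) = (al R x i).comp (Bf f.toAddMonoidHom) := by
    refine Finsupp.addHom_ext (fun c u => ?_)
    rw [AddMonoidHom.comp_apply, AddMonoidHom.comp_apply, al_single, Bf_T]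
    have e : Bf f.toAddMonoidHom (Finsupp.single c u) = Finsupp.single c (f u) :=
      Finsupp.mapRange_single (hf := map_zero _)
    rw [e, al_single]
    congr 1
    exact f.map_smul _ _
  exact DFunLike.congr_fun this w

theorem Bf_J (f : U →ₗ[S] U₂) (W : X →₀ (C →₀ U)) :
    Bf f.toAddMonoidHom (J R x W) = J R x (Bf2 f.toAddMonoidHom W) := by
  have : (Bf f.toAddMonoidHom).comp (J R x) = (J R x).comp (Bf2 f.toAddMonoidHom) := by
    refine Finsupp.addHom_ext (fun i w => ?_)
    have e : Bf2 f.toAddMonoidHom (Finsupp.single i w)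
        = Finsupp.single i (Bf f.toAddMonoidHom w) := Finsupp.mapRange_single (hf := map_zero _)
    rw [AddMonoidHom.comp_apply, AddMonoidHom.comp_apply, J_single, map_sub, Bf_al, e, J_single]
  exact DFunLike.congr_fun this W

/-- exactness of `C →₀ -` -/
theorem Bf_exact {κ : Type} (f : U →+ U₂) (g : U₂ →+ U₃) (h : ∀ u, g u = 0 → ∃ v, f v = u)
    (w : κ →₀ U₂) (hw : ∀ c, g (w c) = 0) : ∃ w' : κ →₀ U, ∀ c, f (w' c) = w c := by
  classical
  have hpre : ∃ pre : U₂ → U, pre 0 = 0 ∧ ∀ u, g u = 0 → f (pre u) = u := by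
    choose p hp using h
    refine ⟨fun u => if u = 0 then 0 else if hu : g u = 0 then p u hu else 0, by simp, ?_⟩
    intro u hu
    by_cases h0 : u = 0
    · simp [h0]
    · simp only [h0, if_false, hu, dif_pos]
      exact hp u hu
  obtain ⟨pre, h0, h1⟩ := hpre
  exact ⟨w.mapRange pre h0, fun c => by rw [Finsupp.mapRange_apply]; exact h1 _ (hw c)⟩

theorem Bf_apply (f : U →+ U₂) (w : C →₀ U) (c : C) : Bf f w c = f (w c) := rfl

theorem Bf2_apply (f : U →+ U₂) (W : X →₀ (C →₀ U)) (i : X) : Bf2 f W i = Bf f (W i) := rfl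

theorem Bf_exact' (f : U →+ U₂) (g : U₂ →+ U₃) (h : ∀ u, g u = 0 → ∃ v, f v = u)
    (w : C →₀ U₂) (hw : Bf g w = 0) : ∃ w' : C →₀ U, Bf f w' = w := by
  obtain ⟨w', h'⟩ := Bf_exact f g h w (fun c => by rw [← Bf_apply, hw]; rfl)
  exact ⟨w', by ext c; exact h' c⟩

theorem Bf2_exact' (f : U →+ U₂) (g : U₂ →+ U₃) (h : ∀ u, g u = 0 → ∃ v, f v = u)
    (W : X →₀ (C →₀ U₂)) (hw : Bf2 g W = 0) : ∃ W' : X →₀ (C →₀ U), Bf2 f W' = W := by
  obtain ⟨w', h'⟩ := Bf_exact (Bf (C := C) f) (Bf g) (Bf_exact' f g h) W
    (fun c => by rw [← Bf2_apply, hw]; rfl)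
  exact ⟨w', by ext1 c; exact h' c⟩

/-- injectivity of `J` -/
def InjJ (U : Type) [AddCommGroup U] [Module S U] : Prop := ∀ W : X →₀ (C →₀ U), J R x W = 0 → W = 0

theorem InjJ.of_injective (f : U →ₗ[S] U₂) (hf : Function.Injective f) (h : InjJ R x U₂) :
    InjJ R x U := by
  intro W hW
  have h1 : J R x (Bf2 f.toAddMonoidHom W) = 0 := by rw [← Bf_J, hW, map_zero]
  have h2 := h _ h1
  ext i c
  have h3 := congrArg (fun Z : X →₀ (C →₀ U₂) => Z i c) h2
  change f (W i c) = 0 at h3
  exact hf (h3.trans (map_zero f).symm)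

theorem InjJ.of_family {κ : Type} (f : κ → U →ₗ[S] U₂) (hf : ∀ u, (∀ k, f k u = 0) → u = 0)
    (h : InjJ R x U₂) : InjJ R x U := by
  intro W hW
  ext i c
  refine hf _ (fun k => ?_)
  have h1 : J R x (Bf2 (f k).toAddMonoidHom W) = 0 := by rw [← Bf_J, hW, map_zero]
  have h2 := h _ h1
  exact congrArg (fun Z : X →₀ (C →₀ U₂) => Z i c) h2

end Block

section Q

variable {E E' S X : Type} [DivisionRing E] [DivisionRing E'] [Ring S] {ε : E →+* S}
  {φ : S →+* E'} {C : Type} (R : RBasis (φ.comp ε) C) (x : X → Sˣ)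

variable {U U' : Type} [AddCommGroup U] [Module S U] [AddCommGroup U'] [Module E' U']
  (j : U →ₛₗ[φ] U')

/-- `c ⊗ u ↦ c • j u` -/
noncomputable def q : (C →₀ U) →+ U' :=
  Finsupp.liftAddHom (fun c => (DistribSMul.toAddMonoidHom U' (R.cb c)).comp j.toAddMonoidHom)

theorem q_single (c : C) (u : U) : q R j (Finsupp.single c u) = R.cb c • j u := by
  rw [q, Finsupp.liftAddHom_apply_single]
  rfl

theorem q_T (b : E') (u : U) : q R j (T R b u) = b • j u := by
  have h1 : T R b u = (R.rep b).sum (fun c e => Finsupp.single c (ε e • u)) := by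
    rw [← Finsupp.sum_single (T R b u), T, Finsupp.sum_mapRange_index (by simp)]
  rw [h1, Finsupp.sum, map_sum]
  conv_rhs => rw [← R.sum_rep b, Finsupp.sum, Finset.sum_smul]
  refine Finset.sum_congr rfl (fun c _ => ?_)
  rw [q_single, j.map_smulₛₗ, smul_smul]
  rfl

theorem q_J (W : X →₀ (C →₀ U)) : q R j (J R x W) = 0 := by
  have : (q R j).comp (J R x) = 0 := by
    refine Finsupp.addHom_ext (fun i w => ?_)
    rw [AddMonoidHom.comp_apply, J_single, map_sub, AddMonoidHom.zero_apply, sub_eq_zero]
    have : (q R j).comp (al R x i) = q R j := by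
      refine Finsupp.addHom_ext (fun c u => ?_)
      rw [AddMonoidHom.comp_apply, al_single, q_T, q_single, j.map_smulₛₗ, smul_smul, mul_assoc,
        ← map_mul, Units.mul_inv, map_one, mul_one]
    exact DFunLike.congr_fun this w
  exact DFunLike.congr_fun this W

/-- moving elements of `S` through the tensor, modulo the image of `J` -/
theorem move {a : X → E ≃+* E} (ha : ∀ i e, (x i : S) * ε e = ε (a i e) * x i)
    (hgen : ∀ T : Subring S, (∀ e, ε e ∈ T) → (∀ i, (x i : S) ∈ T) → (∀ i, (↑(x i)⁻¹ : S) ∈ T) →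
      T = ⊤) (s : S) (b : E') (u : U) :
    T R b (s • u) - T R (b * φ s) u ∈ (J R x (U := U)).range := by
  let N := (J R x (U := U)).range
  have hx : ∀ i (b : E') (u : U), T R b ((x i : S) • u) - T R (b * φ (x i)) u ∈ N := by
    intro i b u
    refine ⟨- Finsupp.single i (T R b ((x i : S) • u)), ?_⟩
    rw [map_neg, J_single, al_T R x ha, smul_smul, Units.inv_mul, one_smul]
    abel
  let Tr : Subring S :=
    { carrier := {s | ∀ (b : E') (u : U), T R b (s • u) - T R (b * φ s) u ∈ N}
      mul_mem' := by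
        intro s t hs ht b u
        have h1 := hs b (t • u)
        have h2 := ht (b * φ s) u
        rw [mul_smul, map_mul, ← mul_assoc]
        have := N.add_mem h1 h2
        rwa [sub_add_sub_cancel] at this
      one_mem' := by
        intro b u
        rw [one_smul, map_one, mul_one, sub_self]
        exact N.zero_mem
      add_mem' := by
        intro s t hs ht b u
        rw [add_smul, T_add_right, map_add, mul_add, T_add_left]
        have := N.add_mem (hs b u) (ht b u)
        rwa [sub_add_sub_comm] at this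
      zero_mem' := by
        intro b u
        rw [zero_smul, map_zero, mul_zero]
        have h1 : T R b (0 : U) = 0 := (TT R b).map_zero
        have h2 : T R (0 : E') u = 0 := by
          have := T_add_left R 0 0 u
          rw [add_zero] at this
          exact left_eq_add.1 this
        rw [h1, h2, sub_zero]
        exact N.zero_mem
      neg_mem' := by
        intro s hs b u
        have h1 : T R b (- (s • u)) = - T R b (s • u) := (TT R b).map_neg _
        have h2 : T R (- (b * φ s)) u = - T R (b * φ s) u := by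
          have := (TT R (U := U)).map_neg (b * φ s)
          exact DFunLike.congr_fun this u
        rw [neg_smul, map_neg, mul_neg, h1, h2, neg_sub_neg, ← neg_sub]
        exact N.neg_mem (hs b u) }
  have htop : Tr = ⊤ := by
    refine hgen Tr ?_ ?_ ?_
    · intro e b u
      rw [T_bal, sub_self]
      exact N.zero_mem
    · intro i b u
      exact hx i b u
    · intro i b u
      have h1 := hx i (b * φ (↑(x i)⁻¹ : S)) ((↑(x i)⁻¹ : S) • u)
      rw [smul_smul, Units.mul_inv, one_smul, mul_assoc, ← map_mul, Units.inv_mul, map_one,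
        mul_one] at h1
      have := N.neg_mem h1
      rwa [neg_sub] at this
  have : s ∈ Tr := by rw [htop]; trivial
  exact this b u

/-- coordinates for a base change -/
noncomputable def GG {I : Type} (b : Basis I S U) : (C →₀ U) →+ (I →₀ E') :=
  Finsupp.liftAddHom (fun c => (AddMonoidHom.mk' (fun u => (b.repr u).mapRange
    (fun s => R.cb c * φ s) (by rw [map_zero, mul_zero])) (fun u u' => by
      rw [map_add, Finsupp.mapRange_add (fun s t => by rw [map_add, mul_add])])))

theorem GG_single {I : Type} (b : Basis I S U) (c : C) (u : U) :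
    GG R b (Finsupp.single c u) = (b.repr u).mapRange (fun s => R.cb c * φ s)
      (by rw [map_zero, mul_zero]) := by
  rw [GG, Finsupp.liftAddHom_apply_single]
  rfl

noncomputable def HH {I : Type} (b : I → U) : (I →₀ E') →+ (C →₀ U) :=
  Finsupp.liftAddHom (fun k => (TT R).flip (b k))

theorem HH_single {I : Type} (b : I → U) (k : I) (e : E') :
    HH R b (Finsupp.single k e) = T R e (b k) := by
  rw [HH, Finsupp.liftAddHom_apply_single]
  rfl

/-- the kernel of `q` for a base change -/
theorem ker_q {a : X → E ≃+* E} (ha : ∀ i e, (x i : S) * ε e = ε (a i e) * x i)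
    (hgen : ∀ T : Subring S, (∀ e, ε e ∈ T) → (∀ i, (x i : S) ∈ T) → (∀ i, (↑(x i)⁻¹ : S) ∈ T) →
      T = ⊤) (hj : IsBC φ j) (w : C →₀ U) (hw : q R j w = 0) : ∃ W, J R x W = w := by
  obtain ⟨I, b, b', hb⟩ := hj
  let N := (J R x (U := U)).range
  have key : ∀ w : C →₀ U, w - HH R b (GG R b w) ∈ N := by
    intro w
    induction w using Finsupp.induction_linear with
    | zero =>
      rw [map_zero, map_zero, sub_zero]
      exact N.zero_mem
    | add f g hf hg =>
      rw [map_add, map_add, ← sub_add_sub_comm]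
      exact N.add_mem hf hg
    | single c u =>
      rw [GG_single]
      have e1 : Finsupp.single c u = ∑ k ∈ (b.repr u).support, T R (R.cb c) (b.repr u k • b k) := by
        conv_lhs => rw [← b.linearCombination_repr u]
        rw [← T_cb R, Finsupp.linearCombination_apply, Finsupp.sum, ← TT_apply, map_sum]
        rfl
      have e2 : HH R b ((b.repr u).mapRange (fun s => R.cb c * φ s) (by rw [map_zero, mul_zero]))
          = ∑ k ∈ (b.repr u).support, T R (R.cb c * φ (b.repr u k)) (b k) := by
        rw [← Finsupp.sum_single ((b.repr u).mapRange (fun s => R.cb c * φ s) _),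
          Finsupp.sum_mapRange_index (by intro; simp), Finsupp.sum, map_sum]
        refine Finset.sum_congr rfl (fun k _ => ?_)
        rw [HH_single]
      rw [e1, e2, ← Finset.sum_sub_distrib]
      exact N.sum_mem (fun k _ => move R x ha hgen _ _ _)
  obtain ⟨W, hW⟩ := key w
  have h1 : q R j (HH R b (GG R b w)) = 0 := by
    have := q_J R x j W
    rw [hW, map_sub, hw, zero_sub, neg_eq_zero] at this
    exact this
  have h2 : ∀ f : I →₀ E', q R j (HH R b f) = Finsupp.linearCombination E' b' f := by
    intro f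
    have : (q R j).comp (HH R b) = (Finsupp.linearCombination E' b').toAddMonoidHom := by
      refine Finsupp.addHom_ext (fun k e => ?_)
      rw [AddMonoidHom.comp_apply, HH_single, q_T, ← hb]
      exact (Finsupp.linearCombination_single E' e k).symm
    exact DFunLike.congr_fun this f
  have h3 : GG R b w = 0 := by
    rw [h2] at h1
    have := b'.linearIndependent
    rw [linearIndependent_iff] at this
    exact this _ h1
  refine ⟨W, ?_⟩
  rw [hW, h3, map_zero, sub_zero]

/-- surjectivity of `q` for a base change -/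
theorem q_surj (hj : IsBC φ j) (y : U') : ∃ w, q R j w = y := by
  obtain ⟨I, b, b', hb⟩ := hj
  refine ⟨HH R b (b'.repr y), ?_⟩
  have : (q R j).comp (HH R b) = (Finsupp.linearCombination E' b').toAddMonoidHom := by
    refine Finsupp.addHom_ext (fun k e => ?_)
    rw [AddMonoidHom.comp_apply, HH_single, q_T, ← hb]
    exact (Finsupp.linearCombination_single E' e k).symm
  have h2 := DFunLike.congr_fun this (b'.repr y)
  exact h2.trans (b'.linearCombination_repr y)

end Q

section Main

variable {E E' S X : Type} [DivisionRing E] [DivisionRing E'] [Ring S] {ε : E →+* S}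
  {φ : S →+* E'} {C : Type} (R : RBasis (φ.comp ε) C) (x : X → Sˣ)

/-- elements of `E'` may be moved through the tensor in an `E'`-module -/
theorem moveM {a : X → E ≃+* E} (ha : ∀ i e, (x i : S) * ε e = ε (a i e) * x i)
    (hgen : ∀ T : Subring S, (∀ e, ε e ∈ T) → (∀ i, (x i : S) ∈ T) → (∀ i, (↑(x i)⁻¹ : S) ∈ T) →
      T = ⊤)
    (hgen' : ∀ T : Subring E', (∀ s, φ s ∈ T) → (∀ y ∈ T, y⁻¹ ∈ T) → T = ⊤)
    {M : Type} [AddCommGroup M] [Module S M] [Module E' M] (hM : ∀ (s : S) (m : M), s • m = φ s • m)
    (y : E') (b : E') (u : M) : T R b (y • u) - T R (b * y) u ∈ (J R x (U := M)).range := by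
  let N := (J R x (U := M)).range
  let Tr : Subring E' :=
    { carrier := {s | ∀ (b : E') (u : M), T R b (s • u) - T R (b * s) u ∈ N}
      mul_mem' := by
        intro s t hs ht b u
        have h1 := hs b (t • u)
        have h2 := ht (b * s) u
        rw [mul_smul, ← mul_assoc]
        have := N.add_mem h1 h2
        rwa [sub_add_sub_cancel] at this
      one_mem' := by
        intro b u
        rw [one_smul, mul_one, sub_self]
        exact N.zero_mem
      add_mem' := by
        intro s t hs ht b u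
        rw [add_smul, T_add_right, mul_add, T_add_left]
        have := N.add_mem (hs b u) (ht b u)
        rwa [sub_add_sub_comm] at this
      zero_mem' := by
        intro b u
        rw [zero_smul, mul_zero]
        have h1 : T R b (0 : M) = 0 := (TT R b).map_zero
        have h2 : T R (0 : E') u = 0 := DFunLike.congr_fun ((TT R (U := M)).map_zero) u
        rw [h1, h2, sub_zero]
        exact N.zero_mem
      neg_mem' := by
        intro s hs b u
        have h1 : T R b (- (s • u)) = - T R b (s • u) := (TT R b).map_neg _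
        have h2 : T R (- (b * s)) u = - T R (b * s) u :=
          DFunLike.congr_fun ((TT R (U := M)).map_neg (b * s)) u
        rw [neg_smul, mul_neg, h1, h2, neg_sub_neg, ← neg_sub]
        exact N.neg_mem (hs b u) }
  have htop : Tr = ⊤ := by
    refine hgen' Tr ?_ ?_
    · intro s b u
      have := move R x ha hgen s b u
      rwa [hM] at this
    · intro y hy b u
      by_cases h0 : y = 0
      · rw [h0, inv_zero, zero_smul, mul_zero]
        have h1 : T R b (0 : M) = 0 := (TT R b).map_zero
        have h2 : T R (0 : E') u = 0 := DFunLike.congr_fun ((TT R (U := M)).map_zero) u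
        rw [h1, h2, sub_zero]
        exact N.zero_mem
      · have h1 := hy (b * y⁻¹) (y⁻¹ • u)
        rw [smul_smul, mul_inv_cancel₀ h0, one_smul, mul_assoc, inv_mul_cancel₀ h0, mul_one] at h1
        have := N.neg_mem h1
        rwa [neg_sub] at this
  have : y ∈ Tr := by rw [htop]; trivial
  exact this b u

theorem ker_qM {a : X → E ≃+* E} (ha : ∀ i e, (x i : S) * ε e = ε (a i e) * x i)
    (hgen : ∀ T : Subring S, (∀ e, ε e ∈ T) → (∀ i, (x i : S) ∈ T) → (∀ i, (↑(x i)⁻¹ : S) ∈ T) →
      T = ⊤)
    (hgen' : ∀ T : Subring E', (∀ s, φ s ∈ T) → (∀ y ∈ T, y⁻¹ ∈ T) → T = ⊤)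
    {M : Type} [AddCommGroup M] [Module S M] [Module E' M] (hM : ∀ (s : S) (m : M), s • m = φ s • m)
    (w : C →₀ M) (hw : w.sum (fun c u => R.cb c • u) = 0) : ∃ W, J R x W = w := by
  let N := (J R x (U := M)).range
  have key : w - T R 1 (w.sum (fun c u => R.cb c • u)) ∈ N := by
    have e1 : w = ∑ c ∈ w.support, T R (R.cb c) (w c) := by
      conv_lhs => rw [← Finsupp.sum_single w, Finsupp.sum]
      exact Finset.sum_congr rfl (fun c _ => (T_cb R c _).symm)
    have e2 : T R 1 (w.sum (fun c u => R.cb c • u)) = ∑ c ∈ w.support, T R 1 (R.cb c • w c) := by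
      rw [Finsupp.sum, ← TT_apply, map_sum]
      rfl
    have e3 : w - ∑ c ∈ w.support, T R 1 (R.cb c • w c)
        = ∑ c ∈ w.support, (T R (R.cb c) (w c) - T R 1 (R.cb c • w c)) := by
      rw [Finset.sum_sub_distrib, ← e1]
    rw [e2, e3]
    refine N.sum_mem (fun c _ => ?_)
    have := N.neg_mem (moveM R x ha hgen hgen' hM (R.cb c) 1 (w c))
    rwa [one_mul, neg_sub] at this
  have h0 : T R 1 (0 : M) = 0 := (TT R 1).map_zero
  rw [hw, h0, sub_zero] at key
  exact key

/-- **Block transport.** -/
theorem block_transport {a : X → E ≃+* E} (ha : ∀ i e, (x i : S) * ε e = ε (a i e) * x i)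
    (hφ : Function.Injective φ)
    (hgen : ∀ T : Subring S, (∀ e, ε e ∈ T) → (∀ i, (x i : S) ∈ T) → (∀ i, (↑(x i)⁻¹ : S) ∈ T) →
      T = ⊤)
    (hgen' : ∀ T : Subring E', (∀ s, φ s ∈ T) → (∀ y ∈ T, y⁻¹ ∈ T) → T = ⊤)
    (hJ : @InjJ E E' S X _ _ _ ε φ C R x E' _ (Module.compHom E' φ)) : Transport φ := by
  intro P P' _ _ _ _ M _ _ d d' j π π' hbc hjd hπ hdd hex hπd hexπ hsurj
  letI iM : Module S M := Module.compHom M φ
  letI iE : Module S E' := Module.compHom E' φ
  letI iP' : ∀ i, Module S (P' i) := fun i => Module.compHom (P' i) φ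
  have hM : ∀ (s : S) (m : M), s • m = φ s • m := fun _ _ => rfl
  -- injectivity of `J` on `E'`-modules
  have inj' : ∀ (V : Type) [AddCommGroup V] [Module E' V],
      @InjJ E E' S X _ _ _ ε φ C R x V _ (Module.compHom V φ) := by
    intro V _ _
    letI iV : Module S V := Module.compHom V φ
    let v := Basis.ofVectorSpace E' V
    let f : ∀ _ : Basis.ofVectorSpaceIndex E' V, V →ₗ[S] E' := fun k =>
      { toFun := fun u => v.repr u k
        map_add' := fun u u' => by rw [map_add, Finsupp.add_apply]
        map_smul' := fun s u => by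
          change v.repr (φ s • u) k = φ s * v.repr u k
          rw [map_smul, Finsupp.smul_apply, smul_eq_mul] }
    refine InjJ.of_family R x f (fun u hu => ?_) hJ
    apply v.repr.injective
    ext k
    rw [map_zero]
    exact hu k
  have injP : ∀ i, InjJ R x (P i) := by
    intro i
    obtain ⟨I, b, b', hb⟩ := hbc i
    let f : P i →ₗ[S] P' i :=
      { toFun := j i, map_add' := (j i).map_add, map_smul' := fun s u => (j i).map_smulₛₗ s u }
    refine InjJ.of_injective R x f ?_ (inj' (P' i))
    -- a base change along an injective map is injective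
    rw [injective_iff_map_eq_zero]
    intro u hu
    have hx : j i u = Finsupp.linearCombination E' b' ((b.repr u).mapRange φ (map_zero φ)) := by
      conv_lhs => rw [← b.linearCombination_repr u]
      rw [Finsupp.linearCombination_apply, Finsupp.sum, map_sum, Finsupp.linearCombination_apply,
        Finsupp.sum_mapRange_index (by intro; simp), Finsupp.sum]
      refine Finset.sum_congr rfl (fun k _ => ?_)
      rw [(j i).map_smulₛₗ, hb]
    have h1 : Finsupp.linearCombination E' b' ((b.repr u).mapRange φ (map_zero φ)) = 0 := by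
      rw [← hx]
      exact hu
    have h2 := b'.linearIndependent
    rw [linearIndependent_iff] at h2
    have h3 := h2 _ h1
    apply b.repr.injective
    rw [map_zero]
    ext k
    have h4 := DFunLike.congr_fun h3 k
    rw [Finsupp.mapRange_apply] at h4
    exact hφ (h4.trans (map_zero φ).symm)
  have injM : InjJ R x M := inj' M
  -- naturality of q
  have qd : ∀ i (w : C →₀ P (i + 1)), q R (j i) (Bf (d i).toAddMonoidHom w)
      = d' i (q R (j (i + 1)) w) := by
    intro i w
    have : (q R (j i)).comp (Bf (d i).toAddMonoidHom)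
        = (d' i).toAddMonoidHom.comp (q R (j (i + 1))) := by
      refine Finsupp.addHom_ext (fun c u => ?_)
      have e : Bf (d i).toAddMonoidHom (Finsupp.single c u) = Finsupp.single c (d i u) :=
        Finsupp.mapRange_single (hf := map_zero _)
      rw [AddMonoidHom.comp_apply, AddMonoidHom.comp_apply, e, q_single, q_single, hjd]
      exact ((d' i).map_smul _ _).symm
    exact DFunLike.congr_fun this w
  let πS : P 0 →ₗ[S] M :=
    { toFun := π, map_add' := π.map_add, map_smul' := fun s u => π.map_smulₛₗ s u }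
  -- the common last step: lift, correct, descend
  have last : ∀ i (y : P' (i + 1)) (β : C →₀ P (i + 1)), q R (j (i + 1)) β = y →
      (∃ γ : X →₀ (C →₀ P (i + 1)), Bf (d i).toAddMonoidHom β
        = J R x (Bf2 (d i).toAddMonoidHom γ)) → ∃ z, d' (i + 1) z = y := by
    rintro i y β hβ ⟨γ, hγ⟩
    have h1 : Bf (d i).toAddMonoidHom (β - J R x γ) = 0 := by
      rw [map_sub, hγ, Bf_J, sub_self]
    obtain ⟨β', hβ'⟩ := Bf_exact' (d (i + 1)).toAddMonoidHom (d i).toAddMonoidHom (hex i) _ h1
    refine ⟨q R (j (i + 1 + 1)) β', ?_⟩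
    rw [← qd, hβ', map_sub, q_J, sub_zero, hβ]
  constructor
  · intro i y hy
    obtain ⟨β, hβ⟩ := q_surj R (j (i + 1)) (hbc (i + 1)) y
    have h1 : q R (j i) (Bf (d i).toAddMonoidHom β) = 0 := by rw [qd, hβ, hy]
    obtain ⟨γ, hγ⟩ := ker_q R x (j i) ha hgen (hbc i) _ h1
    refine last i y β hβ ?_
    cases i with
    | zero =>
      have h2 : J R x (Bf2 πS.toAddMonoidHom γ) = 0 := by
        rw [← Bf_J, hγ]
        ext c
        exact hπd _
      have h3 := injM _ h2
      obtain ⟨γ', hγ'⟩ := Bf2_exact' (d 0).toAddMonoidHom πS.toAddMonoidHom hexπ γ h3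
      exact ⟨γ', by rw [hγ', hγ]⟩
    | succ i =>
      have h2 : J R x (Bf2 (d i).toAddMonoidHom γ) = 0 := by
        rw [← Bf_J, hγ]
        ext c
        exact hdd i _
      have h3 := injP i _ h2
      obtain ⟨γ', hγ'⟩ := Bf2_exact' (d (i + 1)).toAddMonoidHom (d i).toAddMonoidHom (hex i) γ h3
      exact ⟨γ', by rw [hγ', hγ]⟩
  · intro y hy
    obtain ⟨β, hβ⟩ := q_surj R (j 0) (hbc 0) y
    have h1 : (Bf πS.toAddMonoidHom β).sum (fun c u => R.cb c • u) = 0 := by
      rw [← hβ] at hy
      have e : ∀ w : C →₀ P 0, (Bf πS.toAddMonoidHom w).sum (fun c u => R.cb c • u)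
          = π' (q R (j 0) w) := by
        intro w
        have : (Finsupp.liftAddHom (fun c => DistribSMul.toAddMonoidHom M (R.cb c))).comp
            (Bf πS.toAddMonoidHom) = π'.toAddMonoidHom.comp (q R (j 0)) := by
          refine Finsupp.addHom_ext (fun c u => ?_)
          have e : Bf πS.toAddMonoidHom (Finsupp.single c u) = Finsupp.single c (π u) :=
            Finsupp.mapRange_single (hf := map_zero _)
          rw [AddMonoidHom.comp_apply, AddMonoidHom.comp_apply, e, q_single,
            Finsupp.liftAddHom_apply_single, ← hπ]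
          exact (π'.map_smul _ _).symm
        exact DFunLike.congr_fun this w
      rw [e, hy]
    obtain ⟨Γ, hΓ⟩ := ker_qM R x ha hgen hgen' hM _ h1
    have hz : ∀ Z : X →₀ (C →₀ M), ∃ Z' : X →₀ (C →₀ P 0), Bf2 πS.toAddMonoidHom Z' = Z := by
      intro Z
      obtain ⟨Z', hZ'⟩ := Bf2_exact' (U₃ := PUnit) πS.toAddMonoidHom 0
        (fun u _ => hsurj u) Z (by ext)
      exact ⟨Z', hZ'⟩
    obtain ⟨γ, hγ⟩ := hz Γ
    have h2 : Bf πS.toAddMonoidHom (β - J R x γ) = 0 := by
      rw [map_sub, Bf_J, hγ, hΓ, sub_self]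
    obtain ⟨β', hβ'⟩ := Bf_exact' (d 0).toAddMonoidHom πS.toAddMonoidHom hexπ _ h2
    refine ⟨q R (j (0 + 1)) β', ?_⟩
    rw [← qd, hβ', map_sub, q_J, sub_zero, hβ]

end Main

end Pool.Agent.H47.CD
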