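import Pool.Agent.H47.CD.Block
import Pool.Agent.H54.MN.Jinj

/-!
# helper47: from the tensor interface (bal)(ind)(Jinj) to block transport
-/

namespace Pool.Agent.H47.CD

open Module

section Bridge

variable {E E' S X : Type} [DivisionRing E] [DivisionRing E'] [Ring S] {ε : E →+* S}
  {φ : S →+* E'} {C : Type} (R : RBasis (φ.comp ε) C) (x : X → Sˣ) {A : Type} [AddCommGroup A]
  (t : E' →+ E' →+ A)

/-- `c ⊗ z ↦ t c z` -/
noncomputable def ta : (C →₀ E') →+ A := Finsupp.liftAddHom (fun c => t (R.cb c))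

theorem ta_single (c : C) (z : E') : ta R t (Finsupp.single c z) = t (R.cb c) z := by
  rw [ta, Finsupp.liftAddHom_apply_single]

theorem ta_eq (w : C →₀ E') : ta R t w = ∑ c ∈ w.support, t (R.cb c) (w c) := by
  conv_lhs => rw [← Finsupp.sum_single w, Finsupp.sum, map_sum]
  exact Finset.sum_congr rfl (fun c _ => ta_single R t c _)

theorem rep_sum (c : C → E) (s : Finset C) :
    ∀ c' ∈ s, R.rep (∑ k ∈ s, R.cb k * φ (ε (c k))) c' = c c' := by
  classical
  intro c' hc'
  rw [map_sum, Finsupp.finset_sum_apply, Finset.sum_eq_single c']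
  · have := R.rep_mul (R.cb c') (c c') c'
    rw [R.rep_cb, Finsupp.single_eq_same, one_mul] at this
    exact this
  · intro k _ hk
    have := R.rep_mul (R.cb k) (c k) c'
    rw [R.rep_cb, Finsupp.single_eq_of_ne hk.symm, zero_mul] at this
    exact this
  · exact fun h => absurd hc' h

theorem ta_inj (bal : ∀ b e z, t (b * φ (ε e)) z = t b (φ (ε e) * z))
    (ind : ∀ (ι : Type) (s : Finset ι) (y z : ι → E'),
      (∀ e : ι → E, ∑ i ∈ s, φ (ε (e i)) * z i = 0 → ∀ i ∈ s, e i = 0) →
      ∑ i ∈ s, t (y i) (z i) = 0 → ∀ i ∈ s, y i = 0)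
    (w : C →₀ E') (hw : ta R t w = 0) : w = 0 := by
  classical
  letI : Module E E' := Module.compHom E' (φ.comp ε)
  have hs : ∀ (e : E) (b : E'), e • b = φ (ε e) * b := fun _ _ => rfl
  let v := Basis.ofVectorSpace E E'
  -- all letters
  let s : Finset _ := w.support.biUnion (fun c => (v.repr (w c)).support)
  have hwc : ∀ c ∈ w.support, w c = ∑ l ∈ s, φ (ε (v.repr (w c) l)) * v l := by
    intro c hc
    conv_lhs => rw [← v.linearCombination_repr (w c)]
    rw [Finsupp.linearCombination_apply, Finsupp.sum]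
    refine Finset.sum_subset (Finset.subset_biUnion_of_mem
      (fun c => (v.repr (w c)).support) hc) (fun l _ hl => ?_)
    rw [Finsupp.notMem_support_iff.1 hl, zero_smul]
  have h1 : ∑ l ∈ s, t (∑ c ∈ w.support, R.cb c * φ (ε (v.repr (w c) l))) (v l) = 0 := by
    rw [ta_eq] at hw
    rw [← hw]
    have e1 : ∀ l ∈ s, t (∑ c ∈ w.support, R.cb c * φ (ε (v.repr (w c) l))) (v l)
        = ∑ c ∈ w.support, t (R.cb c) (φ (ε (v.repr (w c) l)) * v l) := by
      intro l _
      rw [map_sum, AddMonoidHom.finsetSum_apply]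
      exact Finset.sum_congr rfl (fun c _ => bal _ _ _)
    rw [Finset.sum_congr rfl e1, Finset.sum_comm]
    refine Finset.sum_congr rfl (fun c hc => ?_)
    conv_rhs => rw [hwc c hc, map_sum]
  have h2 := ind _ s (fun l => ∑ c ∈ w.support, R.cb c * φ (ε (v.repr (w c) l))) v (by
    intro e he l hl
    have hli := v.linearIndependent
    rw [linearIndependent_iff'] at hli
    exact hli s e he l hl) h1
  ext c
  by_cases hc : c ∈ w.support
  · rw [hwc c hc, Finsupp.zero_apply]
    refine Finset.sum_eq_zero (fun l hl => ?_)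
    have h3 := h2 l hl
    have h4 := rep_sum R (fun c => v.repr (w c) l) w.support c hc
    rw [h3, map_zero, Finsupp.zero_apply] at h4
    rw [← h4, map_zero, map_zero, zero_mul]
  · exact Finsupp.notMem_support_iff.1 hc

open Classical in
theorem injJ_of_tensor (bal : ∀ b e z, t (b * φ (ε e)) z = t b (φ (ε e) * z))
    (ind : ∀ (ι : Type) (s : Finset ι) (y z : ι → E'),
      (∀ e : ι → E, ∑ i ∈ s, φ (ε (e i)) * z i = 0 → ∀ i ∈ s, e i = 0) →
      ∑ i ∈ s, t (y i) (z i) = 0 → ∀ i ∈ s, y i = 0)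
    (jinj : ∀ (κ : Type) (s : Finset κ) (k : κ → X) (y z : κ → E'),
      ∑ i ∈ s, (t (y i * φ (x (k i))) (φ (↑(x (k i))⁻¹ : S) * z i) - t (y i) (z i)) = 0 →
      ∀ a, ∑ i ∈ s with k i = a, t (y i) (z i) = 0) :
    @InjJ E E' S X _ _ _ ε φ C R x E' _ (Module.compHom E' φ) := by
  letI iE : Module S E' := Module.compHom E' φ
  have hs : ∀ (s : S) (b : E'), s • b = φ s * b := fun _ _ => rfl
  intro W hW
  have hT : ∀ (b z : E'), ta R t (T R b z) = t b z := by
    intro b z
    have h1 : T R b z = (R.rep b).sum (fun c e => Finsupp.single c (ε e • z)) := by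
      rw [← Finsupp.sum_single (T R b z), T, Finsupp.sum_mapRange_index (by simp)]
    rw [h1, Finsupp.sum, map_sum]
    conv_rhs => rw [← R.sum_rep b, Finsupp.sum, map_sum, AddMonoidHom.finsetSum_apply]
    refine Finset.sum_congr rfl (fun c _ => ?_)
    rw [ta_single, hs]
    exact (bal _ _ _).symm
  -- the finite family
  let s : Finset (X × C) := W.support.biUnion (fun i => (W i).support.map ⟨fun c => (i, c),
    fun c c' h => (Prod.mk.inj h).2⟩)
  have hsum : ∀ (F : X × C → A), (∀ i c, W i c = 0 → F (i, c) = 0) →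
      ∑ p ∈ s, F p = ∑ i ∈ W.support, ∑ c ∈ (W i).support, F (i, c) := by
    intro F _
    rw [Finset.sum_biUnion]
    · refine Finset.sum_congr rfl (fun i _ => ?_)
      rw [Finset.sum_map]
      rfl
    · intro i _ i' _ hii
      rw [Function.onFun, Finset.disjoint_left]
      intro p hp hp'
      rw [Finset.mem_map] at hp hp'
      obtain ⟨c, _, rfl⟩ := hp
      obtain ⟨c', _, h⟩ := hp'
      exact hii (Prod.mk.inj h).1.symm
  have hal : ∀ i (w : C →₀ E'), ta R t (al R x i w)
      = ∑ c ∈ w.support, t (R.cb c * φ (x i)) (φ (↑(x i)⁻¹ : S) * w c) := by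
    intro i w
    conv_lhs => rw [← Finsupp.sum_single w, Finsupp.sum, map_sum, map_sum]
    refine Finset.sum_congr rfl (fun c _ => ?_)
    rw [al_single, hT, hs]
  have h0 : ∑ p ∈ s, (t (R.cb p.2 * φ (x p.1)) (φ (↑(x p.1)⁻¹ : S) * W p.1 p.2)
      - t (R.cb p.2) (W p.1 p.2)) = 0 := by
    rw [hsum _ (by
      intro i c hic
      simp only [hic]
      rw [mul_zero, map_zero, map_zero, sub_zero])]
    have h1 := congrArg (ta R t) hW
    rw [map_zero] at h1
    rw [← h1]
    conv_rhs => rw [← Finsupp.sum_single W, Finsupp.sum, map_sum, map_sum]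
    refine Finset.sum_congr rfl (fun i _ => ?_)
    rw [J_single, map_sub, hal, ta_eq, Finset.sum_sub_distrib]
  have h2 := jinj (X × C) s Prod.fst (fun p => R.cb p.2) (fun p => W p.1 p.2) h0
  ext1 i
  refine ta_inj R t bal ind _ ?_
  have h3 := h2 i
  rw [Finset.sum_filter, hsum _ (by
    intro i' c hic
    simp only [hic, map_zero, ite_self])] at h3
  by_cases hi : i ∈ W.support
  · rw [Finset.sum_eq_single i] at h3
    · simp only [if_true] at h3
      rw [ta_eq]
      exact h3
    · intro i' _ hne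
      exact Finset.sum_eq_zero (fun c _ => if_neg hne)
    · exact fun h => absurd hi h
  · rw [Finsupp.notMem_support_iff.1 hi, map_zero]

end Bridge

end Pool.Agent.H47.CD
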