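import Pool.Agent.H47.CD.Main
import Mathlib.GroupTheory.Index

/-!
# Finite kernels and finite index
-/

namespace Pool.Agent.H47.CD

universe u v w x

variable {G : Type u} [Group G] {A : Type v}

theorem exists_word (ev : A → G) (hgen : Submonoid.closure (Set.range ev) = ⊤) (g : G) :
    ∃ z : List A, value ev z = g := by
  have hg : g ∈ Submonoid.closure (Set.range ev) := by rw [hgen]; trivial
  induction hg using Submonoid.closure_induction with
  | mem x hx =>
    obtain ⟨a, rfl⟩ := hx
    exact ⟨[a], by simp [value]⟩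
  | one => exact ⟨[], rfl⟩
  | mul x y _ _ hx hy =>
    obtain ⟨u, rfl⟩ := hx
    obtain ⟨v, rfl⟩ := hy
    exact ⟨u ++ v, value_append ev u v⟩

theorem exists_bound (ev : A → G) (hgen : Submonoid.closure (Set.range ev) = ⊤) (S : Set G)
    (hS : S.Finite) : ∃ K : ℕ, ∀ g ∈ S, ∃ z : List A, z.length ≤ K ∧ value ev z = g := by
  choose z hz using exists_word ev hgen
  obtain ⟨K, hK⟩ := (hS.image (fun g => (z g).length)).bddAbove
  exact ⟨K, fun g hg => ⟨z g, hK ⟨g, hg, rfl⟩, hz g⟩⟩

theorem value_hom {Q : Type w} [Group Q] (φ : G →* Q) (ev : A → G) (z : List A) :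
    value (fun a => φ (ev a)) z = φ (value ev z) := by
  simp [value, map_list_prod, Function.comp_def]

theorem quotient [Finite A] {Q : Type w} [Group Q] (φ : G →* Q) (hker : Finite φ.ker)
    (ev : A → G) (hgen : Submonoid.closure (Set.range ev) = ⊤) (L : Language A)
    (h : IsAutomaticStructure (fun a => φ (ev a)) L) (hpre : PrefixClosed L)
    (huniq : Uniqueness (fun a => φ (ev a)) L) :
    ∃ T : Language A, (∀ w ∈ L, w ∈ T) ∧ IsAutomaticStructure ev T ∧ PrefixClosed T ∧
      Uniqueness ev T := by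
  have hFT : ∀ g, FT ev L g := by
    intro g
    obtain ⟨D, hD, hD'⟩ := FT_all (fun a => φ (ev a)) L h (φ g)
    refine ⟨φ ⁻¹' D, ?_, ?_⟩
    · refine hD.preimage' ?_
      intro b _
      by_cases hb : ∃ x, φ x = b
      · obtain ⟨x, rfl⟩ := hb
        have hk : Set.Finite (φ.ker : Set G) := hker
        refine (hk.image (fun n => x * n)).subset ?_
        intro y hy
        refine ⟨x⁻¹ * y, ?_, by simp⟩
        have hy' : φ y = φ x := hy
        change φ (x⁻¹ * y) = 1
        rw [map_mul, map_inv, hy', inv_mul_cancel]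
      · convert Set.finite_empty
        ext y
        simp only [Set.mem_preimage, Set.mem_singleton_iff, Set.mem_empty_iff_false, iff_false]
        exact fun hy => hb ⟨y, hy⟩
    · intro u hu v hv huv i
      have h1 := hD' u hu v hv (by rw [value_hom, value_hom, ← huv, map_mul]) i
      rw [value_hom, value_hom] at h1
      change φ _ ∈ D
      rw [map_mul, map_inv]
      exact h1
  have hinj : ∀ u ∈ L, ∀ v ∈ L, value ev u = value ev v → u = v := by
    intro u hu v hv huv
    refine (huniq (φ (value ev v))).unique ⟨hu, ?_⟩ ⟨hv, ?_⟩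
    · rw [value_hom, huv]
    · rw [value_hom]
  obtain ⟨K, hK⟩ := exists_bound ev hgen (φ.ker : Set G) hker
  obtain ⟨T, h1, h2, h3, h4, -⟩ := dense ev hgen L h.regular
    (fun g => regular_of_FT ev L h.regular g (hFT g)) hpre hinj K (by
      intro g
      obtain ⟨w, hw, hwg⟩ := h.onto (φ g)
      obtain ⟨z, hz, hz'⟩ := hK ((value ev w)⁻¹ * g) (by
        change φ _ = 1
        rw [map_mul, map_inv, ← value_hom, hwg, inv_mul_cancel])
      exact ⟨w, hw, z, hz, by rw [hz']; group⟩)
  exact ⟨T, h1, h2, h3, h4⟩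

theorem finite_index [Finite A] (H : Subgroup G) [hH : H.FiniteIndex] {B : Type w} (evB : B → H)
    (i : B → A) (ev : A → G) (hev : ∀ b, ev (i b) = (evB b : G))
    (hgen : Submonoid.closure (Set.range ev) = ⊤) (L : Language B)
    (h : IsAutomaticStructure evB L) (hpre : PrefixClosed L) (huniq : Uniqueness evB L) :
    ∃ T : Language A, (∀ w ∈ L, w.map i ∈ T) ∧ IsAutomaticStructure ev T ∧ PrefixClosed T ∧
      Uniqueness ev T := by
  have hval : ∀ w : List B, value ev (w.map i) = ((value evB w : H) : G) := by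
    intro w
    induction w with
    | nil => rfl
    | cons b w ih =>
      have e1 : value ev ((b :: w).map i) = ev (i b) * value ev (w.map i) := by
        simp [value]
      have e2 : value evB (b :: w) = evB b * value evB w := by
        simp [value]
      rw [e1, e2, hev, ih]
      rfl
  set M : Language A := {x | ∃ w ∈ L, w.map i = x} with hM
  have hMreg : M.IsRegular := isRegular_image i h.regular M (fun w => Iff.rfl)
  have hFT : ∀ g, FT ev M g := by
    intro g
    by_cases hg : g ∈ H
    · obtain ⟨D, hD, hD'⟩ := FT_all evB L h ⟨g, hg⟩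
      refine ⟨(fun x : H => (x : G)) '' D, hD.image _, ?_⟩
      rintro _ ⟨u, hu, rfl⟩ _ ⟨v, hv, rfl⟩ huv j
      rw [hval, hval] at huv
      have h1 := hD' u hu v hv (Subtype.ext huv) j
      rw [← List.map_take, ← List.map_take, hval, hval]
      exact ⟨_, h1, rfl⟩
    · refine ⟨∅, Set.finite_empty, ?_⟩
      rintro _ ⟨u, hu, rfl⟩ _ ⟨v, hv, rfl⟩ huv j
      exfalso
      rw [hval, hval] at huv
      apply hg
      have : g = ((value evB u)⁻¹ * value evB v : H) := by
        rw [Subgroup.coe_mul, Subgroup.coe_inv, ← huv]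
        group
      rw [this]
      exact SetLike.coe_mem _
  have hMinj : ∀ u ∈ M, ∀ v ∈ M, value ev u = value ev v → u = v := by
    rintro _ ⟨u, hu, rfl⟩ _ ⟨v, hv, rfl⟩ huv
    rw [hval, hval] at huv
    have := (huniq (value evB v)).unique ⟨hu, Subtype.ext huv⟩ ⟨hv, rfl⟩
    rw [this]
  have hMpre : PrefixClosed M := by
    rintro u _ ⟨w, hw, rfl⟩ hu
    refine ⟨w.take u.length, hpre _ w hw (List.take_prefix _ _), ?_⟩
    rw [List.map_take]
    exact (List.prefix_iff_eq_take.1 hu).symm
  have : Finite (G ⧸ H) := Subgroup.finite_quotient_of_finiteIndex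
  obtain ⟨K, hK⟩ := exists_bound ev hgen (Set.range (fun q : G ⧸ H => (q.out)⁻¹))
    (Set.finite_range _)
  obtain ⟨T, h1, h2, h3, h4, -⟩ := dense ev hgen M hMreg
    (fun g => regular_of_FT ev M hMreg g (hFT g)) hMpre hMinj K (by
      intro g
      obtain ⟨z, hz, hz'⟩ := hK _ ⟨(g⁻¹ : G), rfl⟩
      have hmem : g * ((g⁻¹ : G) : G ⧸ H).out ∈ H := by
        have h5 : (((g⁻¹ : G) : G ⧸ H).out : G ⧸ H) = ((g⁻¹ : G) : G ⧸ H) := Quotient.out_eq' _
        have h6 := QuotientGroup.eq.1 h5.symm
        simpa using h6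
      obtain ⟨w, hw, hwg⟩ := h.onto ⟨_, hmem⟩
      refine ⟨w.map i, ⟨w, hw, rfl⟩, z, hz, ?_⟩
      rw [hz', hval, hwg]
      simp)
  exact ⟨T, fun w hw => h1 _ ⟨w, hw, rfl⟩, h2, h3, h4⟩

end Pool.Agent.H47.CD
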