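import Pool.Agent.H47.CD.Tool

/-!
# From coarsely dense to onto

Main construction for `MP_7de2ad_al.CoarseTrees`.
-/

namespace Pool.Agent.H47.CD

universe u v w

/-! ### Further closure properties of regular languages -/

theorem isRegular_bool {α : Type u} {ι : Type v} [Finite ι] (Ls : ι → Language α)
    (h : ∀ i, (Ls i).IsRegular) (f : (ι → Prop) → Prop) (L : Language α)
    (hL : ∀ w, w ∈ L ↔ f (fun i => w ∈ Ls i)) : L.IsRegular := by
  classical
  choose σ hσ step s0 acc hacc using fun i => exists_fold (h i)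
  have : ∀ i, Finite (σ i) := hσ
  refine isRegular_of_fold (σ := ∀ i, σ i) (fun s a i => step i (s i) a) s0
    {s | f (fun i => s i ∈ acc i)} L ?_
  intro w
  rw [hL]
  have key : ∀ (w : List α) (s : ∀ i, σ i) (i : ι),
      (w.foldl (fun s a i => step i (s i) a) s) i = w.foldl (step i) (s i) := by
    intro w
    induction w with
    | nil => intro s i; rfl
    | cons a w ih => intro s i; simp only [List.foldl_cons]; rw [ih]
  have h2 : (fun i => w ∈ Ls i) =
      fun i => (w.foldl (fun (s : ∀ i, σ i) a i => step i (s i) a) s0) i ∈ acc i := by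
    funext i
    rw [key]
    exact propext (hacc i w)
  rw [h2]
  exact Iff.rfl

theorem isRegular_erase {α : Type u} {β : Type v} (f : β → Option α) {M : Language β}
    (h : M.IsRegular) (L : Language α) (hL : ∀ w, w ∈ L ↔ ∃ x ∈ M, x.filterMap f = w) :
    L.IsRegular := by
  classical
  obtain ⟨σ, hσ, step, s0, acc, hacc⟩ := exists_fold h
  refine isRegular_of_fold (σ := Set σ)
    (fun S b => {t | ∃ s ∈ S, ∃ x : List β, x.filterMap f = [b] ∧ t = x.foldl step s})
    {t | ∃ x : List β, x.filterMap f = [] ∧ t = x.foldl step s0} {S | ∃ s ∈ S, s ∈ acc} L ?_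
  intro w
  have key : ∀ w : List α,
      w.foldl (fun S b => {t | ∃ s ∈ S, ∃ x : List β, x.filterMap f = [b] ∧ t = x.foldl step s})
        {t | ∃ x : List β, x.filterMap f = [] ∧ t = x.foldl step s0} =
      {t | ∃ x : List β, x.filterMap f = w ∧ t = x.foldl step s0} := by
    intro w
    induction w using List.reverseRecOn with
    | nil => rfl
    | append_singleton w b ih =>
      rw [List.foldl_append, ih]
      ext t
      constructor
      · rintro ⟨s, ⟨y, hy, rfl⟩, x, hx, rfl⟩
        exact ⟨y ++ x, by rw [List.filterMap_append, hy, hx], by rw [List.foldl_append]⟩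
      · rintro ⟨z, hz, rfl⟩
        obtain ⟨y, x, rfl, hy, hx⟩ := List.filterMap_eq_append_iff.1 hz
        exact ⟨y.foldl step s0, ⟨y, hy, rfl⟩, x, hx, by rw [List.foldl_append]⟩
  rw [hL, key]
  constructor
  · rintro ⟨x, hx, hxw⟩
    exact ⟨_, ⟨x, hxw, rfl⟩, (hacc x).1 hx⟩
  · rintro ⟨t, ⟨x, hxw, rfl⟩, ht⟩
    exact ⟨x, (hacc x).2 ht, hxw⟩

theorem isRegular_snoc {α : Type u} {M : Language α} (h : M.IsRegular) (a : α) (L : Language α)
    (hL : ∀ w, w ∈ L ↔ ∃ x ∈ M, w = x ++ [a]) : L.IsRegular := by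
  classical
  obtain ⟨σ, hσ, step, s0, acc, hacc⟩ := exists_fold h
  refine isRegular_of_fold (σ := σ × Prop)
    (fun s b => (step s.1 b, s.1 ∈ acc ∧ b = a)) (s0, False) {s | s.2} L ?_
  intro w
  have key : ∀ (w : List α) (s : σ × Prop),
      (w.foldl (fun (s : σ × Prop) b => (step s.1 b, s.1 ∈ acc ∧ b = a)) s).1 =
        w.foldl step s.1 := by
    intro w
    induction w with
    | nil => intro s; rfl
    | cons b w ih => intro s; simp only [List.foldl_cons]; rw [ih]
  rw [hL]
  rcases w.eq_nil_or_concat with rfl | ⟨v, b, rfl⟩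
  · constructor
    · rintro ⟨x, -, hx⟩
      simp at hx
    · intro h
      exact h.elim
  · rw [List.concat_eq_append, List.foldl_append]
    change _ ↔ ((v.foldl (fun (s : σ × Prop) b => (step s.1 b, s.1 ∈ acc ∧ b = a))
      (s0, False)).1 ∈ acc ∧ b = a)
    rw [key, ← hacc]
    constructor
    · rintro ⟨x, hx, hxv⟩
      obtain ⟨rfl, hab⟩ := List.append_inj' hxv rfl
      exact ⟨hx, by simpa using hab⟩
    · rintro ⟨hv, rfl⟩
      exact ⟨v, hv, rfl⟩

variable {G : Type u} [Group G] {A : Type v}

/-- predicates on the group that are recognised along `L`, together with all translates -/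
def Reg (ev : A → G) (L : Language A) (P : G → Prop) : Prop :=
  ∀ h : G, Language.IsRegular (T := A) {w | w ∈ L ∧ P (value ev w * h)}

theorem Reg.shift {ev : A → G} {L : Language A} {P : G → Prop} (h : Reg ev L P) (k : G) :
    Reg ev L (fun g => P (g * k)) := by
  intro m
  have := h (m * k)
  simpa only [mul_assoc] using this

theorem Reg.bool {ev : A → G} {L : Language A} (hL : L.IsRegular) {ι : Type w} [Finite ι]
    (Ps : ι → G → Prop) (h : ∀ i, Reg ev L (Ps i)) (f : (ι → Prop) → Prop) :
    Reg ev L (fun g => f (fun i => Ps i g)) := by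
  intro m
  refine isRegular_bool (ι := Option ι)
    (fun i => match i with | none => L | some i => {w | w ∈ L ∧ Ps i (value ev w * m)}) ?_
    (fun p => p none ∧ f (fun i => p (some i))) _ ?_
  · rintro (_ | i)
    · exact hL
    · exact h i m
  · intro w
    change (w ∈ L ∧ _) ↔ (w ∈ L ∧ f (fun i => w ∈ L ∧ Ps i (value ev w * m)))
    constructor
    · rintro ⟨h1, h2⟩
      refine ⟨h1, ?_⟩
      simpa only [h1, true_and] using h2
    · rintro ⟨h1, h2⟩
      refine ⟨h1, ?_⟩
      simpa only [h1, true_and] using h2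

/-- the elements represented by words of `L` -/
def Im (ev : A → G) (L : Language A) (g : G) : Prop := ∃ v ∈ L, value ev v = g

theorem Reg_Im (ev : A → G) (L : Language A) (hm : ∀ g, (multiplier ev L g).IsRegular) :
    Reg ev L (Im ev L) := by
  intro h
  refine isRegular_erase Prod.fst (hm h) _ ?_
  intro w
  constructor
  · rintro ⟨hw, v, hv, hvw⟩
    exact ⟨padPair w v, ⟨w, hw, v, hv, hvw.symm, rfl⟩, fst_padPair w v⟩
  · rintro ⟨x, ⟨u, hu, v, hv, huv, rfl⟩, hx⟩
    rw [show List.zipWithAll Prod.mk u v = padPair u v from rfl, fst_padPair] at hx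
    subst hx
    exact ⟨hu, v, hv, huv.symm⟩

/-- `g` can be reached from an element represented by `L` with at most `j` letters -/
def Near (ev : A → G) (L : Language A) (j : ℕ) (g : G) : Prop :=
  ∃ z : List A, z.length ≤ j ∧ Im ev L (g * (value ev z)⁻¹)

theorem Near.mono {ev : A → G} {L : Language A} {i j : ℕ} (h : i ≤ j) {g : G}
    (hg : Near ev L i g) : Near ev L j g := by
  obtain ⟨z, hz, hz'⟩ := hg
  exact ⟨z, hz.trans h, hz'⟩

theorem Near.step {ev : A → G} {L : Language A} {j : ℕ} {g : G} {a : A}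
    (hg : Near ev L j (g * (ev a)⁻¹)) : Near ev L (j + 1) g := by
  obtain ⟨z, hz, hz'⟩ := hg
  refine ⟨z ++ [a], by simpa using hz, ?_⟩
  have : g * (value ev (z ++ [a]))⁻¹ = g * (ev a)⁻¹ * (value ev z)⁻¹ := by
    rw [value_append]
    simp [value, mul_assoc]
  rw [this]
  exact hz'

theorem Near.zero {ev : A → G} {L : Language A} {g : G} : Near ev L 0 g ↔ Im ev L g := by
  constructor
  · rintro ⟨z, hz, hz'⟩
    have : z = [] := by simpa using hz
    subst this
    simpa using hz'
  · intro h
    exact ⟨[], by simp, by simpa using h⟩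

theorem Reg_Near [Finite A] (ev : A → G) (L : Language A) (hL : L.IsRegular)
    (hm : ∀ g, (multiplier ev L g).IsRegular) (j : ℕ) : Reg ev L (Near ev L j) := by
  have : Finite {z : List A // z.length ≤ j} := List.finite_length_le A j
  have h1 := Reg.bool (ev := ev) hL (ι := {z : List A // z.length ≤ j})
    (fun z g => Im ev L (g * (value ev z.1)⁻¹)) (fun z => (Reg_Im ev L hm).shift _)
    (fun p => ∃ i, p i)
  have h2 : Near ev L j = fun g => ∃ i : {z : List A // z.length ≤ j},
      Im ev L (g * (value ev i.1)⁻¹) := by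
    funext g
    apply propext
    constructor
    · rintro ⟨z, hz, hz'⟩
      exact ⟨⟨z, hz⟩, hz'⟩
    · rintro ⟨⟨z, hz⟩, hz'⟩
      exact ⟨z, hz, hz'⟩
  rw [h2]
  exact h1

/-- the letter `a` is the parent direction of `g`, an element at distance exactly `j + 1` -/
def Par (ev : A → G) (L : Language A) (f : A → ℕ) (a : A) (j : ℕ) (g : G) : Prop :=
  ¬ Near ev L j g ∧ Near ev L j (g * (ev a)⁻¹) ∧
    ∀ b, f b < f a → ¬ Near ev L j (g * (ev b)⁻¹)

theorem Reg_Par [Finite A] (ev : A → G) (L : Language A) (hL : L.IsRegular)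
    (hm : ∀ g, (multiplier ev L g).IsRegular) (f : A → ℕ) (a : A) (j : ℕ) :
    Reg ev L (Par ev L f a j) := by
  have h1 := Reg.bool (ev := ev) hL (ι := Option A)
    (fun z g => match z with
      | none => Near ev L j g
      | some b => Near ev L j (g * (ev b)⁻¹))
    (by
      rintro (_ | b)
      · exact Reg_Near ev L hL hm j
      · exact (Reg_Near ev L hL hm j).shift _)
    (fun p => ¬ p none ∧ p (some a) ∧ ∀ b, f b < f a → ¬ p (some b))
  exact h1

theorem exists_Par (ev : A → G) (L : Language A) (f : A → ℕ) (j : ℕ) (g : G)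
    (h1 : Near ev L (j + 1) g) (h2 : ¬ Near ev L j g) : ∃ a, Par ev L f a j g := by
  classical
  have hex : ∃ n : ℕ, ∃ a, f a = n ∧ Near ev L j (g * (ev a)⁻¹) := by
    obtain ⟨z, hz, hz'⟩ := h1
    rcases z.eq_nil_or_concat with rfl | ⟨v, b, rfl⟩
    · exact absurd ⟨[], by simp, hz'⟩ h2
    · refine ⟨f b, b, rfl, v, by simpa using hz, ?_⟩
      have : g * (value ev (v ++ [b]))⁻¹ = g * (ev b)⁻¹ * (value ev v)⁻¹ := by
        rw [value_append]
        simp [value, mul_assoc]
      rw [← this, ← List.concat_eq_append]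
      exact hz'
  obtain ⟨a, ha, ha'⟩ := Nat.find_spec hex
  refine ⟨a, h2, ha', ?_⟩
  intro b hb hb'
  rw [ha] at hb
  exact Nat.find_min hex hb ⟨b, rfl, hb'⟩

theorem Par_unique (ev : A → G) (L : Language A) (f : A → ℕ) (hf : Function.Injective f) (j : ℕ)
    (g : G) (a b : A) (ha : Par ev L f a j g) (hb : Par ev L f b j g) : a = b := by
  apply hf
  rcases lt_trichotomy (f a) (f b) with h | h | h
  · exact absurd ha.2.1 (hb.2.2 a h)
  · exact h
  · exact absurd hb.2.1 (ha.2.2 b h)

/-- the words of `L`, prolonged by `j` letters along parent directions -/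
inductive Ext (ev : A → G) (L : Language A) (f : A → ℕ) : ℕ → List A → Prop
  | base (w : List A) : w ∈ L → Ext ev L f 0 w
  | step (j : ℕ) (w : List A) (a : A) : Ext ev L f j w → Par ev L f a j (value ev w * ev a) →
      Ext ev L f (j + 1) (w ++ [a])

theorem Ext.zero_iff {ev : A → G} {L : Language A} {f : A → ℕ} {w : List A} :
    Ext ev L f 0 w ↔ w ∈ L :=
  ⟨fun h => by cases h; assumption, fun h => Ext.base w h⟩

theorem Ext.succ_iff {ev : A → G} {L : Language A} {f : A → ℕ} {j : ℕ} {v : List A} :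
    Ext ev L f (j + 1) v ↔ ∃ a w, v = w ++ [a] ∧ Ext ev L f j w ∧
      Par ev L f a j (value ev w * ev a) := by
  constructor
  · intro h
    cases h with
    | step _ w a h1 h2 => exact ⟨a, w, rfl, h1, h2⟩
  · rintro ⟨a, w, rfl, h1, h2⟩
    exact Ext.step j w a h1 h2

theorem value_snoc (ev : A → G) (w : List A) (a : A) :
    value ev (w ++ [a]) = value ev w * ev a := by
  rw [value_append]
  simp [value]

theorem Ext.near {ev : A → G} {L : Language A} {f : A → ℕ} {j : ℕ} {w : List A}
    (h : Ext ev L f j w) : Near ev L j (value ev w) := by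
  cases h with
  | base w hw => exact Near.zero.2 ⟨w, hw, rfl⟩
  | step j w a h1 h2 =>
    rw [value_snoc]
    exact h2.2.1.step

theorem Ext.not_near {ev : A → G} {L : Language A} {f : A → ℕ} {j : ℕ} {w : List A}
    (h : Ext ev L f (j + 1) w) : ¬ Near ev L j (value ev w) := by
  obtain ⟨a, w, rfl, -, h2⟩ := Ext.succ_iff.1 h
  rw [value_snoc]
  exact h2.1

theorem Ext.level {ev : A → G} {L : Language A} {f : A → ℕ} {i j : ℕ} {u w : List A}
    (h : Ext ev L f i u) (h' : Ext ev L f j w) (huw : value ev u = value ev w) : i = j := by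
  have aux : ∀ {i j : ℕ} {u w : List A}, Ext ev L f i u → Ext ev L f j w →
      value ev u = value ev w → ¬ i < j := by
    intro i j u w h h' huw hij
    obtain ⟨k, rfl⟩ : ∃ k, j = k + 1 := ⟨j - 1, by omega⟩
    apply h'.not_near
    rw [← huw]
    exact h.near.mono (by omega)
  have h1 := aux h h' huw
  have h2 := aux h' h huw.symm
  omega

theorem Ext.unique {ev : A → G} {L : Language A} {f : A → ℕ} (hf : Function.Injective f)
    (hinj : ∀ u ∈ L, ∀ v ∈ L, value ev u = value ev v → u = v) (j : ℕ) :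
    ∀ u w : List A, Ext ev L f j u → Ext ev L f j w → value ev u = value ev w → u = w := by
  induction j with
  | zero =>
    intro u w hu hw huw
    exact hinj u (Ext.zero_iff.1 hu) w (Ext.zero_iff.1 hw) huw
  | succ j ih =>
    intro u w hu hw huw
    obtain ⟨a, u, rfl, hu1, hu2⟩ := Ext.succ_iff.1 hu
    obtain ⟨b, w, rfl, hw1, hw2⟩ := Ext.succ_iff.1 hw
    rw [value_snoc, value_snoc] at huw
    rw [← huw] at hw2
    have hab := Par_unique ev L f hf j _ a b hu2 hw2
    subst hab
    have := ih u w hu1 hw1 (mul_right_cancel huw)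
    rw [this]

theorem Ext.exists {ev : A → G} {L : Language A} {f : A → ℕ} (j : ℕ) :
    ∀ g : G, Near ev L j g → ∃ i ≤ j, ∃ w, Ext ev L f i w ∧ value ev w = g := by
  induction j with
  | zero =>
    intro g hg
    obtain ⟨w, hw, hwg⟩ := Near.zero.1 hg
    exact ⟨0, le_rfl, w, Ext.base w hw, hwg⟩
  | succ j ih =>
    intro g hg
    by_cases h : Near ev L j g
    · obtain ⟨i, hi, w, hw⟩ := ih g h
      exact ⟨i, by omega, w, hw⟩
    · obtain ⟨a, ha⟩ := exists_Par ev L f j g hg h
      obtain ⟨i, hi, w, hw, hwg⟩ := ih _ ha.2.1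
      have hij : i = j := by
        by_contra hne
        apply h
        have h1 : Near ev L i (g * (ev a)⁻¹) := hwg ▸ hw.near
        exact h1.step.mono (by omega)
      subst hij
      refine ⟨i + 1, le_rfl, w ++ [a], Ext.step i w a hw ?_, ?_⟩
      · rw [hwg]
        simpa using ha
      · rw [value_snoc, hwg]
        simp

theorem Ext.initial {ev : A → G} {L : Language A} {f : A → ℕ} (hpre : PrefixClosed L) {j : ℕ}
    {v : List A} (h : Ext ev L f j v) : ∀ u : List A, u <+: v → ∃ i ≤ j, Ext ev L f i u := by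
  induction h with
  | base w hw =>
    intro u hu
    exact ⟨0, le_rfl, Ext.base u (hpre u w hw hu)⟩
  | step j w a h1 h2 ih =>
    intro u hu
    rcases List.prefix_concat_iff.1 hu with h3 | h3
    · subst h3
      exact ⟨j + 1, le_rfl, Ext.step j w a h1 h2⟩
    · obtain ⟨i, hi, hu'⟩ := ih u h3
      exact ⟨i, by omega, hu'⟩

theorem Ext.decomp {ev : A → G} {L : Language A} {f : A → ℕ} {j : ℕ}
    {v : List A} (h : Ext ev L f j v) : ∃ w ∈ L, ∃ z : List A, z.length ≤ j ∧ v = w ++ z := by
  induction h with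
  | base w hw => exact ⟨w, hw, [], by simp, by simp⟩
  | step j w a h1 h2 ih =>
    obtain ⟨x, hx, z, hz, rfl⟩ := ih
    exact ⟨x, hx, z ++ [a], by simpa using hz, by simp⟩

theorem Reg_Ext [Finite A] (ev : A → G) (L : Language A) (hL : L.IsRegular)
    (hm : ∀ g, (multiplier ev L g).IsRegular) (f : A → ℕ) (j : ℕ) :
    ∀ P : G → Prop, Reg ev L P → Reg ev ({w | Ext ev L f j w} : Language A) P := by
  induction j with
  | zero =>
    intro P hP
    have : ({w | Ext ev L f 0 w} : Language A) = L := by
      ext w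
      exact Ext.zero_iff
    rw [this]
    exact hP
  | succ j ih =>
    intro P hP h
    -- the words with a given last letter
    refine isRegular_bool (ι := A)
      (fun a => {v | ∃ w, Ext ev L f j w ∧ Par ev L f a j (value ev w * ev a) ∧
        P (value ev w * (ev a * h)) ∧ v = w ++ [a]}) ?_ (fun p => ∃ a, p a) _ ?_
    · intro a
      have hboth : Reg ev L (fun g => Par ev L f a j g ∧ P (g * h)) := by
        have := Reg.bool (ev := ev) hL (ι := Bool)
          (fun b g => match b with
            | true => Par ev L f a j g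
            | false => P (g * h))
          (by
            rintro (_ | _)
            · exact hP.shift h
            · exact Reg_Par ev L hL hm f a j)
          (fun p => p true ∧ p false)
        exact this
      have h2 := ih _ hboth (ev a)
      refine isRegular_snoc h2 a _ ?_
      intro v
      constructor
      · rintro ⟨w, hw1, hw2, hw3, rfl⟩
        exact ⟨w, ⟨hw1, hw2, by rw [mul_assoc]; exact hw3⟩, rfl⟩
      · rintro ⟨w, ⟨hw1, hw2, hw3⟩, rfl⟩
        exact ⟨w, hw1, hw2, by rw [← mul_assoc]; exact hw3, rfl⟩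
    · intro v
      constructor
      · rintro ⟨hv, hP'⟩
        obtain ⟨a, w, rfl, h1, h2⟩ := Ext.succ_iff.1 hv
        refine ⟨a, w, h1, h2, ?_, rfl⟩
        rw [value_snoc, mul_assoc] at hP'
        exact hP'
      · rintro ⟨a, w, h1, h2, h3, rfl⟩
        refine ⟨Ext.step j w a h1 h2, ?_⟩
        rw [value_snoc, mul_assoc]
        exact h3

/-- Main construction. -/
theorem dense [Finite A] (ev : A → G) (hgen : Submonoid.closure (Set.range ev) = ⊤)
    (L : Language A) (hL : L.IsRegular) (hm : ∀ g, (multiplier ev L g).IsRegular)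
    (hpre : PrefixClosed L) (hinj : ∀ u ∈ L, ∀ v ∈ L, value ev u = value ev v → u = v)
    (K : ℕ) (hK : ∀ g : G, ∃ w ∈ L, ∃ z : List A, z.length ≤ K ∧ value ev w * value ev z = g) :
    ∃ T : Language A, (∀ w ∈ L, w ∈ T) ∧ IsAutomaticStructure ev T ∧ PrefixClosed T ∧
      Uniqueness ev T ∧ ∀ v ∈ T, ∃ w ∈ L, ∃ z : List A, z.length ≤ K ∧ v = w ++ z := by
  classical
  obtain ⟨n, ⟨e⟩⟩ := Finite.exists_equiv_fin A
  set f : A → ℕ := fun a => (e a : ℕ) with hfdef
  have hf : Function.Injective f := fun a b hab => e.injective (Fin.ext hab)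
  set T : Language A := {w | ∃ j ≤ K, Ext ev L f j w} with hT
  have honto : ∀ g : G, ∃ w ∈ T, value ev w = g := by
    intro g
    have hg : Near ev L K g := by
      obtain ⟨w, hw, z, hz, hwz⟩ := hK g
      refine ⟨z, hz, w, hw, ?_⟩
      rw [← hwz]
      group
    obtain ⟨i, hi, w, hw, hwg⟩ := Ext.exists (f := f) K g hg
    exact ⟨w, ⟨i, hi, hw⟩, hwg⟩
  have hTreg : T.IsRegular := by
    refine isRegular_bool (ι := Fin (K + 1)) (fun j => {w | Ext ev L f j w}) ?_
      (fun p => ∃ i, p i) T ?_
    · intro j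
      have h1 : Reg ev L (fun _ => True) := by
        intro h
        have h0 : ({w | w ∈ L ∧ True} : Language A) = L := by
          ext w
          exact and_iff_left trivial
        exact h0.symm ▸ hL
      have h2 := Reg_Ext ev L hL hm f j _ h1 1
      have h3 : ({w | w ∈ ({w | Ext ev L f j w} : Language A) ∧ True} : Language A) =
          {w | Ext ev L f j w} := by
        ext w
        exact and_iff_left trivial
      exact h3 ▸ h2
    · intro w
      constructor
      · rintro ⟨j, hj, hw⟩
        exact ⟨⟨j, by omega⟩, hw⟩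
      · rintro ⟨j, hw⟩
        exact ⟨j, by omega, hw⟩
  have hdec : ∀ v ∈ T, ∃ w ∈ L, ∃ z : List A, z.length ≤ K ∧ v = w ++ z := by
    rintro v ⟨j, hj, hv⟩
    obtain ⟨w, hw, z, hz, hvw⟩ := hv.decomp
    exact ⟨w, hw, z, hz.trans hj, hvw⟩
  have hFT : ∀ g, FT ev T g := by
    intro g
    -- finitely many tails
    have hfin : Set.Finite {z : List A | z.length ≤ K} := List.finite_length_le A K
    have hLFT : ∀ h, FT ev L h := fun h => FT_of_regular ev L h (hm h)
    choose D hD hD' using hLFT
    set Z : Set G := (value ev) '' {z : List A | z.length ≤ K} with hZ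
    have hZfin : Z.Finite := hfin.image _
    set E : Set G := ⋃ p ∈ Set.image2 (fun x y => x * g * y⁻¹) Z Z, D p with hE
    have hEfin : E.Finite := (hZfin.image2 _ hZfin).biUnion (fun p _ => hD p)
    refine ⟨Set.image2 (fun x y => x * y) (Set.image2 (fun x y => x⁻¹ * y) Z E) Z,
      (hZfin.image2 _ hEfin).image2 _ hZfin, ?_⟩
    intro u hu v hv huv i
    obtain ⟨w, hw, z, hz, rfl⟩ := hdec u hu
    obtain ⟨w', hw', z', hz', rfl⟩ := hdec v hv
    have h1 : value ev w * (value ev z * g * (value ev z')⁻¹) = value ev w' := by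
      rw [value_append, value_append] at huv
      rw [← mul_assoc, ← mul_assoc, huv]
      group
    have h2 := hD' _ w hw w' hw' h1 i
    rw [List.take_append, List.take_append, value_append, value_append]
    refine ⟨(value ev (z.take (i - w.length)))⁻¹ * ((value ev (w.take i))⁻¹ *
      value ev (w'.take i)), ⟨_, ⟨z.take (i - w.length), ?_, rfl⟩, _, ?_, rfl⟩,
      value ev (z'.take (i - w'.length)), ⟨z'.take (i - w'.length), ?_, rfl⟩, ?_⟩
    · exact (List.length_take_le' _ _).trans hz
    · exact Set.mem_biUnion ⟨_, ⟨z, hz, rfl⟩, _, ⟨z', hz', rfl⟩, rfl⟩ h2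
    · exact (List.length_take_le' _ _).trans hz'
    · simp only
      group
  refine ⟨T, ?_, automatic_of_FT ev T hgen hTreg honto hFT, ?_, ?_, hdec⟩
  · intro w hw
    exact ⟨0, Nat.zero_le _, Ext.base w hw⟩
  · rintro u v ⟨j, hj, hv⟩ huv
    obtain ⟨i, hi, hu⟩ := hv.initial hpre u huv
    exact ⟨i, hi.trans hj, hu⟩
  · intro g
    obtain ⟨w, hw, hwg⟩ := honto g
    refine ⟨w, ⟨hw, hwg⟩, ?_⟩
    rintro v ⟨⟨j, hj, hv⟩, hvg⟩
    obtain ⟨i, hi, hw⟩ := hw
    have h1 : value ev v = value ev w := hvg.trans hwg.symm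
    have h2 := hv.level hw h1
    subst h2
    exact Ext.unique hf hinj j v w hv hw h1

end Pool.Agent.H47.CD
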