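import Pool.Agent.H47.CD.Main
import Mathlib.Data.List.Shortlex

/-!
# Path languages

From a language of all paths (from 1) in a set of edges of the Cayley graph to a language of
least paths; then `dense` applies.
-/

namespace Pool.Agent.H47.CD

universe u v w

variable {G : Type u} [Group G] {A : Type v}

theorem lex_snoc (r : A → A → Prop) (u v : List A) (a : A) (h : u.length = v.length)
    (hlex : List.Lex r u v) : List.Lex r (u ++ [a]) (v ++ [a]) := by
  induction u generalizing v with
  | nil =>
    cases v with
    | nil => cases hlex
    | cons b v => simp at h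
  | cons c u ih =>
    cases v with
    | nil => simp at h
    | cons b v =>
      cases hlex with
      | cons h1 => exact List.Lex.cons (ih v (by simpa using h) h1)
      | rel h1 => exact List.Lex.rel h1

/-- states of the automaton comparing two words in the shortlex order -/
inductive Cmp
  | eq | lt | gt | sh | lo

instance : Finite Cmp := by
  refine Finite.of_injective (β := Fin 5) (fun m => match m with
    | .eq => 0 | .lt => 1 | .gt => 2 | .sh => 3 | .lo => 4) ?_
  intro a b
  cases a <;> cases b <;> simp

/-- step of the automaton comparing two words in the shortlex order -/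
def cmpStep (f : A → ℕ) (c : Cmp) (p : Option A × Option A) : Cmp :=
  match p.1, p.2 with
  | some a, some b => match c with
    | .eq => if f b < f a then .lt else if f a < f b then .gt else .eq
    | c => c
  | some _, none => .sh
  | none, some _ => .lo
  | none, none => c

theorem cmp_sh (f : A → ℕ) (u : List A) :
    (u.map fun a => ((some a, none) : Option A × Option A)).foldl (cmpStep f) .sh = .sh := by
  induction u with
  | nil => rfl
  | cons a u ih => simpa [cmpStep] using ih

theorem cmp_lo (f : A → ℕ) (u : List A) :
    (u.map fun a => ((none, some a) : Option A × Option A)).foldl (cmpStep f) .lo = .lo := by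
  induction u with
  | nil => rfl
  | cons a u ih => simpa [cmpStep] using ih

theorem cmp_left (f : A → ℕ) (a : A) (u : List A) (c : Cmp) :
    (padPair (a :: u) []).foldl (cmpStep f) c = .sh := by
  have := cmp_sh f u
  simpa [padPair, cmpStep] using this

theorem cmp_right (f : A → ℕ) (a : A) (u : List A) (c : Cmp) :
    (padPair [] (a :: u)).foldl (cmpStep f) c = .lo := by
  have := cmp_lo f u
  simpa [padPair, cmpStep] using this

theorem cmp_lt (f : A → ℕ) (u v : List A) :
    ((padPair u v).foldl (cmpStep f) .lt = .lt ∨ (padPair u v).foldl (cmpStep f) .lt = .sh) ↔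
      v.length ≤ u.length := by
  induction u generalizing v with
  | nil =>
    cases v with
    | nil => simp [padPair]
    | cons b v => rw [cmp_right]; simp
  | cons a u ih =>
    cases v with
    | nil => rw [cmp_left]; simp
    | cons b v => simpa [padPair, cmpStep] using ih v

theorem cmp_gt (f : A → ℕ) (u v : List A) :
    ((padPair u v).foldl (cmpStep f) .gt = .lt ∨ (padPair u v).foldl (cmpStep f) .gt = .sh) ↔
      v.length < u.length := by
  induction u generalizing v with
  | nil =>
    cases v with
    | nil => simp [padPair]
    | cons b v => rw [cmp_right]; simp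
  | cons a u ih =>
    cases v with
    | nil => rw [cmp_left]; simp
    | cons b v => simpa [padPair, cmpStep] using ih v

theorem cmp_eq (f : A → ℕ) (hf : Function.Injective f) (u v : List A) :
    ((padPair u v).foldl (cmpStep f) .eq = .lt ∨ (padPair u v).foldl (cmpStep f) .eq = .sh) ↔
      List.Shortlex (fun a b => f a < f b) v u := by
  induction u generalizing v with
  | nil =>
    cases v with
    | nil => simp [padPair]
    | cons b v => rw [cmp_right]; simp
  | cons a u ih =>
    cases v with
    | nil => 
      simp only [cmp_left, reduceCtorEq, or_true, true_iff]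
      exact List.Shortlex.of_length_lt (by simp)
    | cons b v =>
      rcases lt_trichotomy (f b) (f a) with h | h | h
      · have h1 : (padPair (a :: u) (b :: v)).foldl (cmpStep f) .eq =
            (padPair u v).foldl (cmpStep f) .lt := by
          simp [padPair, cmpStep, h]
        rw [h1, cmp_lt, List.shortlex_def]
        constructor
        · intro h2
          rcases Nat.lt_or_ge v.length u.length with h3 | h3
          · left; simpa using h3
          · right
            refine ⟨by simp; omega, ?_⟩
            exact List.Lex.rel h
        · rintro (h2 | ⟨h2, -⟩)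
          · simp at h2; omega
          · simp at h2; omega
      · have hab : b = a := hf h
        subst hab
        have h1 : (padPair (b :: u) (b :: v)).foldl (cmpStep f) .eq =
            (padPair u v).foldl (cmpStep f) .eq := by
          simp [padPair, cmpStep]
        have : Std.Irrefl (fun a b : A => f a < f b) := ⟨fun a => lt_irrefl _⟩
        rw [h1, ih, List.shortlex_cons_iff]
      · have h1 : (padPair (a :: u) (b :: v)).foldl (cmpStep f) .eq =
            (padPair u v).foldl (cmpStep f) .gt := by
          simp [padPair, cmpStep, h, not_lt.2 h.le]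
        rw [h1, cmp_gt, List.shortlex_def]
        constructor
        · intro h2
          left; simpa using h2
        · rintro (h2 | ⟨h2, h3⟩)
          · simpa using h2
          · exfalso
            cases h3 with
            | cons h4 => exact lt_irrefl _ h
            | rel h4 => exact absurd h4 (not_lt.2 h.le)

theorem map_fst_padPair (u v : List A) (h : v.length ≤ u.length) :
    (padPair u v).map Prod.fst = u.map some := by
  induction u generalizing v with
  | nil =>
    cases v with
    | nil => rfl
    | cons b v => simp at h
  | cons a u ih =>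
    cases v with
    | nil => simp [padPair, Function.comp_def]
    | cons b v =>
      simp only [List.length_cons, add_le_add_iff_right] at h
      simpa [padPair] using ih v h

/-- Passing to shortlex-least representatives in a path language. -/
theorem exists_least [Finite A] (ev : A → G) (L : Language A) (hreg : L.IsRegular)
    (hone : (multiplier ev L 1).IsRegular) (hpre : PrefixClosed L)
    (hpath : ∀ u ∈ L, ∀ v ∈ L, value ev u = value ev v → ∀ a : A, u ++ [a] ∈ L → v ++ [a] ∈ L) :
    ∃ L' : Language A, (∀ w, w ∈ L' → w ∈ L) ∧ L'.IsRegular ∧ PrefixClosed L' ∧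
      (∀ w ∈ L, ∃ w' ∈ L', value ev w' = value ev w) ∧
      (∀ u ∈ L', ∀ v ∈ L', value ev u = value ev v → u = v) := by
  classical
  obtain ⟨n, ⟨e⟩⟩ := Finite.exists_equiv_fin A
  set f : A → ℕ := fun a => (e a : ℕ) with hfdef
  have hf : Function.Injective f := fun a b hab => e.injective (Fin.ext hab)
  set r : A → A → Prop := fun a b => f a < f b with hr
  have hwf : WellFounded r := InvImage.wf f Nat.lt_wfRel.wf
  have hwfs : WellFounded (List.Shortlex r) := List.Shortlex.wf hwf
  have : Std.Trichotomous r := ⟨fun a b h1 h2 => hf (le_antisymm (not_lt.1 h2) (not_lt.1 h1))⟩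
  set L' : Language A := {u | u ∈ L ∧ ∀ v ∈ L, value ev v = value ev u →
    ¬ List.Shortlex r v u} with hL'
  refine ⟨L', fun w hw => hw.1, ?_, ?_, ?_, ?_⟩
  · -- regularity
    set S : Language (Option A × Option A) :=
      {w | w.foldl (cmpStep f) .eq = .lt ∨ w.foldl (cmpStep f) .eq = .sh} with hS
    have hSreg : S.IsRegular := by
      refine isRegular_of_fold (cmpStep f) .eq {c | c = .lt ∨ c = .sh} S ?_
      intro w
      rfl
    have hES : (multiplier ev L 1 ⊓ S).IsRegular := hone.inf hSreg
    set I : Language (Option A) := {x | ∃ w ∈ multiplier ev L 1 ⊓ S, w.map Prod.fst = x} with hI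
    have hIreg : I.IsRegular := isRegular_image Prod.fst hES I (fun w => Iff.rfl)
    set Bad : Language A := {u | u.filterMap (fun a => some (some a)) ∈ I} with hBad
    have hBadreg : Bad.IsRegular :=
      isRegular_filterMap (fun a => some (some a)) hIreg Bad (fun w => Iff.rfl)
    refine isRegular_diff hreg hBadreg L' ?_
    intro u
    have key : u ∈ Bad ↔ (u ∈ L ∧ ∃ v ∈ L, value ev v = value ev u ∧ List.Shortlex r v u) := by
      constructor
      · intro hu
        change u.filterMap (fun a => some (some a)) ∈ I at hu
        obtain ⟨w, ⟨⟨u', hu', v, hv, huv, rfl⟩, hw2⟩, hw3⟩ := hu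
        change (padPair u' v).foldl (cmpStep f) .eq = .lt ∨
          (padPair u' v).foldl (cmpStep f) .eq = .sh at hw2
        rw [cmp_eq f hf] at hw2
        have hlen : v.length ≤ u'.length := by
          rcases List.shortlex_def.1 hw2 with h3 | h3
          · exact h3.le
          · exact h3.1.le
        have h4 : u'.map some = u.map some := by
          rw [← map_fst_padPair u' v hlen]
          rw [show (padPair u' v) = List.zipWithAll Prod.mk u' v from rfl, hw3]
          induction u with
          | nil => rfl
          | cons a u ih => simp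
        have h5 : u' = u := List.map_injective_iff.2 (Option.some_injective A) h4
        subst h5
        refine ⟨hu', v, hv, ?_, hw2⟩
        rw [← huv, mul_one]
      · rintro ⟨hu, v, hv, hvu, hlex⟩
        change u.filterMap (fun a => some (some a)) ∈ I
        have hlen : v.length ≤ u.length := by
          rcases List.shortlex_def.1 hlex with h3 | h3
          · exact h3.le
          · exact h3.1.le
        refine ⟨padPair u v, ⟨⟨u, hu, v, hv, by rw [hvu, mul_one], rfl⟩, ?_⟩, ?_⟩
        · change (padPair u v).foldl (cmpStep f) .eq = .lt ∨
            (padPair u v).foldl (cmpStep f) .eq = .sh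
          rw [cmp_eq f hf]
          exact hlex
        · rw [map_fst_padPair u v hlen]
          induction u with
          | nil => rfl
          | cons a u ih => simp
    rw [key]
    constructor
    · rintro ⟨h1, h2⟩
      refine ⟨h1, ?_⟩
      rintro ⟨-, v, hv, hvu, hlex⟩
      exact h2 v hv hvu hlex
    · rintro ⟨h1, h2⟩
      refine ⟨h1, fun v hv hvu hlex => h2 ⟨h1, v, hv, hvu, hlex⟩⟩
  · -- closed under prefixes
    have hsnoc : ∀ (p : List A) (a : A), p ++ [a] ∈ L' → p ∈ L' := by
      rintro p a ⟨h1, h2⟩
      have hp : p ∈ L := hpre p _ h1 (List.prefix_append p [a])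
      refine ⟨hp, ?_⟩
      intro v hv hvp hlex
      refine h2 (v ++ [a]) (hpath p hp v hv hvp.symm a h1) ?_ ?_
      · rw [value_append, value_append, hvp]
      · rw [List.shortlex_def] at hlex ⊢
        rcases hlex with h3 | ⟨h3, h4⟩
        · left
          simpa using h3
        · right
          exact ⟨by simp [h3], lex_snoc r v p a h3 h4⟩
    have hall : ∀ (t p : List A), p ++ t ∈ L' → p ∈ L' := by
      intro t
      induction t using List.reverseRecOn with
      | nil => intro p hp; simpa using hp
      | append_singleton t a ih =>
        intro p hp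
        rw [← List.append_assoc] at hp
        exact ih p (hsnoc _ a hp)
    rintro p v hv ⟨t, rfl⟩
    exact hall t p hv
  · intro w0 hw0
    set g := value ev w0 with hg
    have hne : ({w : List A | w ∈ L ∧ value ev w = g}).Nonempty := ⟨w0, hw0, rfl⟩
    refine ⟨hwfs.min _ hne, ⟨(hwfs.min_mem _ hne).1, ?_⟩, (hwfs.min_mem _ hne).2⟩
    intro v hv hvg
    exact hwfs.not_lt_min _ (show v ∈ {w : List A | w ∈ L ∧ value ev w = g} from
      ⟨hv, hvg.trans (hwfs.min_mem _ hne).2⟩)
  · intro u hu v hv huv
    have h1 := hu.2 v hv.1 huv.symm
    have h2 := hv.2 u hu.1 huv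
    exact Std.Trichotomous.trichotomous (r := List.Shortlex r) u v h2 h1


/-- Main result for path languages. -/
theorem path_dense [Finite A] (ev : A → G) (hgen : Submonoid.closure (Set.range ev) = ⊤)
    (L : Language A) (hL : L.IsRegular) (hm : ∀ g, (multiplier ev L g).IsRegular)
    (hpre : PrefixClosed L)
    (hpath : ∀ u ∈ L, ∀ v ∈ L, value ev u = value ev v → ∀ a : A, u ++ [a] ∈ L → v ++ [a] ∈ L)
    (K : ℕ) (hK : ∀ g : G, ∃ w ∈ L, ∃ z : List A, z.length ≤ K ∧ value ev w * value ev z = g) :
    ∃ T : Language A, (∀ w ∈ L, ∃ w' ∈ L, w' ∈ T ∧ value ev w' = value ev w) ∧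
      IsAutomaticStructure ev T ∧ PrefixClosed T ∧ Uniqueness ev T := by
  obtain ⟨L', h1, h2, h3, h4, h5⟩ := exists_least ev L hL (hm 1) hpre hpath
  have hFT : ∀ g, FT ev L' g := fun g => FT_mono ev L L' h1 g (FT_of_regular ev L g (hm g))
  obtain ⟨T, t1, t2, t3, t4, -⟩ := dense ev hgen L' h2 (fun g => regular_of_FT ev L' h2 g (hFT g))
    h3 h5 K (by
      intro g
      obtain ⟨w, hw, z, hz, hg⟩ := hK g
      obtain ⟨w', hw', hww'⟩ := h4 w hw
      exact ⟨w', hw', z, hz, by rw [hww', hg]⟩)
  refine ⟨T, ?_, t2, t3, t4⟩
  intro w hw
  obtain ⟨w', hw', hww'⟩ := h4 w hw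
  exact ⟨w', h1 w' hw', t1 w' hw', hww'⟩

end Pool.Agent.H47.CD
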