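import Mathlib

/-!
# helper47: transport of resolutions along ring homomorphisms

`IsBC φ j`: the `φ`-semilinear map `j : U → U'` is a base change (of free modules). `Transport φ`: whenever a complex of
free `S`-modules resolves (the restriction of) an `S'`-module, its base change to `S'` still does.
-/

namespace Pool.Agent.H47.CD

open Module

/-- base change of a free module -/
def IsBC {S S' : Type} [Ring S] [Ring S'] (φ : S →+* S') {U U' : Type} [AddCommGroup U]
    [Module S U] [AddCommGroup U'] [Module S' U'] (j : U →ₛₗ[φ] U') : Prop :=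
  ∃ (ι : Type) (b : Basis ι S U) (b' : Basis ι S' U'), ∀ i, b' i = j (b i)

/-- resolution transport along `φ` -/
def Transport {S S' : Type} [Ring S] [Ring S'] (φ : S →+* S') : Prop :=
  ∀ (P P' : ℕ → Type) [∀ i, AddCommGroup (P i)] [∀ i, Module S (P i)]
    [∀ i, AddCommGroup (P' i)] [∀ i, Module S' (P' i)] (M : Type) [AddCommGroup M] [Module S' M]
    (d : ∀ i, P (i + 1) →ₗ[S] P i) (d' : ∀ i, P' (i + 1) →ₗ[S'] P' i)
    (j : ∀ i, P i →ₛₗ[φ] P' i) (π : P 0 →ₛₗ[φ] M) (π' : P' 0 →ₗ[S'] M),
    (∀ i, IsBC φ (j i)) → (∀ i x, j i (d i x) = d' i (j (i + 1) x)) → (∀ x, π' (j 0 x) = π x) →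
    (∀ i x, d i (d (i + 1) x) = 0) → (∀ i x, d i x = 0 → ∃ y, d (i + 1) y = x) →
    (∀ y, π (d 0 y) = 0) → (∀ x, π x = 0 → ∃ y, d 0 y = x) → Function.Surjective π →
    (∀ i x, d' i x = 0 → ∃ y, d' (i + 1) y = x) ∧ (∀ x, π' x = 0 → ∃ y, d' 0 y = x)

/-! ### composition -/

section Comp

variable {S S' S'' : Type} [Ring S] [Ring S'] [Ring S''] (φ : S →+* S') (ψ : S' →+* S'')

/-- first half of a base change -/
noncomputable def j1 {ι U : Type} [AddCommGroup U] [Module S U] (b : Basis ι S U) :
    U →ₛₗ[φ] (ι →₀ S') where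
  toFun x := (b.repr x).mapRange φ (map_zero φ)
  map_add' x y := by
    rw [map_add, Finsupp.mapRange_add (fun a b => map_add φ a b)]
  map_smul' s x := by
    ext k
    simp

/-- second half of a base change -/
noncomputable def j2 {ι U : Type} [AddCommGroup U] [Module S'' U] (v : ι → U) :
    (ι →₀ S') →ₛₗ[ψ] U where
  toFun f := f.sum (fun k s => ψ s • v k)
  map_add' f g := by
    refine Finsupp.sum_add_index' (fun k => by simp) (fun k a b => ?_)
    rw [map_add, add_smul]
  map_smul' s f := by
    rw [Finsupp.sum_smul_index' (fun k => by simp), Finsupp.smul_sum]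
    refine Finsupp.sum_congr (fun k _ => ?_)
    rw [smul_eq_mul, map_mul, mul_smul]

theorem j1_basis {ι U : Type} [AddCommGroup U] [Module S U] (b : Basis ι S U) (k : ι) :
    j1 φ b (b k) = Finsupp.single k 1 := by
  change ((b.repr (b k)).mapRange φ (map_zero φ)) = _
  rw [b.repr_self, Finsupp.mapRange_single, map_one]

theorem j2_single {ι U : Type} [AddCommGroup U] [Module S'' U] (v : ι → U) (k : ι) :
    j2 ψ v (Finsupp.single k 1) = v k := by
  change (Finsupp.single k (1 : S')).sum (fun k s => ψ s • v k) = _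
  rw [Finsupp.sum_single_index (by simp), map_one, one_smul]

theorem Transport.comp (hφ : Transport φ) (hψ : Transport ψ) : Transport (ψ.comp φ) := by
  intro P P'' _ _ _ _ M _ _ d d'' j π π'' hbc hjd hπ hdd hex hπd hexπ hsurj
  choose ι b b'' hb using hbc
  haveI : RingHomCompTriple φ ψ (ψ.comp φ) := ⟨rfl⟩
  -- the middle complex
  let P' : ℕ → Type := fun i => ι i →₀ S'
  let J1 : ∀ i, P i →ₛₗ[φ] P' i := fun i => j1 φ (b i)
  let J2 : ∀ i, P' i →ₛₗ[ψ] P'' i := fun i => j2 ψ (fun k => b'' i k)
  let d' : ∀ i, P' (i + 1) →ₗ[S'] P' i := fun i =>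
    Finsupp.linearCombination S' (fun k => J1 i (d i (b (i + 1) k)))
  have e1 : ∀ i x, J1 i (d i x) = d' i (J1 (i + 1) x) := by
    intro i x
    have : (J1 i).comp (d i) = (d' i).comp (J1 (i + 1)) := by
      refine (b (i + 1)).ext (fun k => ?_)
      rw [LinearMap.comp_apply, LinearMap.comp_apply]
      change _ = d' i (j1 φ (b (i + 1)) (b (i + 1) k))
      rw [j1_basis]
      change _ = Finsupp.linearCombination S' (fun k => J1 i (d i (b (i + 1) k)))
        (Finsupp.single k 1)
      rw [Finsupp.linearCombination_single, one_smul]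
    exact LinearMap.congr_fun this x
  have e2 : ∀ i x, J2 i (J1 i x) = j i x := by
    intro i x
    have : (J2 i).comp (J1 i) = j i := by
      refine (b i).ext (fun k => ?_)
      rw [LinearMap.comp_apply]
      change j2 ψ _ (j1 φ (b i) (b i k)) = _
      rw [j1_basis, j2_single, hb]
    exact LinearMap.congr_fun this x
  have e3 : ∀ i x, J2 i (d' i x) = d'' i (J2 (i + 1) x) := by
    intro i x
    have : (J2 i).comp (d' i) = (d'' i).comp (J2 (i + 1)) := by
      refine (Finsupp.basisSingleOne (ι := ι (i + 1)) (R := S')).ext (fun k => ?_)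
      rw [Finsupp.coe_basisSingleOne, LinearMap.comp_apply, LinearMap.comp_apply]
      change J2 i (Finsupp.linearCombination S' (fun k => J1 i (d i (b (i + 1) k)))
        (Finsupp.single k 1)) = d'' i (j2 ψ _ (Finsupp.single k 1))
      rw [Finsupp.linearCombination_single, one_smul, j2_single, e2, hjd, ← hb]
    exact LinearMap.congr_fun this x
  -- M over S'
  letI iM : Module S' M := Module.compHom M ψ
  have smulM : ∀ (s : S') (m : M), s • m = ψ s • m := fun s m => rfl
  let π1 : P 0 →ₛₗ[φ] M :=
    { toFun := π, map_add' := π.map_add, map_smul' := fun s x => by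
        rw [π.map_smulₛₗ, smulM]; rfl }
  let π' : P' 0 →ₗ[S'] M := Finsupp.linearCombination S' (fun k => π (b 0 k))
  have e4 : ∀ x, π' (J1 0 x) = π x := by
    intro x
    have : π'.comp (J1 0) = π1 := by
      refine (b 0).ext (fun k => ?_)
      rw [LinearMap.comp_apply]
      change π' (j1 φ (b 0) (b 0 k)) = _
      rw [j1_basis]
      change Finsupp.linearCombination S' (fun k => π (b 0 k)) (Finsupp.single k 1) = _
      rw [Finsupp.linearCombination_single, one_smul]
      rfl
    exact LinearMap.congr_fun this x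
  have hbc1 : ∀ i, IsBC φ (J1 i) := by
    intro i
    refine ⟨ι i, b i, Finsupp.basisSingleOne, fun k => ?_⟩
    rw [Finsupp.coe_basisSingleOne]
    exact (j1_basis φ (b i) k).symm
  obtain ⟨r1, r2⟩ := hφ P P' M d d' J1 π1 π' hbc1 e1 e4 hdd hex hπd hexπ hsurj
  -- second step
  have hdd' : ∀ i x, d' i (d' (i + 1) x) = 0 := by
    intro i x
    have : (d' i).comp (d' (i + 1)) = 0 := by
      refine (Finsupp.basisSingleOne (ι := ι (i + 1 + 1)) (R := S')).ext (fun k => ?_)
      rw [Finsupp.coe_basisSingleOne, LinearMap.comp_apply, LinearMap.zero_apply]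
      change d' i (Finsupp.linearCombination S'
        (fun k => J1 (i + 1) (d (i + 1) (b (i + 1 + 1) k))) (Finsupp.single k 1)) = _
      rw [Finsupp.linearCombination_single, one_smul, ← e1, hdd, map_zero]
    exact LinearMap.congr_fun this x
  have hπd' : ∀ y, π' (d' 0 y) = 0 := by
    intro x
    have : π'.comp (d' 0) = 0 := by
      refine (Finsupp.basisSingleOne (ι := ι (0 + 1)) (R := S')).ext (fun k => ?_)
      rw [Finsupp.coe_basisSingleOne, LinearMap.comp_apply, LinearMap.zero_apply]
      change π' (Finsupp.linearCombination S'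
        (fun k => J1 0 (d 0 (b (0 + 1) k))) (Finsupp.single k 1)) = _
      rw [Finsupp.linearCombination_single, one_smul, e4, hπd]
    exact LinearMap.congr_fun this x
  let π2 : P' 0 →ₛₗ[ψ] M :=
    { toFun := π', map_add' := π'.map_add, map_smul' := fun s x => by
        rw [π'.map_smul, smulM] }
  have e5 : ∀ x, π'' (J2 0 x) = π2 x := by
    intro x
    have : π''.comp (J2 0) = π2 := by
      refine (Finsupp.basisSingleOne (ι := ι 0) (R := S')).ext (fun k => ?_)
      rw [Finsupp.coe_basisSingleOne, LinearMap.comp_apply]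
      change π'' (j2 ψ _ (Finsupp.single k 1)) =
        Finsupp.linearCombination S' (fun k => π (b 0 k)) (Finsupp.single k 1)
      rw [j2_single, Finsupp.linearCombination_single, one_smul, hb, hπ]
    exact LinearMap.congr_fun this x
  have hbc2 : ∀ i, IsBC ψ (J2 i) := by
    intro i
    refine ⟨ι i, Finsupp.basisSingleOne, b'' i, fun k => ?_⟩
    rw [Finsupp.coe_basisSingleOne]
    exact (j2_single ψ _ k).symm
  refine hψ P' P'' M d' d'' J2 π2 π'' hbc2 e3 e5 hdd' r1 hπd' r2 ?_
  intro m
  obtain ⟨x, hx⟩ := hsurj m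
  exact ⟨J1 0 x, (e4 x).trans hx⟩

end Comp

/-! ### isomorphisms -/

theorem Transport.of_bijective {S S' : Type} [Ring S] [Ring S'] (φ : S →+* S')
    (hφ : Function.Bijective φ) : Transport φ := by
  intro P P' _ _ _ _ M _ _ d d' j π π' hbc hjd hπ hdd hex hπd hexπ hsurj
  have hj : ∀ i, Function.Bijective (j i) := by
    intro i
    obtain ⟨ι, b, b', hb⟩ := hbc i
    have key : ∀ x, b'.repr (j i x) = (b.repr x).mapRange φ (map_zero φ) := by
      intro x
      have hx : j i x = ∑ k ∈ (b.repr x).support, φ (b.repr x k) • b' k := by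
        conv_lhs => rw [← b.linearCombination_repr x]
        rw [Finsupp.linearCombination_apply, Finsupp.sum, map_sum]
        refine Finset.sum_congr rfl (fun k _ => ?_)
        rw [(j i).map_smulₛₗ, hb]
      ext k
      rw [hx, map_sum]
      simp only [map_smul, Basis.repr_self, Finsupp.coe_finset_sum, Finset.sum_apply,
        Finsupp.smul_apply, smul_eq_mul, Finsupp.mapRange_apply]
      rw [Finset.sum_eq_single k]
      · simp
      · intro l _ hl
        rw [Finsupp.single_eq_of_ne hl.symm, mul_zero]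
      · intro hk
        rw [Finsupp.notMem_support_iff.1 hk, map_zero, zero_mul]
    constructor
    · intro x y hxy
      have h := congrArg b'.repr hxy
      rw [key, key] at h
      have := Finsupp.mapRange_injective φ (map_zero φ) hφ.1 h
      exact b.repr.injective this
    · intro y
      obtain ⟨f, hf⟩ := Finsupp.mapRange_surjective φ (map_zero φ) hφ.2 (b'.repr y)
      refine ⟨b.repr.symm f, ?_⟩
      apply b'.repr.injective
      rw [key, LinearEquiv.apply_symm_apply, hf]
  constructor
  · intro i x hx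
    obtain ⟨y, rfl⟩ := (hj (i + 1)).2 x
    rw [← hjd] at hx
    have h0 : d i y = 0 := (hj i).1 (by rw [hx, map_zero])
    obtain ⟨z, hz⟩ := hex i y h0
    exact ⟨j _ z, by rw [← hjd, hz]⟩
  · intro x hx
    obtain ⟨y, rfl⟩ := (hj 0).2 x
    rw [hπ] at hx
    obtain ⟨z, hz⟩ := hexπ y hx
    exact ⟨j _ z, by rw [← hjd, hz]⟩

/-! ### crossed products -/

/-- `c` is a basis of `R` as a left `S`-module along `ι` -/
def LeftBasis {S R κ : Type} [Ring S] [Ring R] (ι : S →+* R) (c : κ → R) : Prop :=
  ∀ r : R, ∃! f : κ →₀ S, f.sum (fun k s => ι s * c k) = r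

/-- a basis of an `R`-module gives one over `S` -/
theorem leftBasis_mul {S R κ I P : Type} [Ring S] [Ring R] (ι : S →+* R) (c : κ → R)
    (hc : LeftBasis ι c) [AddCommGroup P] [Module R P] (b : Basis I R P) :
    ∃ B : @Basis (κ × I) S P _ _ (Module.compHom P ι), ∀ k, B k = c k.1 • b k.2 := by
  letI i1 : Module S R := Module.compHom R ι
  letI i2 : Module S P := Module.compHom P ι
  haveI : IsScalarTower S R P := ⟨fun s r p => by
    change (ι s * r) • p = ι s • r • p
    rw [mul_smul]⟩
  have hbij : Function.Bijective (Finsupp.linearCombination S c) := by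
    have e : ∀ f : κ →₀ S, Finsupp.linearCombination S c f = f.sum (fun k s => ι s * c k) :=
      fun f => by
        rw [Finsupp.linearCombination_apply]
        rfl
    constructor
    · intro f g hfg
      rw [e, e] at hfg
      obtain ⟨u, _, hu⟩ := hc (g.sum (fun k s => ι s * c k))
      rw [hu f hfg, hu g rfl]
    · intro r
      obtain ⟨u, hu, _⟩ := hc r
      exact ⟨u, by rw [e]; exact hu⟩
  let cB : Basis κ S R := Basis.ofRepr (LinearEquiv.ofBijective _ hbij).symm
  have hcB : ∀ k, cB k = c k := by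
    intro k
    change (LinearEquiv.ofBijective _ hbij) (Finsupp.single k 1) = c k
    rw [LinearEquiv.ofBijective_apply, Finsupp.linearCombination_single, one_smul]
  refine ⟨cB.smulTower b, fun k => ?_⟩
  rw [Basis.smulTower_apply, hcB]

theorem Transport.tower {S S' R R' κ : Type} [Ring S] [Ring S'] [Ring R] [Ring R'] (φ : S →+* S')
    (ι : S →+* R) (ι' : S' →+* R') (Φ : R →+* R') (hcomm : ∀ s, Φ (ι s) = ι' (φ s)) (c : κ → R)
    (c' : κ → R') (hc : LeftBasis ι c) (hc' : LeftBasis ι' c') (hcc : ∀ k, Φ (c k) = c' k)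
    (h : Transport φ) : Transport Φ := by
  intro P P' _ _ _ _ M _ _ d d' j π π' hbc hjd hπ hdd hex hπd hexπ hsurj
  letI i1 : ∀ i, Module S (P i) := fun i => Module.compHom (P i) ι
  letI i2 : ∀ i, Module S' (P' i) := fun i => Module.compHom (P' i) ι'
  letI i3 : Module S' M := Module.compHom M ι'
  have s1 : ∀ i (s : S) (x : P i), s • x = ι s • x := fun _ _ _ => rfl
  have s2 : ∀ i (s : S') (x : P' i), s • x = ι' s • x := fun _ _ _ => rfl
  have s3 : ∀ (s : S') (x : M), s • x = ι' s • x := fun _ _ => rfl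
  let D : ∀ i, P (i + 1) →ₗ[S] P i := fun i =>
    { toFun := d i, map_add' := (d i).map_add, map_smul' := fun s x => (d i).map_smul (ι s) x }
  let D' : ∀ i, P' (i + 1) →ₗ[S'] P' i := fun i =>
    { toFun := d' i, map_add' := (d' i).map_add, map_smul' := fun s x => (d' i).map_smul (ι' s) x }
  let J : ∀ i, P i →ₛₗ[φ] P' i := fun i =>
    { toFun := j i, map_add' := (j i).map_add, map_smul' := fun s x => by
        rw [s1, s2, (j i).map_smulₛₗ, hcomm] }
  let Q : P 0 →ₛₗ[φ] M :=
    { toFun := π, map_add' := π.map_add, map_smul' := fun s x => by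
        rw [s1, s3, π.map_smulₛₗ, hcomm] }
  let Q' : P' 0 →ₗ[S'] M :=
    { toFun := π', map_add' := π'.map_add, map_smul' := fun s x => π'.map_smul (ι' s) x }
  refine h P P' M D D' J Q Q' ?_ hjd hπ hdd hex hπd hexπ hsurj
  intro i
  obtain ⟨I, b, b', hb⟩ := hbc i
  obtain ⟨B, hB⟩ := leftBasis_mul ι c hc b
  obtain ⟨B', hB'⟩ := leftBasis_mul ι' c' hc' b'
  refine ⟨κ × I, B, B', fun k => ?_⟩
  rw [hB', hB]
  change _ = j i (c k.1 • b k.2)
  rw [(j i).map_smulₛₗ, hcc, hb]

end Pool.Agent.H47.CD
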