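import Pool.Agent.H47.CD.RegDef
import Pool.Agent.H47.CD.Trans
import Pool.Agent.H6.SK.Star
import Pool.Agent.H68.TL.Final

/-!
# helper47: B4, algebra part

`RU u = (Γ →₀ D)` as module over `S = F₂[Γ]` by `(g ⋆ a) h = u g * a (h * g)`, free on `single 1 (β k)`;
`TSq (DL u) = D ⊗ D` as `D`-module by `d • (a ⊗ b) = a * star d ⊗ b`, free on `1 ⊗ β k`;
`θ a = ∑ h, h • (1 ⊗ a h)` is `Γ`-equivariant and semilinear.
-/

namespace Pool.Agent.H47.CD

set_option linter.unusedSectionVars false

open Pool.Agent.H68.TL Module TensorProduct
open Pool.Agent.H68.TL.CC (DL)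

section RU

variable {Γ D : Type} [Group Γ] [DivisionRing D] [Module (ZMod 2) D]

noncomputable instance : Module (ZMod 2) (RG Γ D) := inferInstanceAs (Module (ZMod 2) (Γ →₀ D))

/-- right translation and left multiplication -/
noncomputable def st (u : Γ →* Dˣ) (g : Γ) : RG Γ D →+ RG Γ D where
  toFun a := RG.mk ((Finsupp.equivMapDomain (Equiv.mulRight g⁻¹) a.co).mapRange
    (fun d => (u g : D) * d) (mul_zero _))
  map_zero' := by
    refine RG.ext (fun h => ?_)
    change (u g : D) * 0 = 0
    rw [mul_zero]
  map_add' a b := by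
    refine RG.ext (fun h => ?_)
    rw [RG.co_mk, Finsupp.mapRange_apply, Finsupp.equivMapDomain_apply, RG.co_add, RG.co_add,
      Finsupp.add_apply, Finsupp.add_apply, mul_add, RG.co_mk, RG.co_mk, Finsupp.mapRange_apply,
      Finsupp.mapRange_apply, Finsupp.equivMapDomain_apply, Finsupp.equivMapDomain_apply]

theorem st_apply (u : Γ →* Dˣ) (g : Γ) (a : RG Γ D) (h : Γ) :
    (st u g a).co h = (u g : D) * a.co (h * g) := by
  change ((Finsupp.equivMapDomain (Equiv.mulRight g⁻¹) a.co).mapRange
    (fun d => (u g : D) * d) (mul_zero _)) h = _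
  rw [Finsupp.mapRange_apply, Finsupp.equivMapDomain_apply]
  congr 2
  simp

/-- as a homomorphism to the endomorphisms -/
noncomputable def stM (u : Γ →* Dˣ) : Γ →* AddMonoid.End (RG Γ D) where
  toFun g := st u g
  map_one' := by
    refine AddMonoidHom.ext (fun a => RG.ext (fun h => ?_))
    rw [st_apply, map_one, Units.val_one, one_mul, mul_one]
    rfl
  map_mul' g g' := by
    refine AddMonoidHom.ext (fun a => RG.ext (fun h => ?_))
    change (st u (g * g') a).co h = (st u g (st u g' a)).co h
    rw [st_apply, st_apply, st_apply, map_mul, Units.val_mul, mul_assoc, mul_assoc]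

theorem smul_comm_hom {A B : Type} [AddCommGroup A] [AddCommGroup B] [Module (ZMod 2) A]
    [Module (ZMod 2) B] (f : A →+ B) (c : ZMod 2) (a : A) : f (c • a) = c • f a :=
  (AddMonoidHom.toZModLinearMap 2 f).map_smul c a

variable [MulSemiringAction Γ (ZMod 2)]

theorem smul_zmod (g : Γ) (x : ZMod 2) : g • x = x := by
  have h : ∀ y : ZMod 2, y = 0 ∨ y = 1 := by decide
  rcases h x with rfl | rfl
  · exact smul_zero g
  · exact smul_one g

theorem actS_compat (u : Γ →* Dˣ) (x : ZMod 2) (g : Γ) :
    (Module.toAddMonoidEnd (ZMod 2) (RG Γ D)) (g • x) * (stM u) g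
      = (stM u) g * (Module.toAddMonoidEnd (ZMod 2) (RG Γ D)) x := by
  refine AddMonoidHom.ext (fun a => ?_)
  change (g • x) • (st u g a) = st u g (x • a)
  rw [smul_zmod, smul_comm_hom]

/-- the action of `F₂[Γ]` -/
noncomputable def actS (u : Γ →* Dˣ) : SkewMonoidAlgebra (ZMod 2) Γ →+* AddMonoid.End (RG Γ D) :=
  Pool.Agent.H6.SK.lft (Module.toAddMonoidEnd (ZMod 2) (RG Γ D)) (stM u) (actS_compat u)

theorem actS_single (u : Γ →* Dˣ) (g : Γ) (c : ZMod 2) (a : RG Γ D) :
    actS u (SkewMonoidAlgebra.single g c) a = c • st u g a := by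
  rw [actS, Pool.Agent.H6.SK.lft_single]
  rfl

/-- the regular module with the action of `F₂[Γ]` twisted by `u` -/
def RU (_u : Γ →* Dˣ) : Type := RG Γ D

variable (u : Γ →* Dˣ)

noncomputable instance : AddCommGroup (RU u) := inferInstanceAs (AddCommGroup (RG Γ D))

noncomputable instance : DistribMulAction Γ (RU u) := inferInstanceAs (DistribMulAction Γ (RG Γ D))

noncomputable instance : Module (ZMod 2) (RU u) := inferInstanceAs (Module (ZMod 2) (RG Γ D))

noncomputable instance : Module (SkewMonoidAlgebra (ZMod 2) Γ) (RU u) :=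
  Module.compHom (RG Γ D) (actS u)

/-- element of the twisted module -/
def RU.of (a : RG Γ D) : RU u := a

variable {u} in
/-- underlying element -/
def RU.to (a : RU u) : RG Γ D := a

theorem RU.single_smul (g : Γ) (c : ZMod 2) (a : RU u) :
    (SkewMonoidAlgebra.single g c : SkewMonoidAlgebra (ZMod 2) Γ) • a
      = c • RU.of u (st u g a.to) := actS_single u g c a

/-- the `F₂[Γ]`-action commutes with left translation -/
theorem RU.smul_smul_comm (s : SkewMonoidAlgebra (ZMod 2) Γ) (g : Γ) (a : RU u) :
    s • (g • a) = g • (s • a) := by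
  induction s using SkewMonoidAlgebra.induction_on with
  | zero => rw [zero_smul, zero_smul, smul_zero]
  | single h c =>
    rw [RU.single_smul, RU.single_smul]
    have h1 : RU.of u (st u h (g • a).to) = g • (RU.of u (st u h a.to)) := by
      refine RG.ext (fun k => ?_)
      change (st u h (g • a.to)).co k = (g • (st u h a.to)).co k
      rw [st_apply, RG.smul_apply, RG.smul_apply, st_apply, mul_assoc]
    rw [h1]
    exact (smul_comm_hom (DistribSMul.toAddMonoidHom (RU u) g) c _).symm
  | add a b ha hb => rw [add_smul, add_smul, smul_add, ha, hb]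

/-- values of multiples of `single 1 d` -/
theorem RU.smul_one_apply (s : SkewMonoidAlgebra (ZMod 2) Γ) (d : D) (h : Γ) :
    (s • RU.of u (RG.mk (Finsupp.single 1 d))).to.co h = (s.coeff h⁻¹) • ((u h⁻¹ : D) * d) := by
  induction s using SkewMonoidAlgebra.induction_on with
  | zero =>
    rw [zero_smul, SkewMonoidAlgebra.coeff_zero]
    change (0 : D) = (0 : ZMod 2) • _
    rw [zero_smul]
  | single g c =>
    rw [RU.single_smul]
    change c • (st u g (RG.mk (Finsupp.single 1 d))).co h = _
    rw [st_apply, RG.co_mk, SkewMonoidAlgebra.coeff_single]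
    by_cases hg : h = g⁻¹
    · subst hg
      rw [inv_mul_cancel, Finsupp.single_eq_same, inv_inv, Finsupp.single_eq_same]
    · rw [Finsupp.single_eq_of_ne (fun h2 => hg (eq_inv_of_mul_eq_one_left h2)), mul_zero,
        smul_zero, Finsupp.single_eq_of_ne (fun h2 => hg (by rw [← h2, inv_inv])), zero_smul]
  | add a b ha hb =>
    rw [add_smul, SkewMonoidAlgebra.coeff_add, Finsupp.add_apply, add_smul, ← ha, ← hb]
    rfl

/-- **freeness of the regular module** -/
theorem exists_basisRU {κ : Type} (β : Basis κ (ZMod 2) D) :
    ∃ b : Basis κ (SkewMonoidAlgebra (ZMod 2) Γ) (RU u),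
      ∀ k, b k = RU.of u (RG.mk (Finsupp.single 1 (β k))) := by
  let v : κ → RU u := fun k => RU.of u (RG.mk (Finsupp.single 1 (β k)))
  let L : (κ →₀ SkewMonoidAlgebra (ZMod 2) Γ) →ₗ[SkewMonoidAlgebra (ZMod 2) Γ] RU u :=
    Finsupp.linearCombination _ v
  have hL : ∀ f h, (L f).to.co h
      = (u h⁻¹ : D) * (f.sum (fun k s => (s.coeff h⁻¹) • β k)) := by
    intro f h
    induction f using Finsupp.induction_linear with
    | zero =>
      rw [map_zero, Finsupp.sum_zero_index, mul_zero]
      rfl
    | add f f' hf hf' =>
      rw [map_add, Finsupp.sum_add_index' (fun k => by rw [SkewMonoidAlgebra.coeff_zero]; exact zero_smul _ _)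
        (fun k s s' => by rw [SkewMonoidAlgebra.coeff_add, Finsupp.add_apply, add_smul]), mul_add,
        ← hf, ← hf']
      rfl
    | single k s =>
      rw [Finsupp.linearCombination_single, RU.smul_one_apply, Finsupp.sum_single_index
        (by rw [SkewMonoidAlgebra.coeff_zero]; exact zero_smul _ _)]
      exact (smul_comm_hom (AddMonoidHom.mulLeft (u h⁻¹ : D)) _ _).symm
  have hinj : Function.Injective L := by
    rw [injective_iff_map_eq_zero]
    intro f hf
    ext k h
    have h1 := hL f h⁻¹
    rw [hf, inv_inv] at h1
    have h2 : f.sum (fun k s => (s.coeff h) • β k) = 0 := by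
      have h3 : (u h : D) * f.sum (fun k s => (s.coeff h) • β k) = 0 := h1.symm
      exact (mul_eq_zero.1 h3).resolve_left (Units.ne_zero _)
    have h4 : Finsupp.linearCombination (ZMod 2) β
        (f.mapRange (fun s => s.coeff h) rfl) = 0 := by
      rw [Finsupp.linearCombination_apply, Finsupp.sum_mapRange_index
        (h := fun k (c : ZMod 2) => c • β k) (fun k => zero_smul _ _)]
      exact h2
    have h5 := (linearIndependent_iff.1 β.linearIndependent) _ h4
    have h6 := DFunLike.congr_fun h5 k
    rw [Finsupp.mapRange_apply] at h6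
    exact h6
  have hsurj : Function.Surjective L := by
    rw [← LinearMap.range_eq_top, eq_top_iff]
    have key : ∀ a : RG Γ D, RU.of u a ∈ LinearMap.range L := by
      intro a
      induction a using RG.ind with
      | h0 => exact (LinearMap.range L).zero_mem
      | h2 a b ha hb => exact (LinearMap.range L).add_mem ha hb
      | h1 h d =>
        -- `d = u(h)⁻¹ * (u h * d)`
        have h1 : ∀ e : D, RU.of u (RG.mk (Finsupp.single h ((u h⁻¹ : D) * e)))
            ∈ LinearMap.range L := by
          intro e
          have he : e ∈ Submodule.span (ZMod 2) (Set.range β) := by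
            rw [β.span_eq]
            trivial
          induction he using Submodule.span_induction with
          | mem x hx =>
            obtain ⟨k, rfl⟩ := hx
            refine ⟨Finsupp.single k (SkewMonoidAlgebra.single h⁻¹ 1), ?_⟩
            refine RG.ext (fun g => ?_)
            refine (hL _ g).trans ?_
            rw [Finsupp.sum_single_index
              (by rw [SkewMonoidAlgebra.coeff_zero]; exact zero_smul _ _),
              SkewMonoidAlgebra.coeff_single]
            change _ = (Finsupp.single h ((u h⁻¹ : D) * β k)) g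
            by_cases hg : g = h
            · subst hg
              rw [Finsupp.single_eq_same, Finsupp.single_eq_same, one_smul]
            · rw [Finsupp.single_eq_of_ne (fun h2 => hg (inv_injective h2)),
                Finsupp.single_eq_of_ne hg, zero_smul, mul_zero]
          | zero =>
            rw [mul_zero, Finsupp.single_zero]
            exact (LinearMap.range L).zero_mem
          | add x y _ _ hx hy =>
            rw [mul_add, Finsupp.single_add]
            exact (LinearMap.range L).add_mem hx hy
          | smul c x _ hx =>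
            have hc : ∀ y : ZMod 2, y = 0 ∨ y = 1 := by decide
            rcases hc c with rfl | rfl
            · rw [zero_smul, mul_zero, Finsupp.single_zero]
              exact (LinearMap.range L).zero_mem
            · rw [one_smul]
              exact hx
        have h2 := h1 ((u h : D) * d)
        rw [← mul_assoc, map_inv, Units.inv_mul, one_mul] at h2
        exact h2
    intro a _
    exact key a
  refine ⟨Basis.ofRepr (LinearEquiv.ofBijective L ⟨hinj, hsurj⟩).symm, fun k => ?_⟩
  rw [Basis.coe_ofRepr, LinearEquiv.symm_symm]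
  change L (Finsupp.single k 1) = _
  rw [Finsupp.linearCombination_single, one_smul]

end RU

section TS

variable {Γ D : Type} [Group Γ] [DivisionRing D] [StarRing D] [Module (ZMod 2) D] (u : Γ →* Dˣ)

/-- right multiplication by `star d` -/
noncomputable def rmul (d : D) : DL u →ₗ[ZMod 2] DL u :=
  AddMonoidHom.toZModLinearMap 2 (AddMonoidHom.mk' (fun a : DL u => DL.of u (a.val * star d))
    (fun a b => add_mul a.val b.val (star d)))

theorem rmul_apply (d : D) (a : DL u) : rmul u d a = DL.of u (a.val * star d) := rfl

noncomputable instance instModTS : Module D (TSq (DL u)) where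
  smul d t := TensorProduct.map (rmul u d) LinearMap.id t
  one_smul t := by
    change TensorProduct.map (rmul u 1) LinearMap.id t = t
    have h : rmul u (1 : D) = LinearMap.id := by
      refine LinearMap.ext (fun a => ?_)
      rw [rmul_apply, star_one, mul_one]
      rfl
    rw [h, TensorProduct.map_id]
    rfl
  mul_smul d e t := by
    change TensorProduct.map (rmul u (d * e)) LinearMap.id t =
      TensorProduct.map (rmul u d) LinearMap.id (TensorProduct.map (rmul u e) LinearMap.id t)
    have h : rmul u (d * e) = (rmul u d) ∘ₗ (rmul u e) := by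
      refine LinearMap.ext (fun a => ?_)
      rw [LinearMap.comp_apply, rmul_apply, rmul_apply, rmul_apply, star_mul, ← mul_assoc]
      rfl
    have h2 : (LinearMap.id : DL u →ₗ[ZMod 2] DL u) = LinearMap.id ∘ₗ LinearMap.id := rfl
    rw [h]
    conv_lhs => rw [h2]
    rw [TensorProduct.map_comp]
    rfl
  smul_zero d := map_zero (TensorProduct.map (rmul u d) LinearMap.id)
  smul_add d s t := map_add (TensorProduct.map (rmul u d) LinearMap.id) s t
  add_smul d e t := by
    change TensorProduct.map (rmul u (d + e)) LinearMap.id t =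
      TensorProduct.map (rmul u d) LinearMap.id t + TensorProduct.map (rmul u e) LinearMap.id t
    have h : rmul u (d + e) = rmul u d + rmul u e := by
      refine LinearMap.ext (fun a => ?_)
      rw [LinearMap.add_apply, rmul_apply, rmul_apply, rmul_apply, star_add, mul_add]
      rfl
    rw [h, TensorProduct.map_add_left]
    rfl
  zero_smul t := by
    change TensorProduct.map (rmul u (0 : D)) LinearMap.id t = 0
    have h : rmul u (0 : D) = 0 := by
      refine LinearMap.ext (fun a => ?_)
      rw [rmul_apply, star_zero, mul_zero]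
      rfl
    rw [h, TensorProduct.map_zero_left]
    rfl

theorem TS.smul_tm (d : D) (a b : DL u) :
    d • TSq.tm a b = TSq.tm (DL.of u (a.val * star d)) b := rfl

theorem TS.smul_smul_comm (d : D) (g : Γ) (t : TSq (DL u)) : d • (g • t) = g • (d • t) := by
  induction t using TSq.ind with
  | h0 => rw [smul_zero, smul_zero, smul_zero]
  | ht a b =>
    rw [Pool.Agent.H68.TL.smul_tm, TS.smul_tm, TS.smul_tm, Pool.Agent.H68.TL.smul_tm]
    congr 1
    exact mul_assoc (u g : D) a.val (star d)
  | ha s t hs ht => rw [smul_add, smul_add, smul_add, smul_add, hs, ht]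

/-- freeness of `D ⊗ D` over `D` -/
theorem exists_basisTS {κ : Type} (β : Basis κ (ZMod 2) D) :
    ∃ b : Basis κ D (TSq (DL u)), ∀ k, b k = TSq.tm (DL.of u 1) (DL.of u (β k)) := by
  classical
  let β' : Basis κ (ZMod 2) (DL u) := β
  let v : κ → TSq (DL u) := fun k => TSq.tm (DL.of u 1) (DL.of u (β k))
  let L : (κ →₀ D) →ₗ[D] TSq (DL u) := Finsupp.linearCombination D v
  let e : (κ →₀ D) ≃+ (κ →₀ DL u) := Finsupp.mapRange.addEquiv (starAddEquiv (R := D))
  have hL : ∀ f, L f = (TensorProduct.equivFinsuppOfBasisRight (M := DL u) β').symm (e f) := by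
    intro f
    induction f using Finsupp.induction_linear with
    | zero => rw [map_zero, map_zero, map_zero]; rfl
    | add f f' hf hf' => rw [map_add, map_add, map_add, hf, hf']; rfl
    | single k d =>
      rw [Finsupp.linearCombination_single]
      have h1 : e (Finsupp.single k d) = Finsupp.single k (DL.of u (star d)) := by
        change Finsupp.mapRange (starAddEquiv (R := D)) (map_zero _) (Finsupp.single k d) = _
        rw [Finsupp.mapRange_single]
        rfl
      have h2 : (TensorProduct.equivFinsuppOfBasisRight (M := DL u) β').symm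
          (Finsupp.single k (DL.of u (star d))) = DL.of u (star d) ⊗ₜ[ZMod 2] β' k := by
        rw [TensorProduct.equivFinsuppOfBasisRight_symm_apply]
        exact Finsupp.sum_single_index (h := fun (i : κ) (m : DL u) => m ⊗ₜ[ZMod 2] β' i)
          (TensorProduct.zero_tmul _ _)
      rw [h1]
      refine Eq.trans ?_ h2.symm
      change d • TSq.tm (DL.of u 1) (DL.of u (β k)) = TSq.tm (DL.of u (star d)) (DL.of u (β k))
      rw [TS.smul_tm]
      congr 1
      exact one_mul (star d)
  have hbij : Function.Bijective L := by
    have h1 : (L : (κ →₀ D) → TSq (DL u))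
        = (TensorProduct.equivFinsuppOfBasisRight (M := DL u) β').symm ∘ e := funext hL
    rw [h1]
    exact (LinearEquiv.bijective _).comp e.bijective
  refine ⟨Basis.ofRepr (LinearEquiv.ofBijective L hbij).symm, fun k => ?_⟩
  rw [Basis.coe_ofRepr, LinearEquiv.symm_symm]
  change L (Finsupp.single k 1) = _
  rw [Finsupp.linearCombination_single, one_smul]

/-- the comparison map -/
noncomputable def theta : RU u →+ TSq (DL u) :=
  Finsupp.liftAddHom (fun h : Γ => AddMonoidHom.mk'
    (fun d : D => h • TSq.tm (DL.of u 1) (DL.of u d)) (fun a b => by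
      rw [← smul_add]
      congr 1
      exact TensorProduct.tmul_add _ _ _))

theorem theta_single (h : Γ) (d : D) : theta u (RU.of u (RG.mk (Finsupp.single h d)))
    = TSq.tm (DL.of u (u h : D)) (DL.of u ((u h : D) * d)) := by
  change (Finsupp.liftAddHom _) (Finsupp.single h d) = _
  rw [Finsupp.liftAddHom_apply_single]
  change h • TSq.tm (DL.of u 1) (DL.of u d) = _
  rw [Pool.Agent.H68.TL.smul_tm]
  congr 1
  exact mul_one (u h : D)

theorem theta_equivariant (g : Γ) (a : RU u) : theta u (g • a) = g • theta u a := by
  change theta u (RU.of u (g • a.to)) = g • theta u (RU.of u a.to)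
  generalize a.to = a
  induction a using RG.ind with
  | h0 =>
    rw [smul_zero]
    change theta u 0 = g • theta u 0
    rw [map_zero, smul_zero]
  | h1 h d =>
    rw [RG.smul_single, theta_single, theta_single, Pool.Agent.H68.TL.smul_tm]
    congr 1
    · change ((u (g * h) : Dˣ) : D) = (u g : D) * (u h : D)
      rw [map_mul, Units.val_mul]
    · change ((u (g * h) : Dˣ) : D) * d = (u g : D) * ((u h : D) * d)
      rw [map_mul, Units.val_mul, mul_assoc]
  | h2 a b ha hb =>
    rw [smul_add]
    change theta u (RU.of u (g • a) + RU.of u (g • b)) = g • theta u (RU.of u a + RU.of u b)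
    rw [map_add, map_add, smul_add, ha, hb]

variable [MulSemiringAction Γ (ZMod 2)]

theorem theta_semilinear (hu : ∀ g, star (u g : D) = ((u g)⁻¹ : Dˣ))
    (Φ : SkewMonoidAlgebra (ZMod 2) Γ →+* D)
    (hΦ : ∀ g, Φ (SkewMonoidAlgebra.single g 1) = u g) (s : SkewMonoidAlgebra (ZMod 2) Γ)
    (a : RU u) : theta u (s • a) = Φ s • theta u a := by
  induction s using SkewMonoidAlgebra.induction_on with
  | zero => rw [zero_smul, map_zero, map_zero, zero_smul]
  | add s t hs ht => rw [add_smul, map_add, map_add, add_smul, hs, ht]
  | single g c =>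
    have hc : ∀ y : ZMod 2, y = 0 ∨ y = 1 := by decide
    rcases hc c with rfl | rfl
    · rw [SkewMonoidAlgebra.single_zero, zero_smul, map_zero, map_zero, zero_smul]
    rw [RU.single_smul, one_smul, hΦ]
    change theta u (RU.of u (st u g a.to)) = (u g : D) • theta u (RU.of u a.to)
    generalize a.to = a
    induction a using RG.ind with
    | h0 =>
      rw [map_zero]
      change theta u 0 = (u g : D) • theta u 0
      rw [map_zero, smul_zero]
    | h1 h d =>
      have h1 : st u g (RG.mk (Finsupp.single h d))
          = RG.mk (Finsupp.single (h * g⁻¹) ((u g : D) * d)) := by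
        refine RG.ext (fun k => ?_)
        rw [st_apply, RG.co_mk, RG.co_mk]
        by_cases hk : k = h * g⁻¹
        · subst hk
          rw [inv_mul_cancel_right, Finsupp.single_eq_same, Finsupp.single_eq_same]
        · rw [Finsupp.single_eq_of_ne hk, Finsupp.single_eq_of_ne, mul_zero]
          intro h2
          apply hk
          rw [← h2, mul_inv_cancel_right]
      rw [h1, theta_single, theta_single, TS.smul_tm, hu]
      congr 1
      · change ((u (h * g⁻¹) : Dˣ) : D) = (u h : D) * (((u g)⁻¹ : Dˣ) : D)
        rw [map_mul, Units.val_mul, map_inv]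
      · change ((u (h * g⁻¹) : Dˣ) : D) * ((u g : D) * d) = (u h : D) * d
        rw [← mul_assoc, ← Units.val_mul, ← map_mul, inv_mul_cancel_right]
    | h2 a b ha hb =>
      rw [map_add]
      change theta u (RU.of u (st u g a) + RU.of u (st u g b))
        = (u g : D) • theta u (RU.of u a + RU.of u b)
      rw [map_add, map_add, smul_add, ha, hb]

/-- the augmentation of `D ⊗ D` -/
noncomputable def mu : TSq (DL u) →+ D :=
  TensorProduct.liftAddHom (R := ZMod 2) (M := DL u) (N := DL u)
    (AddMonoidHom.mk' (fun a : DL u => AddMonoidHom.mk' (fun b : DL u => star a.val * b.val)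
      (fun b b' => mul_add (star a.val : D) b.val b'.val)) (fun a a' => by
        refine AddMonoidHom.ext (fun b => ?_)
        change star (a.val + a'.val) * b.val = star a.val * b.val + star a'.val * b.val
        rw [star_add, add_mul]))
    (fun r a b => by
      have hc : ∀ y : ZMod 2, y = 0 ∨ y = 1 := by decide
      rcases hc r with rfl | rfl
      · rw [zero_smul, zero_smul, map_zero, map_zero]
        rfl
      · rw [one_smul, one_smul])

omit [MulSemiringAction Γ (ZMod 2)] in
theorem mu_tm (a b : DL u) : mu u (TSq.tm a b) = star a.val * b.val := rfl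

omit [MulSemiringAction Γ (ZMod 2)] in
theorem mu_smul (d : D) (t : TSq (DL u)) : mu u (d • t) = d * mu u t := by
  induction t using TSq.ind with
  | h0 => rw [smul_zero, map_zero, mul_zero]
  | ht a b =>
    rw [TS.smul_tm, mu_tm, mu_tm]
    change star (a.val * star d) * b.val = d * (star a.val * b.val)
    rw [star_mul, star_star, mul_assoc]
  | ha s t hs ht => rw [smul_add, map_add, map_add, mul_add, hs, ht]

omit [MulSemiringAction Γ (ZMod 2)] in
theorem mu_inv (hu : ∀ g, star (u g : D) = ((u g)⁻¹ : Dˣ)) (g : Γ) (t : TSq (DL u)) :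
    mu u (g • t) = mu u t := by
  induction t using TSq.ind with
  | h0 => rw [smul_zero]
  | ht a b =>
    rw [Pool.Agent.H68.TL.smul_tm, mu_tm, mu_tm]
    change star ((u g : D) * a.val) * ((u g : D) * b.val) = star a.val * b.val
    rw [star_mul, hu, mul_assoc, ← mul_assoc (((u g)⁻¹ : Dˣ) : D), Units.inv_mul, one_mul]
  | ha s t hs ht => rw [smul_add, map_add, map_add, hs, ht]

omit [MulSemiringAction Γ (ZMod 2)] in
theorem mu_theta (hu : ∀ g, star (u g : D) = ((u g)⁻¹ : Dˣ)) (a : RG Γ D) :
    mu u (theta u (RU.of u a)) = RG.eps a := by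
  induction a using RG.ind with
  | h0 =>
    change mu u (theta u 0) = _
    rw [map_zero, map_zero, map_zero]
  | h1 h d =>
    rw [theta_single, mu_tm, RG.eps_single]
    change star (u h : D) * ((u h : D) * d) = d
    rw [hu, ← mul_assoc, Units.inv_mul, one_mul]
  | h2 a b ha hb =>
    change mu u (theta u (RU.of u a + RU.of u b)) = _
    rw [map_add, map_add, map_add, ha, hb]

omit [StarRing D] in
theorem eps_st (g : Γ) (a : RG Γ D) : RG.eps (st u g a) = (u g : D) * RG.eps a := by
  induction a using RG.ind with
  | h0 => rw [map_zero, map_zero, mul_zero]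
  | h1 h d =>
    have h1 : st u g (RG.mk (Finsupp.single h d))
        = RG.mk (Finsupp.single (h * g⁻¹) ((u g : D) * d)) := by
      refine RG.ext (fun k => ?_)
      rw [st_apply, RG.co_mk, RG.co_mk]
      by_cases hk : k = h * g⁻¹
      · subst hk
        rw [inv_mul_cancel_right, Finsupp.single_eq_same, Finsupp.single_eq_same]
      · rw [Finsupp.single_eq_of_ne hk, Finsupp.single_eq_of_ne, mul_zero]
        intro h2
        apply hk
        rw [← h2, mul_inv_cancel_right]
    rw [h1, RG.eps_single, RG.eps_single]
  | h2 a b ha hb => rw [map_add, map_add, map_add, mul_add, ha, hb]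

end TS

end Pool.Agent.H47.CD
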