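import Mathlib

/-!
# helper47: the Γ-module `Γ →₀ D` with left translation

`RG Γ D`, `(g • a) h = a (g⁻¹ * h)`, `RG.eps a = ∑ h, a h`.
-/

namespace Pool.Agent.H47.CD

/-- finitely supported functions on the group -/
def RG (Γ D : Type) [AddCommGroup D] : Type := Γ →₀ D

section RG

variable {Γ D : Type} [AddCommGroup D]

noncomputable instance : AddCommGroup (RG Γ D) := inferInstanceAs (AddCommGroup (Γ →₀ D))

/-- as a finitely supported function -/
def RG.co (a : RG Γ D) : Γ →₀ D := a

/-- from a finitely supported function -/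
def RG.mk (a : Γ →₀ D) : RG Γ D := a

@[simp] theorem RG.co_mk (a : Γ →₀ D) : (RG.mk a).co = a := rfl

@[simp] theorem RG.mk_co (a : RG Γ D) : RG.mk a.co = a := rfl

theorem RG.ext {a b : RG Γ D} (h : ∀ g, a.co g = b.co g) : a = b := Finsupp.ext h

@[simp] theorem RG.co_zero : (0 : RG Γ D).co = 0 := rfl

@[simp] theorem RG.co_add (a b : RG Γ D) : (a + b).co = a.co + b.co := rfl

@[simp] theorem RG.co_neg (a : RG Γ D) : (-a).co = -a.co := rfl

@[simp] theorem RG.co_sub (a b : RG Γ D) : (a - b).co = a.co - b.co := rfl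

theorem RG.co_sum {ι : Type} (s : Finset ι) (f : ι → RG Γ D) :
    (∑ i ∈ s, f i).co = ∑ i ∈ s, (f i).co := by
  classical
  induction s using Finset.induction_on with
  | empty => simp
  | insert i s hi ih => rw [Finset.sum_insert hi, Finset.sum_insert hi, RG.co_add, ih]

/-- the augmentation -/
noncomputable def RG.eps : RG Γ D →+ D := Finsupp.liftAddHom (fun _ => AddMonoidHom.id D)

theorem RG.eps_def (a : RG Γ D) : RG.eps a = a.co.sum (fun _ d => d) := rfl

theorem RG.eps_single (g : Γ) (d : D) : RG.eps (RG.mk (Finsupp.single g d)) = d := by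
  rw [RG.eps_def, RG.co_mk, Finsupp.sum_single_index rfl]

@[elab_as_elim]
theorem RG.ind {P : RG Γ D → Prop} (a : RG Γ D) (h0 : P 0)
    (h1 : ∀ g d, P (RG.mk (Finsupp.single g d))) (h2 : ∀ a b, P a → P b → P (a + b)) : P a :=
  Finsupp.induction_linear (motive := P) a h0 h2 h1

theorem RG.hom_ext {M : Type} [AddCommGroup M] {f f' : RG Γ D →+ M}
    (h : ∀ g d, f (RG.mk (Finsupp.single g d)) = f' (RG.mk (Finsupp.single g d))) : f = f' :=
  Finsupp.addHom_ext h

variable [Group Γ]

noncomputable instance : DistribMulAction Γ (RG Γ D) where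
  smul g a := RG.mk (Finsupp.equivMapDomain (Equiv.mulLeft g) a.co)
  one_smul a := by
    refine RG.ext (fun h => ?_)
    change (Finsupp.equivMapDomain (Equiv.mulLeft (1 : Γ)) a.co) h = _
    rw [Finsupp.equivMapDomain_apply]
    change a.co ((1 : Γ)⁻¹ * h) = a.co h
    rw [inv_one, one_mul]
  mul_smul g g' a := by
    refine RG.ext (fun h => ?_)
    change (Finsupp.equivMapDomain (Equiv.mulLeft (g * g')) a.co) h
      = (Finsupp.equivMapDomain (Equiv.mulLeft g) (Finsupp.equivMapDomain (Equiv.mulLeft g') a.co)) h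
    rw [Finsupp.equivMapDomain_apply, Finsupp.equivMapDomain_apply, Finsupp.equivMapDomain_apply]
    change a.co ((g * g')⁻¹ * h) = a.co (g'⁻¹ * (g⁻¹ * h))
    rw [mul_inv_rev, mul_assoc]
  smul_zero g := by
    refine RG.ext (fun h => ?_)
    change (Finsupp.equivMapDomain (Equiv.mulLeft g) (0 : Γ →₀ D)) h = 0
    rw [Finsupp.equivMapDomain_apply]
    rfl
  smul_add g a b := by
    refine RG.ext (fun h => ?_)
    change (Finsupp.equivMapDomain (Equiv.mulLeft g) (a.co + b.co)) h
      = (Finsupp.equivMapDomain (Equiv.mulLeft g) a.co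
        + Finsupp.equivMapDomain (Equiv.mulLeft g) b.co) h
    rw [Finsupp.equivMapDomain_apply, Finsupp.add_apply, Finsupp.add_apply,
      Finsupp.equivMapDomain_apply, Finsupp.equivMapDomain_apply]

theorem RG.smul_apply (g : Γ) (a : RG Γ D) (h : Γ) : (g • a).co h = a.co (g⁻¹ * h) := by
  change (Finsupp.equivMapDomain (Equiv.mulLeft g) a.co) h = _
  rw [Finsupp.equivMapDomain_apply]
  simp

theorem RG.smul_single (g h : Γ) (d : D) :
    g • (RG.mk (Finsupp.single h d)) = RG.mk (Finsupp.single (g * h) d) := by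
  refine RG.ext (fun k => ?_)
  rw [RG.smul_apply, RG.co_mk, RG.co_mk]
  by_cases hk : k = g * h
  · subst hk
    rw [Finsupp.single_eq_same, inv_mul_cancel_left, Finsupp.single_eq_same]
  · rw [Finsupp.single_eq_of_ne hk, Finsupp.single_eq_of_ne]
    intro h2
    apply hk
    rw [← h2, mul_inv_cancel_left]

theorem RG.eps_smul (g : Γ) (a : RG Γ D) : RG.eps (g • a) = RG.eps a := by
  induction a using RG.ind with
  | h0 => rw [smul_zero]
  | h1 h d => rw [RG.smul_single, RG.eps_single, RG.eps_single]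
  | h2 a b ha hb => rw [smul_add, map_add, map_add, ha, hb]

end RG

end Pool.Agent.H47.CD
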