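import Pool.Agent.H47.CD.RegAlg
import Pool.Agent.H68.TL.Congr

/-!
# helper47: B4, the cochain functor and the base change; `exb_of_transport`
-/

namespace Pool.Agent.H47.CD

open Pool.Agent.H68.TL Module
open Pool.Agent.H68.TL.CC (DL Orb orb rv)

set_option linter.unusedSectionVars false

section KS

variable {V X Γ : Type} [DecidableEq V] [Group Γ] [MulAction Γ X] (C : CC V X Γ)

section One

variable {S A : Type} [Ring S] [AddCommGroup A] [DistribMulAction Γ A] [Module S A]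
  (hc : ∀ (s : S) (g : Γ) (a : A), s • (g • a) = g • (s • a))

/-- the equivariant chains as a module over `S` -/
def KS (m : ℕ) : Submodule S (X → Finset V → A) where
  carrier := {f | f ∈ C.K A m}
  zero_mem' := (C.K A m).zero_mem
  add_mem' := fun h h' => (C.K A m).add_mem h h'
  smul_mem' s f hf := by
    refine ⟨fun x t h0 => ?_, fun x t v ht hv => ?_, fun g x t => ?_⟩
    · refine CC.K_supp (x := x) hf (fun h1 => h0 ?_)
      change s • f x t = 0
      rw [h1, smul_zero]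
    · change s • f (C.tau v x) t = s • f x t
      rw [CC.K_tau hf ht hv]
    · change s • f (g • x) t = g • (s • f x t)
      rw [CC.K_smul hf, hc]

/-- coordinates -/
noncomputable def evL (m : ℕ) : KS C hc m ≃ₗ[S] (C.Cell m → A) where
  toFun f := C.ev m f.1
  map_add' _ _ := rfl
  map_smul' _ _ := rfl
  invFun φ := ⟨C.mkc m φ, C.mkc_mem φ⟩
  left_inv f := Subtype.ext (C.mkc_ev f.2)
  right_inv φ := C.ev_mkc φ

/-- basis of the chains -/
noncomputable def basisK {κ : Type} (b : Basis κ S A) (m : ℕ) [Fintype (C.Cell m)] :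
    Basis (Σ _ : C.Cell m, κ) S (KS C hc m) :=
  (Pi.basis (fun _ : C.Cell m => b)).map (evL C hc m).symm

open Classical in
theorem ev_basisK {κ : Type} (b : Basis κ S A) (m : ℕ) [Fintype (C.Cell m)]
    (i : Σ _ : C.Cell m, κ) :
    C.ev m (basisK C hc b m i).1 = Pi.single i.1 (b i.2) := by
  have h1 : evL C hc m (basisK C hc b m i) = Pi.single i.1 (b i.2) := by
    rw [basisK, Basis.map_apply, LinearEquiv.apply_symm_apply, Pi.basis_apply]
  exact h1

/-- the boundary -/
def bdL [Fintype V] (m : ℕ) : KS C hc (m + 1) →ₗ[S] KS C hc m where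
  toFun f := ⟨CC.bdy f.1, CC.bdy_mem f.2⟩
  map_add' f g := Subtype.ext (map_add CC.bdy f.1 g.1)
  map_smul' s f := by
    refine Subtype.ext ?_
    funext x t
    change ∑ v ∈ Finset.univ.filter (· ∉ t), s • f.1 x (insert v t)
      = s • ∑ v ∈ Finset.univ.filter (· ∉ t), f.1 x (insert v t)
    rw [Finset.smul_sum]

theorem coe_bdL [Fintype V] (m : ℕ) (f : KS C hc (m + 1)) : (bdL C hc m f).1 = CC.bdy f.1 := rfl

end One

section Two

variable {S S' A A' : Type} [Ring S] [Ring S'] [AddCommGroup A] [DistribMulAction Γ A]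
  [Module S A] [AddCommGroup A'] [DistribMulAction Γ A'] [Module S' A']
  (hc : ∀ (s : S) (g : Γ) (a : A), s • (g • a) = g • (s • a))
  (hc' : ∀ (s : S') (g : Γ) (a : A'), s • (g • a) = g • (s • a))
  (Φ : S →+* S') (θ : A →+ A') (hθ : ∀ (g : Γ) a, θ (g • a) = g • θ a)
  (hs : ∀ (s : S) a, θ (s • a) = Φ s • θ a)

/-- the map induced on chains -/
def jK (m : ℕ) : KS C hc m →ₛₗ[Φ] KS C hc' m where
  toFun f := ⟨CC.post θ f.1, C.post_mem θ hθ f.2⟩
  map_add' f g := Subtype.ext (map_add (CC.post θ) f.1 g.1)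
  map_smul' s f := by
    refine Subtype.ext ?_
    funext x t
    exact hs s (f.1 x t)

theorem coe_jK (m : ℕ) (f : KS C hc m) (x : X) (t : Finset V) :
    (jK C hc hc' Φ θ hθ hs m f).1 x t = θ (f.1 x t) := rfl

theorem isBC_jK {κ : Type} (b : Basis κ S A) (b' : Basis κ S' A') (hb : ∀ k, b' k = θ (b k))
    (m : ℕ) [Fintype (C.Cell m)] : IsBC Φ (jK C hc hc' Φ θ hθ hs m) := by
  classical
  refine ⟨Σ _ : C.Cell m, κ, basisK C hc b m, basisK C hc' b' m, fun i => ?_⟩
  refine Subtype.ext (C.ev_inj (basisK C hc' b' m i).2 (jK C hc hc' Φ θ hθ hs m _).2 ?_)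
  rw [ev_basisK]
  funext c
  change _ = θ (C.ev m (basisK C hc b m i).1 c)
  rw [ev_basisK]
  by_cases h : c = i.1
  · subst h
    rw [Pi.single_eq_same, Pi.single_eq_same, hb]
  · rw [Pi.single_eq_of_ne h, Pi.single_eq_of_ne h, map_zero]

end Two

end KS

section Aug

variable {V X Γ : Type} [DecidableEq V] [Fintype V] [Group Γ] [MulAction Γ X] (C : CC V X Γ)
  [Fintype (CC.Orb X Γ)]

theorem tauO_ne (v : V) (q : CC.Orb X Γ) : C.tauO v q ≠ q := by
  intro h
  have h1 : CC.orb Γ (C.tau v (CC.rv q)) = CC.orb Γ (CC.rv q) := by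
    rw [← CC.tauO_orb, CC.orb_rv]
    exact h
  obtain ⟨g, hg⟩ := CC.orb_eq h1
  have h2 := C.crd_self v (CC.rv q)
  rw [← hg, C.smul_crd] at h2
  revert h2
  cases C.crd (CC.rv q) v <;> decide

/-- the augmentation of a boundary vanishes -/
theorem aug_bdy {A B : Type} [AddCommGroup A] [DistribMulAction Γ A] [AddCommGroup B]
    (two : ∀ b : B, b + b = 0) (ε : A →+ B) (hε : ∀ (g : Γ) a, ε (g • a) = ε a)
    {F : X → Finset V → A} (hF : F ∈ C.K A 1) :
    ∑ q : CC.Orb X Γ, ε (CC.bdy F (CC.rv q) ∅) = 0 := by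
  have h1 : ∀ q : CC.Orb X Γ, ε (CC.bdy F (CC.rv q) ∅)
      = ∑ v ∈ Finset.univ.filter (· ∉ (∅ : Finset V)), ε (F (CC.rv q) (insert v ∅)) := by
    intro q
    rw [CC.bdy_apply, map_sum]
  rw [Finset.sum_congr rfl (fun q _ => h1 q), Finset.sum_comm]
  refine Finset.sum_eq_zero (fun v _ => ?_)
  have hinv : ∀ (g : Γ) (x : X), ε (F (g • x) (insert v ∅)) = ε (F x (insert v ∅)) := by
    intro g x
    rw [CC.K_smul hF, hε]
  have hclq : C.Clq (insert v ∅) := by
    intro a ha b hb hab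
    rw [Finset.mem_insert] at ha hb
    rcases ha with rfl | ha
    · rcases hb with rfl | hb
      · exact absurd rfl hab
      · exact absurd hb (Finset.notMem_empty _)
    · exact absurd ha (Finset.notMem_empty _)
  refine Finset.sum_involution (fun q _ => C.tauO v q) ?_ ?_ (fun q _ => Finset.mem_univ _) ?_
  · intro q _
    have h2 : ε (F (CC.rv (C.tauO v q)) (insert v ∅)) = ε (F (CC.rv q) (insert v ∅)) := by
      have h3 : C.tauO v q = CC.orb Γ (C.tau v (CC.rv q)) := by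
        rw [← CC.tauO_orb, CC.orb_rv]
      rw [h3]
      rw [C.inv_rv (G := fun x => ε (F x (insert v ∅))) hinv]
      rw [CC.K_tau hF hclq (Finset.mem_insert_self v ∅)]
    rw [h2]
    exact two _
  · intro q _ _
    exact tauO_ne C v q
  · intro q _
    exact C.tauO_tauO v q

end Aug

section Main

variable {V X Γ : Type} [DecidableEq V] [Fintype V] [Group Γ] [MulAction Γ X] (C : CC V X Γ)
  [Fintype (CC.Orb X Γ)] {D : Type} [DivisionRing D] [StarRing D] [Module (ZMod 2) D]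
  [MulSemiringAction Γ (ZMod 2)] (u : Γ →* Dˣ)

theorem bdy_bdy {A : Type} [AddCommGroup A] (two : ∀ a : A, a + a = 0)
    (f : X → Finset V → A) : CC.bdy (CC.bdy f) = 0 := by
  funext x t
  change ∑ v ∈ Finset.univ.filter (· ∉ t), ∑ w ∈ Finset.univ.filter (· ∉ insert v t),
    f x (insert w (insert v t)) = 0
  rw [Finset.sum_sigma']
  refine Finset.sum_involution (fun p _ => ⟨p.2, p.1⟩) ?_ ?_ ?_ ?_
  · rintro ⟨a, b⟩ _
    change f x (insert b (insert a t)) + f x (insert a (insert b t)) = 0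
    rw [Finset.insert_comm a b t]
    exact two _
  · rintro ⟨a, b⟩ h _ heq
    simp only [Finset.mem_sigma, Finset.mem_filter, Finset.mem_univ, true_and,
      Finset.mem_insert, not_or] at h
    simp only [Sigma.mk.injEq, heq_eq_eq] at heq
    exact h.2.1 heq.1
  · rintro ⟨a, b⟩ h
    simp only [Finset.mem_sigma, Finset.mem_filter, Finset.mem_univ, true_and,
      Finset.mem_insert, not_or] at h ⊢
    exact ⟨h.2.2, Ne.symm h.2.1, h.1⟩
  · rintro ⟨a, b⟩ _
    rfl

/-- the augmentation of the resolution -/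
noncomputable def piR (hu : ∀ g, star (u g : D) = ((u g)⁻¹ : Dˣ))
    (Φ : SkewMonoidAlgebra (ZMod 2) Γ →+* D)
    (hΦ : ∀ g, Φ (SkewMonoidAlgebra.single g 1) = u g) :
    KS C (RU.smul_smul_comm u) 0 →ₛₗ[Φ] D where
  toFun F := ∑ q : CC.Orb X Γ, RG.eps (F.1 (CC.rv q) ∅).to
  map_add' F G := by
    rw [← Finset.sum_add_distrib]
    refine Finset.sum_congr rfl (fun q _ => ?_)
    exact map_add RG.eps (F.1 (CC.rv q) ∅).to (G.1 (CC.rv q) ∅).to
  map_smul' s F := by
    rw [smul_eq_mul, Finset.mul_sum]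
    refine Finset.sum_congr rfl (fun q _ => ?_)
    change RG.eps (s • (F.1 (CC.rv q) ∅)).to = Φ s * RG.eps (F.1 (CC.rv q) ∅).to
    rw [← mu_theta u hu, ← mu_theta u hu, ← mu_smul]
    congr 1
    exact theta_semilinear u hu Φ hΦ s _

/-- the augmentation of the base change -/
noncomputable def piT : KS C (TS.smul_smul_comm u) 0 →ₗ[D] D where
  toFun F := ∑ q : CC.Orb X Γ, mu u (F.1 (CC.rv q) ∅)
  map_add' F G := by
    rw [← Finset.sum_add_distrib]
    refine Finset.sum_congr rfl (fun q _ => ?_)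
    exact map_add (mu u) (F.1 (CC.rv q) ∅) (G.1 (CC.rv q) ∅)
  map_smul' s F := by
    rw [RingHom.id_apply, smul_eq_mul, Finset.mul_sum]
    refine Finset.sum_congr rfl (fun q _ => ?_)
    exact mu_smul u s _

/-- **B4.** Transport along `F₂[Γ] → D` gives the acyclicity of `D ⊗ D`. -/
theorem exb_of_transport [Nonempty X] (hu : ∀ g, star (u g : D) = ((u g)⁻¹ : Dˣ))
    (Φ : SkewMonoidAlgebra (ZMod 2) Γ →+* D)
    (hΦ : ∀ g, Φ (SkewMonoidAlgebra.single g 1) = u g) (T : Transport Φ)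
    (ex1 : ∀ m, C.Exb (RG Γ D) (m + 1))
    (ex0 : ∀ F ∈ C.K (RG Γ D) 0, ∑ q : CC.Orb X Γ, RG.eps (F (CC.rv q) ∅) = 0 →
      ∃ G ∈ C.K (RG Γ D) 1, CC.bdy G = F) :
    ∀ i, 0 < i → C.Exb (TSq (DL u)) i := by
  classical
  obtain ⟨κ, β⟩ := Module.Free.exists_basis (R := ZMod 2) (M := D)
  obtain ⟨b, hb⟩ := exists_basisRU u β
  obtain ⟨b', hb'⟩ := exists_basisTS u β
  have hbb : ∀ k, b' k = theta u (b k) := by
    intro k
    rw [hb, hb', theta_single, map_one, Units.val_one, one_mul]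
  have twoD : ∀ a : D, a + a = 0 := fun a => two_eq a
  have twoR : ∀ a : RU u, a + a = 0 := fun a => two_eq a
  have hT := T (fun i => KS C (RU.smul_smul_comm u) i) (fun i => KS C (TS.smul_smul_comm u) i) D
    (fun i => bdL C (RU.smul_smul_comm u) i) (fun i => bdL C (TS.smul_smul_comm u) i)
    (fun i => jK C (RU.smul_smul_comm u) (TS.smul_smul_comm u) Φ (theta u) (theta_equivariant u)
      (theta_semilinear u hu Φ hΦ) i) (piR C u hu Φ hΦ) (piT C u)
    (fun i => isBC_jK C _ _ Φ (theta u) _ _ b b' hbb i)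
    ?_ ?_ ?_ ?_ ?_ ?_ ?_
  · intro i hi F hF hF0
    obtain ⟨i, rfl⟩ : ∃ j, i = j + 1 := ⟨i - 1, by omega⟩
    obtain ⟨G, hG⟩ := hT.1 i ⟨F, hF⟩ (Subtype.ext hF0)
    exact ⟨G.1, G.2, congrArg Subtype.val hG⟩
  · intro i F
    exact Subtype.ext (CC.post_bdy (theta u) F.1).symm
  · intro F
    refine Finset.sum_congr rfl (fun q _ => ?_)
    exact mu_theta u hu (F.1 (CC.rv q) ∅).to
  · intro i F
    exact Subtype.ext (bdy_bdy twoR F.1)
  · intro i F hF
    obtain ⟨G, hG, hGF⟩ := ex1 i F.1 F.2 (congrArg Subtype.val hF)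
    exact ⟨⟨G, hG⟩, Subtype.ext hGF⟩
  · intro F
    exact aug_bdy C twoD (RG.eps : RG Γ D →+ D) (fun g a => RG.eps_smul g a) (F := F.1) F.2
  · intro F hF
    obtain ⟨G, hG, hGF⟩ := ex0 F.1 F.2 hF
    exact ⟨⟨G, hG⟩, Subtype.ext hGF⟩
  · intro d
    obtain ⟨x0⟩ := (inferInstance : Nonempty X)
    have hcell : ∀ q : CC.Orb X Γ, C.Clq ∅ ∧ (∅ : Finset V).card = 0
        ∧ ∀ v ∈ (∅ : Finset V), C.crd (CC.rv q) v = false := by
      intro q
      refine ⟨fun a ha => absurd ha (Finset.notMem_empty a), rfl,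
        fun a ha => absurd ha (Finset.notMem_empty a)⟩
    let cell : CC.Orb X Γ → C.Cell 0 := fun q => ⟨(q, ∅), hcell q⟩
    have hinj : Function.Injective cell := by
      intro q q' h
      exact congrArg (fun c : C.Cell 0 => c.1.1) h
    let φ : C.Cell 0 → RU u :=
      Pi.single (cell (CC.orb Γ x0)) (RU.of u (RG.mk (Finsupp.single 1 d)))
    refine ⟨⟨C.mkc 0 φ, C.mkc_mem φ⟩, ?_⟩
    have h1 : ∀ q : CC.Orb X Γ, C.mkc 0 φ (CC.rv q) ∅ = φ (cell q) := by
      intro q
      exact congrFun (C.ev_mkc φ) (cell q)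
    change ∑ q : CC.Orb X Γ, RG.eps (C.mkc 0 φ (CC.rv q) ∅).to = d
    rw [Finset.sum_eq_single (CC.orb Γ x0)]
    · rw [h1]
      change RG.eps ((Pi.single (cell (CC.orb Γ x0)) (RU.of u (RG.mk (Finsupp.single 1 d))) :
        C.Cell 0 → RU u) (cell (CC.orb Γ x0))).to = d
      rw [Pi.single_eq_same]
      exact RG.eps_single 1 d
    · intro q _ hq
      rw [h1]
      change RG.eps ((Pi.single (cell (CC.orb Γ x0)) (RU.of u (RG.mk (Finsupp.single 1 d))) :
        C.Cell 0 → RU u) (cell q)).to = 0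
      rw [Pi.single_eq_of_ne (fun h => hq (hinj h))]
      exact map_zero RG.eps
    · intro h
      exact absurd (Finset.mem_univ _) h

end Main

end Pool.Agent.H47.CD
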