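import Pool.Agent.H47.CD.RegK
import Pool.Agent.H63.FC.RegExact
import Pool.Agent.H68.TL.RA

/-!
# helper47: B4 for every graph, and the right-angled theorem
-/

namespace Pool.Agent.H47.CD

open Pool.Agent.H68.TL Pool.Agent.H3.PF Pool.Agent.H75.Davis Pool.Agent.H96.CD

theorem skToMa_bijective {E G : Type} [CommRing E] [Group G] [MulSemiringAction G E]
    (ht : ∀ (g : G) (e : E), g • e = e) : Function.Bijective (skToMa ht) := by
  have h1 : (skToMa ht).comp (maToSk ht) = RingHom.id _ := by
    refine MonoidAlgebra.ringHom_ext (fun r => ?_) (fun m => ?_)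
    · rw [RingHom.comp_apply, maToSk_single, skToMa_single]; rfl
    · rw [RingHom.comp_apply, maToSk_single, skToMa_single]; rfl
  have h2 : (maToSk ht).comp (skToMa ht) = RingHom.id _ := by
    refine skHom_ext (fun g e => ?_)
    rw [RingHom.comp_apply, skToMa_single, maToSk_single]; rfl
  exact Function.bijective_iff_has_inverse.2 ⟨maToSk ht, RingHom.congr_fun h2, RingHom.congr_fun h1⟩

/-- **B4** for every graph. -/
theorem b4 (V : Type) [LinearOrder V] [Fintype V] (G : SimpleGraph V) [DecidableRel G.Adj] :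
    B4 G := by
  intro D _ _ _ u Φ hu hΦ T
  let _ : MulSemiringAction (gm G) (ZMod 2) := trivAct (gm G) (ZMod 2)
  have ht : ∀ (g : gm G) (e : ZMod 2), g • e = e := fun _ _ => rfl
  let _ : Fintype (CC.Orb (RW G.Adj (fun _ _ h => SimpleGraph.Adj.symm h)) (gm G)) :=
    fintypeOrb (rd G) (gm G) (mem_gm G)
  have hone : (rd G).len 1 = 0 := Pool.Agent.H63.FC.rdata_len_one G.Adj _ _
  refine exb_of_transport (dv G) u hu (Φ.comp (skToMa ht)) ?_
    (Transport.comp _ _ (Transport.of_bijective _ (skToMa_bijective ht)) T) ?_ ?_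
  · intro g
    rw [RingHom.comp_apply, skToMa_single, hΦ]
  · intro m
    exact Pool.Agent.H63.FC.exb_RG (rd G) (gm G) (mem_gm G) hone m
  · intro F hF h0
    exact Pool.Agent.H63.FC.ex0_RG (rd G) (gm G) (mem_gm G) hone hF h0

/-- **The right-angled theorem**: `(-1)^n κ ≥ 0` for every flag generalised homology sphere of
rank `2n`. -/
theorem ra (V : Type) [Fintype V] [DecidableEq V] (G : SimpleGraph V) (n : ℕ)
    (hS : Pool.H8.CDW.Sphere G (2 * n)) : 0 ≤ (-1 : ℚ) ^ n * Pool.H8.CDW.kap G ∅ :=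
  RA_of (fun V _ _ G _ => b4 V G) V G n hS

end Pool.Agent.H47.CD
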