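import Pool.Agent.H47.CD.Bridge

/-!
# helper47: transport for the block field of a free group

`S : Series E (FreeGroup X) L`, `DC S` the division closure in `L` of the skew group ring, `phi S` the embedding.
`transport_phi`: `phi S` transports resolutions.
-/

namespace Pool.Agent.H47.CD

open Pool.Agent.H54.MNS

section Gen

variable {E G L : Type} [DivisionRing E] [Group G] [MulSemiringAction G E] [DivisionRing L]
  (S : Series E G L)

/-- division closure of the skew group ring in the series field -/
def DC : Subfield L := Subfield.closure (Set.range S.ofSkew)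

/-- the embedding of the skew group ring -/
noncomputable def phi : SkewMonoidAlgebra E G →+* DC S :=
  S.ofSkew.codRestrict (DC S) (fun x => Subfield.subset_closure ⟨x, rfl⟩)

theorem coe_phi (a : SkewMonoidAlgebra E G) : (phi S a : L) = S.ofSkew a := rfl

theorem phi_injective : Function.Injective (phi S) := by
  intro a b h
  apply S.ofSkew_injective
  rw [← coe_phi, ← coe_phi, h]

/-- `DC S` is generated by the skew group ring under ring operations and inverses -/
theorem DC_gen (T : Subring (DC S)) (h1 : ∀ s, phi S s ∈ T) (h2 : ∀ y ∈ T, y⁻¹ ∈ T) : T = ⊤ := by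
  let T' : Subfield L :=
    { T.map (DC S).subtype with
      inv_mem' := by
        rintro _ ⟨y, hy, rfl⟩
        refine ⟨y⁻¹, h2 y hy, ?_⟩
        exact map_inv₀ (DC S).subtype y }
  have h3 : DC S ≤ T' := by
    refine Subfield.closure_le.2 ?_
    rintro _ ⟨a, rfl⟩
    exact ⟨phi S a, h1 a, rfl⟩
  rw [eq_top_iff]
  intro y _
  obtain ⟨z, hz, hzy⟩ := h3 y.2
  have : z = y := Subtype.ext hzy
  rwa [← this]

/-- the coefficient ring -/
noncomputable def eps (E G : Type) [DivisionRing E] [Group G] [MulSemiringAction G E] :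
    E →+* SkewMonoidAlgebra E G := SkewMonoidAlgebra.singleOneRingHom

/-- the group elements -/
noncomputable def gu (E : Type) {G : Type} [DivisionRing E] [Group G] [MulSemiringAction G E]
    (g : G) : (SkewMonoidAlgebra E G)ˣ where
  val := SkewMonoidAlgebra.single g 1
  inv := SkewMonoidAlgebra.single g⁻¹ 1
  val_inv := by
    rw [SkewMonoidAlgebra.single_mul_single, smul_one, mul_one, mul_inv_cancel]
    rfl
  inv_val := by
    rw [SkewMonoidAlgebra.single_mul_single, smul_one, mul_one, inv_mul_cancel]
    rfl

theorem coe_gu (g : G) : (gu E g : SkewMonoidAlgebra E G) = SkewMonoidAlgebra.single g 1 := rfl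

theorem coe_gu_inv (g : G) : (↑(gu E g)⁻¹ : SkewMonoidAlgebra E G) = SkewMonoidAlgebra.single g⁻¹ 1 :=
  rfl

theorem eps_apply (e : E) : eps E G e = SkewMonoidAlgebra.single 1 e := rfl

theorem gu_eps (g : G) (e : E) : (gu E g : SkewMonoidAlgebra E G) * eps E G e
    = eps E G (g • e) * gu E g := by
  rw [coe_gu, eps_apply, eps_apply, SkewMonoidAlgebra.single_mul_single,
    SkewMonoidAlgebra.single_mul_single, one_mul, mul_one, one_mul, one_smul, mul_one]

theorem single_eq (g : G) (e : E) : SkewMonoidAlgebra.single g e = eps E G e * gu E g := by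
  rw [coe_gu, eps_apply, SkewMonoidAlgebra.single_mul_single, one_mul, one_smul, mul_one]

end Gen

section Free

variable {E X L : Type} [DivisionRing E] [MulSemiringAction (FreeGroup X) E] [DivisionRing L]
  (S : Series E (FreeGroup X) L)

theorem gen_skew (T : Subring (SkewMonoidAlgebra E (FreeGroup X)))
    (h1 : ∀ e, eps E (FreeGroup X) e ∈ T)
    (h2 : ∀ i : X, (gu E (FreeGroup.of i) : SkewMonoidAlgebra E (FreeGroup X)) ∈ T)
    (h3 : ∀ i : X, (↑(gu E (FreeGroup.of i))⁻¹ : SkewMonoidAlgebra E (FreeGroup X)) ∈ T) :
    T = ⊤ := by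
  have h4 : ∀ g : FreeGroup X, (SkewMonoidAlgebra.single g (1 : E)) ∈ T := by
    intro g
    induction g using FreeGroup.induction_on with
    | C1 => exact T.one_mem
    | of i => exact h2 i
    | inv_of i _ => exact h3 i
    | mul g h hg hh =>
      have := T.mul_mem hg hh
      rwa [SkewMonoidAlgebra.single_mul_single, smul_one, mul_one] at this
  rw [eq_top_iff]
  intro a _
  induction a using SkewMonoidAlgebra.induction_on with
  | zero => exact T.zero_mem
  | single g e =>
    rw [single_eq]
    exact T.mul_mem (h1 e) (h4 g)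
  | add a b ha hb => exact T.add_mem (ha trivial) (hb trivial)

/-- **Transport for the block field.** -/
theorem transport_phi : Transport (phi S) := by
  obtain ⟨C, ⟨R⟩⟩ := exists_rbasis ((phi S).comp (eps E (FreeGroup X)))
  have hC : ∀ e : E, ((phi S (eps E (FreeGroup X) e) : DC S) : L) = S.C e := by
    intro e
    rw [coe_phi, eps_apply, S.ofSkew_single, map_one, Units.val_one, mul_one]
  have hU : ∀ g : FreeGroup X, ((phi S (gu E g) : DC S) : L) = S.U g := by
    intro g
    rw [coe_phi, coe_gu, S.ofSkew_single, map_one, one_mul]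
  have hU' : ∀ g : FreeGroup X, ((phi S ((gu E g)⁻¹ : (SkewMonoidAlgebra E (FreeGroup X))ˣ) : DC S) : L)
      = ((S.U g)⁻¹ : Lˣ) := by
    intro g
    rw [coe_phi, coe_gu_inv, S.ofSkew_single, map_one, one_mul, map_inv]
  refine block_transport R (fun i : X => gu E (FreeGroup.of i))
    (a := fun i => MulSemiringAction.toRingEquiv (FreeGroup X) E (FreeGroup.of i))
    (fun i e => gu_eps _ e) (phi_injective S) gen_skew (DC_gen S) ?_
  let j : DC S →+ L := (DC S).subtype.toAddMonoidHom
  have hj : ∀ y, j y = (y : L) := fun _ => rfl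
  let t : DC S →+ DC S →+ (FreeGroup X × FreeGroup X → E) :=
    (AddMonoidHom.compHom' j).comp (S.t.comp j)
  have ht : ∀ y z : DC S, t y z = S.t (y : L) (z : L) := fun _ _ => rfl
  refine injJ_of_tensor R _ t ?_ ?_ ?_
  · intro b e z
    rw [ht, ht, Subfield.coe_mul, Subfield.coe_mul, hC, S.t_bal]
  · intro ι s y z hz h0 i hi
    have := S.t_ind s (fun i => (y i : L)) (fun i => (z i : L)) (by
      intro e he
      refine hz e ?_
      apply Subtype.ext
      rw [Subfield.coe_zero, ← he]
      rw [← Subfield.coe_subtype, map_sum]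
      refine Finset.sum_congr rfl (fun i _ => ?_)
      rw [map_mul, Subfield.coe_subtype, hC]) h0 i hi
    exact Subtype.ext this
  · intro κ s k y z h0 a
    refine S.t_Jinj s k (fun i => (y i : L)) (fun i => (z i : L)) ?_ a
    rw [← h0]
    refine Finset.sum_congr rfl (fun i _ => ?_)
    rw [ht, ht, Subfield.coe_mul, Subfield.coe_mul, hU, hU']

end Free

end Pool.Agent.H47.CD
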