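import Mathlib

/-!
# helper47: the abstract Tate argument

`X p q`: a double complex in characteristic `2` with a swap `T` exchanging the two differentials, `Y p` a complex,
`t p : X p p → Y p` a 'trace'. If the total complex of `X` is exact in positive degrees, `Y` is exact in degrees `> j`
and `ψ i` is a sequence of chains of total degree `s + i`, `s > 0`, with `D ψ 0 = 0`, `D ψ (i+1) = (1 + T) ψ i`, `ψ i = 0` for
`i > N`, then `t (ψ N j j)` is a boundary.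
-/

namespace Pool.Agent.H47.CD

universe u v

/-- the data: double complex with swap, target complex and trace -/
structure Tate (X : ℕ → ℕ → Type u) [∀ p q, AddCommGroup (X p q)] (Y : ℕ → Type v)
    [∀ p, AddCommGroup (Y p)] where
  dl : ∀ p q, X (p + 1) q →+ X p q
  dr : ∀ p q, X p (q + 1) →+ X p q
  T : ∀ p q, X p q →+ X q p
  dY : ∀ p, Y (p + 1) →+ Y p
  t : ∀ p, X p p →+ Y p
  two : ∀ p q (w : X p q), w + w = 0
  twoY : ∀ p (w : Y p), w + w = 0
  dldl : ∀ p q (w : X (p + 1 + 1) q), dl p q (dl (p + 1) q w) = 0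
  drdr : ∀ p q (w : X p (q + 1 + 1)), dr p q (dr p (q + 1) w) = 0
  comm : ∀ p q (w : X (p + 1) (q + 1)), dl p q (dr (p + 1) q w) = dr p q (dl p (q + 1) w)
  TT : ∀ p q (w : X p q), T q p (T p q w) = w
  Tdl : ∀ p q (w : X (p + 1) q), T p q (dl p q w) = dr q p (T (p + 1) q w)
  tT : ∀ p (w : X p p), t p (T p p w) = t p w
  t0 : ∀ p (w : X p p), T p p w = w → t p w = 0 → ∃ v, w = v + T p p v
  td : ∀ p (w : X (p + 1) (p + 1)), T _ _ w = w →
    t p (dl p p (dr (p + 1) p w)) = dY p (t (p + 1) w)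
  tsurj : ∀ p (b : Y p), ∃ w, T p p w = w ∧ t p w = b

namespace Tate

variable {X : ℕ → ℕ → Type u} [∀ p q, AddCommGroup (X p q)] {Y : ℕ → Type v}
  [∀ p, AddCommGroup (Y p)] (S : Tate X Y)

/-- total differential -/
def D (w : ∀ p q, X p q) (p q : ℕ) : X p q := S.dl p q (w (p + 1) q) + S.dr p q (w p (q + 1))

/-- swap of a family -/
def sw (w : ∀ p q, X p q) (p q : ℕ) : X p q := S.T q p (w q p)

theorem Tdr (p q : ℕ) (w : X p (q + 1)) : S.T p q (S.dr p q w) = S.dl q p (S.T p (q + 1) w) := by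
  have h := S.Tdl q p (S.T p (q + 1) w)
  rw [S.TT] at h
  rw [← h, S.TT]

theorem sw_sw (w : ∀ p q, X p q) : S.sw (S.sw w) = w := by
  funext p q
  exact S.TT _ _ _

theorem D_add (w w' : ∀ p q, X p q) : S.D (w + w') = S.D w + S.D w' := by
  funext p q
  simp only [D, Pi.add_apply, map_add]
  abel

theorem D_sw (w : ∀ p q, X p q) : S.D (S.sw w) = S.sw (S.D w) := by
  funext p q
  simp only [D, sw, map_add, S.Tdl, S.Tdr]
  abel

theorem sw_add (w w' : ∀ p q, X p q) : S.sw (w + w') = S.sw w + S.sw w' := by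
  funext p q
  simp only [sw, Pi.add_apply, map_add]

include S in
theorem two' (w : ∀ p q, X p q) : w + w = 0 := by
  funext p q
  exact S.two _ _ _

/-- a family concentrated in total degree `m` -/
def Hom (m : ℕ) (w : ∀ p q, X p q) : Prop := ∀ p q, p + q ≠ m → w p q = 0

/-- exactness of the total complex in positive degrees -/
def Exact : Prop := ∀ m, 0 < m → ∀ w : ∀ p q, X p q, Hom m w → S.D w = 0 →
  ∃ w', Hom (m + 1) w' ∧ S.D w' = w

theorem exists_chi (hex : S.Exact) {s : ℕ} (hs : 0 < s) (ψ : ℕ → ∀ p q, X p q)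
    (hψ : ∀ i, Hom (s + i) (ψ i)) (hψ0 : S.D (ψ 0) = 0)
    (hψ1 : ∀ i, S.D (ψ (i + 1)) = ψ i + S.sw (ψ i)) :
    ∃ χ : ℕ → ∀ p q, X p q, ∀ i, S.D (χ (i + 1)) = ψ i + χ i + S.sw (χ i) := by
  -- the invariant
  let R : ℕ → (∀ p q, X p q) → Prop := fun i w =>
    Hom (s + i) w ∧ S.D (ψ i + w + S.sw w) = 0
  have step : ∀ i w, R i w → ∃ w', R (i + 1) w' ∧ S.D w' = ψ i + w + S.sw w := by
    rintro i w ⟨h1, h2⟩
    obtain ⟨w', h3, h4⟩ := hex (s + i) (by omega) (ψ i + w + S.sw w) (by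
      intro p q hpq
      simp only [Pi.add_apply, sw]
      rw [hψ i p q hpq, h1 p q hpq, h1 q p (by omega)]
      simp) h2
    refine ⟨w', ⟨h3, ?_⟩, h4⟩
    rw [S.D_add, S.D_add, S.D_sw, hψ1, h4, S.sw_add, S.sw_add, S.sw_sw]
    have e1 := S.two' (ψ i)
    have e2 := S.two' w
    have e3 := S.two' (S.sw (ψ i))
    have e4 := S.two' (S.sw w)
    calc ψ i + S.sw (ψ i) + (ψ i + w + S.sw w) + (S.sw (ψ i) + S.sw w + w)
        = (ψ i + ψ i) + (w + w) + (S.sw (ψ i) + S.sw (ψ i)) + (S.sw w + S.sw w) := by abel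
      _ = 0 := by rw [e1, e2, e3, e4]; simp
  have base : R 0 0 := by
    refine ⟨fun p q _ => rfl, ?_⟩
    have : S.sw (0 : ∀ p q, X p q) = 0 := by
      funext p q
      simp [sw]
    rw [this, add_zero, add_zero, hψ0]
  let f : ∀ i, {w : ∀ p q, X p q // R i w} := fun i =>
    Nat.rec ⟨0, base⟩ (fun i w => ⟨Classical.choose (step i w.1 w.2),
      (Classical.choose_spec (step i w.1 w.2)).1⟩) i
  refine ⟨fun i => (f i).1, fun i => ?_⟩
  exact (Classical.choose_spec (step i (f i).1 (f i).2)).2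

/-- the diagonal elements -/
def y (χ : ℕ → ∀ p q, X p q) (i p : ℕ) : X p p := χ i p p + S.dr p p (χ (i + 1) p (p + 1))

theorem rel (ψ χ : ℕ → ∀ p q, X p q) (h : ∀ i, S.D (χ (i + 1)) = ψ i + χ i + S.sw (χ i))
    (i p : ℕ) :
    S.y χ i p + S.T p p (S.y χ i p) = ψ i p p + S.dl p p (S.dr (p + 1) p (S.y χ (i + 2) (p + 1)))
      + S.dl p p (ψ (i + 1) (p + 1) p) := by
  have h1 : S.dl p p (χ (i + 1) (p + 1) p) + S.dr p p (χ (i + 1) p (p + 1))
      = ψ i p p + χ i p p + S.T p p (χ i p p) := congrFun (congrFun (h i) p) p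
  have h2 : S.dl (p + 1) p (χ (i + 2) (p + 1 + 1) p) + S.dr (p + 1) p (χ (i + 2) (p + 1) (p + 1))
      = ψ (i + 1) (p + 1) p + χ (i + 1) (p + 1) p + S.T p (p + 1) (χ (i + 1) p (p + 1)) :=
    congrFun (congrFun (h (i + 1)) (p + 1)) p
  have h3 := congrArg (S.dl p p) h2
  rw [map_add, S.dldl, zero_add, map_add, map_add, ← S.Tdr] at h3
  unfold y
  rw [map_add, map_add, map_add, S.drdr, map_zero, add_zero, h3]
  have e1 := S.two _ _ (χ i p p)
  have e2 := S.two _ _ (S.dr p p (χ (i + 1) p (p + 1)))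
  have e3 := S.two _ _ (S.dl p p (ψ (i + 1) (p + 1) p))
  have e4 := S.two _ _ (ψ i p p)
  have h1' : χ i p p + S.T p p (χ i p p) = ψ i p p + (S.dl p p (χ (i + 1) (p + 1) p)
      + S.dr p p (χ (i + 1) p (p + 1))) := by
    rw [h1]
    calc χ i p p + S.T p p (χ i p p) = (ψ i p p + ψ i p p) + (χ i p p + S.T p p (χ i p p)) := by
          rw [e4, zero_add]
      _ = _ := by abel
  calc χ i p p + S.dr p p (χ (i + 1) p (p + 1)) + (S.T p p (χ i p p)
        + S.T p p (S.dr p p (χ (i + 1) p (p + 1))))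
      = (χ i p p + S.T p p (χ i p p)) + S.dr p p (χ (i + 1) p (p + 1))
        + S.T p p (S.dr p p (χ (i + 1) p (p + 1))) := by abel
    _ = ψ i p p + S.dl p p (χ (i + 1) (p + 1) p) + (S.dr p p (χ (i + 1) p (p + 1))
        + S.dr p p (χ (i + 1) p (p + 1))) + S.T p p (S.dr p p (χ (i + 1) p (p + 1))) := by
          rw [h1']; abel
    _ = ψ i p p + S.dl p p (χ (i + 1) (p + 1) p) + S.T p p (S.dr p p (χ (i + 1) p (p + 1)))
        + (S.dl p p (ψ (i + 1) (p + 1) p) + S.dl p p (ψ (i + 1) (p + 1) p)) := by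
          rw [e2, e3, add_zero, add_zero]
    _ = _ := by abel

/-- downward induction: diagonal elements may be made invariant -/
theorem inv (χ ψ : ℕ → ∀ p q, X p q) (h : ∀ i, S.D (χ (i + 1)) = ψ i + χ i + S.sw (χ i))
    {M N j : ℕ} (hM : ∀ p, M < p → ∀ w : X p p, w = 0)
    (hY : ∀ p, j ≤ p → ∀ b : Y (p + 1), S.dY p b = 0 → ∃ c, S.dY (p + 1) c = b)
    (hN : ∀ i, N < i → ψ i = 0) :
    ∀ n p i, M < p + 1 + n → j ≤ p → N < i → ∃ y', S.T (p + 1) (p + 1) y' = y' ∧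
      S.dl p p (S.dr (p + 1) p y') = S.dl p p (S.dr (p + 1) p (S.y χ i (p + 1))) := by
  intro n
  induction n with
  | zero =>
    intro p i hp hj hi
    refine ⟨0, map_zero _, ?_⟩
    rw [hM (p + 1) (by omega) (S.y χ i (p + 1))]
  | succ n ih =>
    intro p i hp hj hi
    obtain ⟨y2, h1, h2⟩ := ih (p + 1) (i + 2) (by omega) (by omega) (by omega)
    have hr := S.rel ψ χ h i (p + 1)
    rw [hN i hi, hN (i + 1) (by omega), ← h2] at hr
    simp only [Pi.zero_apply, map_zero, zero_add, add_zero] at hr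
    have ht := congrArg (S.t (p + 1)) hr
    rw [map_add, S.tT, S.twoY, S.td _ _ h1] at ht
    obtain ⟨b, hb⟩ := hY (p + 1) (by omega) (S.t (p + 1 + 1) y2) ht.symm
    obtain ⟨β, hβ1, hβ2⟩ := S.tsurj _ b
    have hTd : ∀ q (w : X (q + 1) (q + 1)), S.T q q (S.dl q q (S.dr (q + 1) q w))
        = S.dl q q (S.dr (q + 1) q (S.T (q + 1) (q + 1) w)) := by
      intro q w
      rw [S.Tdl, S.Tdr, ← S.comm]
    have hdd : ∀ q (w : X (q + 1 + 1) (q + 1 + 1)),
        S.dl q q (S.dr (q + 1) q (S.dl (q + 1) (q + 1) (S.dr (q + 1 + 1) (q + 1) w))) = 0 := by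
      intro q w
      rw [← S.comm (q + 1) q, S.dldl]
    set y3 := y2 + S.dl (p + 1 + 1) (p + 1 + 1) (S.dr (p + 1 + 1 + 1) (p + 1 + 1) β) with hy3
    have hT3 : S.T _ _ y3 = y3 := by
      rw [hy3, map_add, h1, hTd, hβ1]
    have ht3 : S.t _ y3 = 0 := by
      rw [hy3, map_add, S.td _ _ hβ1, hβ2, hb, S.twoY]
    obtain ⟨v, hv⟩ := S.t0 _ y3 hT3 ht3
    have hd3 : S.dl (p + 1) (p + 1) (S.dr (p + 1 + 1) (p + 1) y3)
        = S.dl (p + 1) (p + 1) (S.dr (p + 1 + 1) (p + 1) y2) := by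
      rw [hy3, map_add, map_add, hdd, add_zero]
    set u := S.dl (p + 1) (p + 1) (S.dr (p + 1 + 1) (p + 1) v) with hu
    have hu2 : S.dl (p + 1) (p + 1) (S.dr (p + 1 + 1) (p + 1) y2) = u + S.T _ _ u := by
      rw [← hd3, hv, map_add, map_add, hTd]
    refine ⟨S.y χ i (p + 1) + u, ?_, ?_⟩
    · rw [map_add]
      rw [hu2] at hr
      have e1 := S.two _ _ (S.y χ i (p + 1))
      have e2 := S.two _ _ (S.T _ _ u)
      calc S.T (p + 1) (p + 1) (S.y χ i (p + 1)) + S.T _ _ u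
          = (S.y χ i (p + 1) + S.T _ _ (S.y χ i (p + 1))) + S.y χ i (p + 1) + S.T _ _ u := by
            calc _ = (S.y χ i (p + 1) + S.y χ i (p + 1)) + (S.T (p + 1) (p + 1) (S.y χ i (p + 1))
                  + S.T _ _ u) := by rw [e1, zero_add]
              _ = _ := by abel
        _ = S.y χ i (p + 1) + u + (S.T _ _ u + S.T _ _ u) := by rw [hr]; abel
        _ = _ := by rw [e2, add_zero]
    · rw [map_add, map_add, hu, hdd, add_zero]

/-- **The Tate argument.** -/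
theorem main (hex : S.Exact) {s M N j : ℕ} (hs : 0 < s) (hM : ∀ p, M < p → ∀ w : X p p, w = 0)
    (hY : ∀ p, j ≤ p → ∀ b : Y (p + 1), S.dY p b = 0 → ∃ c, S.dY (p + 1) c = b)
    (ψ : ℕ → ∀ p q, X p q) (hψ : ∀ i, Hom (s + i) (ψ i)) (hψ0 : S.D (ψ 0) = 0)
    (hψ1 : ∀ i, S.D (ψ (i + 1)) = ψ i + S.sw (ψ i)) (hN : ∀ i, N < i → ψ i = 0) :
    ∃ b : Y (j + 1), S.dY j b = S.t j (ψ N j j) := by
  obtain ⟨χ, hχ⟩ := S.exists_chi hex hs ψ hψ hψ0 hψ1
  obtain ⟨y', h1, h2⟩ := S.inv χ ψ hχ hM hY hN M j (N + 2) (by omega) le_rfl (by omega)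
  have hr := S.rel ψ χ hχ N j
  rw [hN (N + 1) (by omega), ← h2] at hr
  simp only [Pi.zero_apply, map_zero, add_zero] at hr
  have ht := congrArg (S.t j) hr
  rw [map_add, S.tT, S.twoY, map_add, S.td _ _ h1] at ht
  refine ⟨S.t (j + 1) y', ?_⟩
  calc S.dY j (S.t (j + 1) y') = S.dY j (S.t (j + 1) y') + (S.t j (ψ N j j) + S.dY j (S.t (j + 1) y')) := by
        rw [← ht, add_zero]
    _ = S.t j (ψ N j j) + (S.dY j (S.t (j + 1) y') + S.dY j (S.t (j + 1) y')) := by abel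
    _ = _ := by rw [S.twoY, add_zero]

end Tate

end Pool.Agent.H47.CD
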