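import Mathlib.Computability.NFA
import Mathlib.Data.List.Shortlex
import Mathlib.Algebra.Group.Submonoid.Membership
import Mathlib.Algebra.BigOperators.Group.List.Basic
import Mathlib.Data.Fintype.Option
import Mathlib.Algebra.Group.Pointwise.Finset.Basic
import Mathlib.Tactic.Group
import Mathlib.Tactic.Linarith
import Mathlib.Data.Set.Finite.Range
import Mathlib.Data.Set.Finite.Lemmas
import Mathlib.Data.Set.Finite.List

/-!
# Automatic structures on groups: definitions and the fellow traveller property

Definitions for the hand-in `MP_7de2ad_al.CoarseTrees` (same as in `MP_7de2ad_al.LargeAlphabets`).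
-/

namespace Pool.Agent.H47.CD

universe u v w

/-! ### Definitions used in the statement -/

/-- The element of `G` represented by a word over an alphabet `A` mapped to `G` by `ev`. -/
def value {G : Type u} [Group G] {A : Type v} (ev : A → G) (w : List A) : G := (w.map ev).prod

/-- The set of padded pairs `(u, v)` of words of `L` with `u * g = v` in `G`. The padded pair of
`u = a1 ... am` and `v = b1 ... bn` is the word of pairs `(a1, b1), (a2, b2), ...`, where the
shorter word is continued with the padding symbol `none`. -/
def multiplier {G : Type u} [Group G] {A : Type v} (ev : A → G) (L : Language A) (g : G) :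
    Language (Option A × Option A) :=
  {w | ∃ u ∈ L, ∃ v ∈ L, value ev u * g = value ev v ∧ w = List.zipWithAll Prod.mk u v}

/-- `L` is (the language of) an automatic structure on `G` over the alphabet `A`, mapped to `G`
by `ev`: the letters generate `G` as a monoid, `L` is regular and maps onto `G`, and for `x` a
letter or the empty word the pairs `(u, v)` of words of `L` with `u x = v` in `G` are recognised by
a finite automaton reading `u` and `v` synchronously. -/
structure IsAutomaticStructure {G : Type u} [Group G] {A : Type v} (ev : A → G)
    (L : Language A) : Prop where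
  generates : Submonoid.closure (Set.range ev) = ⊤
  regular : L.IsRegular
  onto : ∀ g : G, ∃ w ∈ L, value ev w = g
  equality : (multiplier ev L 1).IsRegular
  multiply : ∀ x : A, (multiplier ev L (ev x)).IsRegular

/-- Every initial segment of a word of `L` lies in `L`. -/
def PrefixClosed {A : Type v} (L : Language A) : Prop :=
  ∀ u v : List A, v ∈ L → u <+: v → u ∈ L

/-- The words of `L` represent each element of `G` exactly once. -/
def Uniqueness {G : Type u} [Group G] {A : Type v} (ev : A → G) (L : Language A) : Prop :=
  ∀ g : G, ∃! w : List A, w ∈ L ∧ value ev w = g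

/-! ### Regular languages through folds -/

theorem isRegular_of_fold {α : Type u} {σ : Type v} [Finite σ] (step : σ → α → σ) (s0 : σ)
    (acc : Set σ) (L : Language α) (h : ∀ w : List α, w ∈ L ↔ w.foldl step s0 ∈ acc) :
    L.IsRegular := by
  classical
  rw [Language.isRegular_iff.{u, v}]
  have := Fintype.ofFinite σ
  refine ⟨σ, inferInstance, ⟨step, s0, acc⟩, ?_⟩
  ext w
  rw [h w, DFA.mem_accepts]
  rfl

theorem exists_fold {α : Type u} {L : Language α} (h : L.IsRegular) :
    ∃ (σ : Type) (_ : Finite σ) (step : σ → α → σ) (s0 : σ) (acc : Set σ),
      ∀ w : List α, w ∈ L ↔ w.foldl step s0 ∈ acc := by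
  obtain ⟨σ, hσ, M, rfl⟩ := h
  exact ⟨σ, Finite.of_fintype σ, M.step, M.start, M.accept, fun w => DFA.mem_accepts M⟩

/-- Preimages of regular languages under letter-to-letter-or-nothing maps are regular. -/
theorem isRegular_filterMap {α : Type u} {β : Type v} (f : β → Option α) {L : Language α}
    (h : L.IsRegular) (L' : Language β) (hL' : ∀ w : List β, w ∈ L' ↔ w.filterMap f ∈ L) :
    L'.IsRegular := by
  obtain ⟨σ, hσ, step, s0, acc, hacc⟩ := exists_fold h
  refine isRegular_of_fold (fun s b => match f b with | none => s | some a => step s a) s0 acc L' ?_
  intro w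
  rw [hL', hacc]
  have key : ∀ (w : List β) (s : σ), (w.filterMap f).foldl step s =
      w.foldl (fun s b => match f b with | none => s | some a => step s a) s := by
    intro w
    induction w with
    | nil => intro s; rfl
    | cons b w ih =>
      intro s
      cases hb : f b with
      | none => simp [hb, ih]
      | some a => simp [hb, ih]
  rw [key]

/-- Images of regular languages under letter-to-letter maps are regular. -/
theorem isRegular_image {α : Type u} {β : Type v} (f : α → β) {L : Language α}
    (h : L.IsRegular) (L' : Language β) (hL' : ∀ w : List β, w ∈ L' ↔ ∃ x ∈ L, x.map f = w) :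
    L'.IsRegular := by
  classical
  obtain ⟨σ, hσ, step, s0, acc, hacc⟩ := exists_fold h
  refine isRegular_of_fold (σ := Set σ)
    (fun S b => {t | ∃ s ∈ S, ∃ a, f a = b ∧ t = step s a}) {s0} {S | ∃ s ∈ S, s ∈ acc} L' ?_
  intro w
  rw [hL']
  have key : ∀ (w : List β) (S : Set σ) (t : σ),
      t ∈ w.foldl (fun S b => {t | ∃ s ∈ S, ∃ a, f a = b ∧ t = step s a}) S ↔
      ∃ s ∈ S, ∃ x : List α, x.map f = w ∧ t = x.foldl step s := by
    intro w
    induction w with
    | nil =>
      intro S t
      simp only [List.foldl_nil, List.map_eq_nil_iff]
      constructor
      · intro ht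
        exact ⟨t, ht, [], rfl, rfl⟩
      · rintro ⟨s, hs, x, rfl, rfl⟩
        exact hs
    | cons b w ih =>
      intro S t
      rw [List.foldl_cons, ih]
      constructor
      · rintro ⟨s', ⟨s, hs, a, ha, rfl⟩, x, hx, rfl⟩
        exact ⟨s, hs, a :: x, by simp [ha, hx], rfl⟩
      · rintro ⟨s, hs, x, hx, rfl⟩
        cases x with
        | nil => simp at hx
        | cons a x =>
          simp only [List.map_cons, List.cons.injEq] at hx
          exact ⟨step s a, ⟨s, hs, a, hx.1, rfl⟩, x, hx.2, rfl⟩
  constructor
  · rintro ⟨x, hx, rfl⟩
    refine ⟨x.foldl step s0, ?_, (hacc x).1 hx⟩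
    rw [key]
    exact ⟨s0, rfl, x, rfl, rfl⟩
  · rintro ⟨t, ht, htacc⟩
    rw [key] at ht
    obtain ⟨s, hs, x, hx, rfl⟩ := ht
    obtain rfl : s = s0 := hs
    exact ⟨x, (hacc x).2 htacc, hx⟩

theorem isRegular_and {α : Type u} {L1 L2 : Language α} (h1 : L1.IsRegular) (h2 : L2.IsRegular)
    (L : Language α) (h : ∀ w, w ∈ L ↔ w ∈ L1 ∧ w ∈ L2) : L.IsRegular := by
  have : L = L1 ⊓ L2 := by
    ext w
    rw [h w]
    rfl
  rw [this]
  exact h1.inf h2

theorem isRegular_diff {α : Type u} {L1 L2 : Language α} (h1 : L1.IsRegular) (h2 : L2.IsRegular)
    (L : Language α) (h : ∀ w, w ∈ L ↔ w ∈ L1 ∧ w ∉ L2) : L.IsRegular := by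
  refine isRegular_and h1 h2.compl L ?_
  intro w
  rw [h w]
  rfl

/-! ### Padded pairs -/

/-- the padded pair of two words -/
abbrev padPair {A : Type u} (u v : List A) : List (Option A × Option A) :=
  List.zipWithAll Prod.mk u v

theorem fst_padPair {A : Type u} (u v : List A) : (padPair u v).filterMap Prod.fst = u := by
  induction u generalizing v with
  | nil => 
    simp [padPair]
  | cons a u ih =>
    cases v with
    | nil => simp [padPair]
    | cons b v => simpa [padPair] using ih v

theorem snd_padPair {A : Type u} (u v : List A) : (padPair u v).filterMap Prod.snd = v := by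
  induction u generalizing v with
  | nil => simp [padPair]
  | cons a u ih =>
    cases v with
    | nil => simp [padPair]
    | cons b v => simpa [padPair] using ih v

theorem take_padPair {A : Type u} (u v : List A) (i : ℕ) :
    (padPair u v).take i = padPair (u.take i) (v.take i) := by
  induction u generalizing v i with
  | nil => simp [padPair, List.map_take]
  | cons a u ih =>
    cases v with
    | nil => simp [padPair, List.map_take]
    | cons b v =>
      cases i with
      | zero => simp [padPair]
      | succ i => simpa [padPair] using ih v i


/-- modes of the automaton recognising padded pairs -/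
inductive PadMode
  | both | left | right | dead

instance : Finite PadMode := by
  refine Finite.of_injective (β := Fin 4) (fun m => match m with
    | .both => 0 | .left => 1 | .right => 2 | .dead => 3) ?_
  intro a b
  cases a <;> cases b <;> simp

/-- transition function of the automaton recognising padded pairs -/
def padStep {A : Type u} : PadMode → Option A × Option A → PadMode
  | .both, (some _, some _) => .both
  | .both, (some _, none) => .left
  | .both, (none, some _) => .right
  | .left, (some _, none) => .left
  | .right, (none, some _) => .right
  | _, _ => .dead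

theorem padStep_dead {A : Type u} (w : List (Option A × Option A)) :
    w.foldl padStep .dead = .dead := by
  induction w with
  | nil => rfl
  | cons p w ih =>
    rw [List.foldl_cons]
    obtain ⟨a, b⟩ := p
    cases a <;> cases b <;> exact ih

theorem padStep_left {A : Type u} (w : List (Option A × Option A)) :
    w.foldl padStep .left ≠ .dead ↔ ∃ u : List A, w = padPair u [] := by
  induction w with
  | nil => 
    simp only [List.foldl_nil, ne_eq, reduceCtorEq, not_false_eq_true, true_iff]
    exact ⟨[], by simp [padPair]⟩
  | cons p w ih =>
    rw [List.foldl_cons]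
    obtain ⟨a, b⟩ := p
    cases a with
    | none =>
      cases b with
      | none =>
        simp only [padStep, padStep_dead, ne_eq, not_true_eq_false, false_iff]
        rintro ⟨u, hu⟩
        cases u <;> simp [padPair] at hu
      | some b =>
        simp only [padStep, padStep_dead, ne_eq, not_true_eq_false, false_iff]
        rintro ⟨u, hu⟩
        cases u <;> simp [padPair] at hu
    | some a =>
      cases b with
      | none =>
        simp only [padStep]
        rw [ih]
        constructor
        · rintro ⟨u, rfl⟩
          exact ⟨a :: u, by simp [padPair]⟩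
        · rintro ⟨u, hu⟩
          cases u with
          | nil => simp [padPair] at hu
          | cons a' u =>
            refine ⟨u, ?_⟩
            simp only [padPair, List.zipWithAll_nil, List.map_cons, List.cons.injEq] at hu ⊢
            exact hu.2
      | some b =>
        simp only [padStep, padStep_dead, ne_eq, not_true_eq_false, false_iff]
        rintro ⟨u, hu⟩
        cases u <;> simp [padPair] at hu

theorem padStep_right {A : Type u} (w : List (Option A × Option A)) :
    w.foldl padStep .right ≠ .dead ↔ ∃ v : List A, w = padPair [] v := by
  induction w with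
  | nil => 
    simp only [List.foldl_nil, ne_eq, reduceCtorEq, not_false_eq_true, true_iff]
    exact ⟨[], by simp [padPair]⟩
  | cons p w ih =>
    rw [List.foldl_cons]
    obtain ⟨a, b⟩ := p
    cases a with
    | some a =>
      cases b with
      | none =>
        simp only [padStep, padStep_dead, ne_eq, not_true_eq_false, false_iff]
        rintro ⟨u, hu⟩
        cases u <;> simp [padPair] at hu
      | some b =>
        simp only [padStep, padStep_dead, ne_eq, not_true_eq_false, false_iff]
        rintro ⟨u, hu⟩
        cases u <;> simp [padPair] at hu
    | none =>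
      cases b with
      | some b =>
        simp only [padStep]
        rw [ih]
        constructor
        · rintro ⟨u, rfl⟩
          exact ⟨b :: u, by simp [padPair]⟩
        · rintro ⟨u, hu⟩
          cases u with
          | nil => simp [padPair] at hu
          | cons a' u =>
            refine ⟨u, ?_⟩
            simp only [padPair, List.nil_zipWithAll, List.map_cons, List.cons.injEq] at hu ⊢
            exact hu.2
      | none =>
        simp only [padStep, padStep_dead, ne_eq, not_true_eq_false, false_iff]
        rintro ⟨u, hu⟩
        cases u <;> simp [padPair] at hu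

theorem padStep_both {A : Type u} (w : List (Option A × Option A)) :
    w.foldl padStep .both ≠ .dead ↔ ∃ u v : List A, w = padPair u v := by
  induction w with
  | nil => 
    simp only [List.foldl_nil, ne_eq, reduceCtorEq, not_false_eq_true, true_iff]
    exact ⟨[], [], by simp [padPair]⟩
  | cons p w ih =>
    rw [List.foldl_cons]
    obtain ⟨a, b⟩ := p
    cases a with
    | none =>
      cases b with
      | none =>
        simp only [padStep, padStep_dead, ne_eq, not_true_eq_false, false_iff]
        rintro ⟨u, v, hu⟩
        cases u <;> cases v <;> simp [padPair] at hu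
      | some b =>
        simp only [padStep]
        rw [padStep_right]
        constructor
        · rintro ⟨v, rfl⟩
          exact ⟨[], b :: v, by simp [padPair]⟩
        · rintro ⟨u, v, hu⟩
          cases u with
          | nil =>
            cases v with
            | nil => simp [padPair] at hu
            | cons b' v =>
              refine ⟨v, ?_⟩
              simp only [padPair, List.nil_zipWithAll, List.map_cons, List.cons.injEq] at hu ⊢
              exact hu.2
          | cons a u => cases v <;> simp [padPair] at hu
    | some a =>
      cases b with
      | none =>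
        simp only [padStep]
        rw [padStep_left]
        constructor
        · rintro ⟨v, rfl⟩
          exact ⟨a :: v, [], by simp [padPair]⟩
        · rintro ⟨u, v, hu⟩
          cases u with
          | nil => cases v <;> simp [padPair] at hu
          | cons a' u =>
            cases v with
            | nil =>
              refine ⟨u, ?_⟩
              simp only [padPair, List.zipWithAll_nil, List.map_cons, List.cons.injEq] at hu ⊢
              exact hu.2
            | cons b' v => simp [padPair] at hu
      | some b =>
        simp only [padStep]
        rw [ih]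
        constructor
        · rintro ⟨u, v, rfl⟩
          exact ⟨a :: u, b :: v, by simp [padPair]⟩
        · rintro ⟨u, v, hu⟩
          cases u with
          | nil => cases v <;> simp [padPair] at hu
          | cons a' u =>
            cases v with
            | nil => simp [padPair] at hu
            | cons b' v =>
              refine ⟨u, v, ?_⟩
              simp only [padPair, List.zipWithAll_cons_cons, List.cons.injEq] at hu ⊢
              exact hu.2

theorem isRegular_pads (A : Type u) (L : Language (Option A × Option A))
    (hL : ∀ w, w ∈ L ↔ ∃ u v : List A, w = padPair u v) : L.IsRegular := by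
  refine isRegular_of_fold padStep .both {m | m ≠ .dead} L ?_
  intro w
  rw [hL w, ← padStep_both]
  rfl

variable {G : Type u} [Group G] {A : Type v}

@[simp] theorem value_nil (ev : A → G) : value ev [] = 1 := rfl

@[simp] theorem value_cons (ev : A → G) (a : A) (w : List A) :
    value ev (a :: w) = ev a * value ev w := by
  simp [value]

@[simp] theorem value_append (ev : A → G) (u v : List A) :
    value ev (u ++ v) = value ev u * value ev v := by
  simp [value]

theorem value_map {B : Type w} (ev : A → G) (ew : B → G) (f : A → B) (h : ∀ a, ew (f a) = ev a)
    (u : List A) : value ew (u.map f) = value ev u := by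
  induction u with
  | nil => rfl
  | cons a u ih => simp [h, ih]

/-- Fellow traveller property for pairs of words of `L` differing by `g`: the word differences
stay in a finite set. -/
def FT (ev : A → G) (L : Language A) (g : G) : Prop :=
  ∃ D : Set G, D.Finite ∧ ∀ u ∈ L, ∀ v ∈ L, value ev u * g = value ev v →
    ∀ i : ℕ, (value ev (u.take i))⁻¹ * value ev (v.take i) ∈ D

theorem FT_of_regular (ev : A → G) (L : Language A) (g : G) (h : (multiplier ev L g).IsRegular) :
    FT ev L g := by
  classical
  obtain ⟨σ, hσ, step, s0, acc, hacc⟩ := exists_fold h
  -- a completion for each live state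
  have hc : ∀ s : σ, ∃ c : List (Option A × Option A),
      (∃ c' : List (Option A × Option A), c'.foldl step s ∈ acc) → c.foldl step s ∈ acc := by
    intro s
    by_cases hs : ∃ c' : List (Option A × Option A), c'.foldl step s ∈ acc
    · obtain ⟨c', hc'⟩ := hs
      exact ⟨c', fun _ => hc'⟩
    · exact ⟨[], fun h' => absurd h' hs⟩
  choose c hc using hc
  refine ⟨Set.range (fun s : σ => value ev ((c s).filterMap Prod.fst) * g *
    (value ev ((c s).filterMap Prod.snd))⁻¹), Set.finite_range _, ?_⟩
  intro u hu v hv huv i
  set p := padPair u v with hp
  have hpm : p ∈ multiplier ev L g := ⟨u, hu, v, hv, huv, rfl⟩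
  have hpa : p.foldl step s0 ∈ acc := (hacc p).1 hpm
  set s := (p.take i).foldl step s0 with hs
  have hlive : ∃ c' : List (Option A × Option A), c'.foldl step s ∈ acc := by
    refine ⟨p.drop i, ?_⟩
    rw [hs, ← List.foldl_append, List.take_append_drop]
    exact hpa
  have h1 : (p.take i ++ c s) ∈ multiplier ev L g := by
    rw [hacc, List.foldl_append]
    exact hc s hlive
  obtain ⟨u', hu', v', hv', huv', heq⟩ := h1
  have e1 : u' = u.take i ++ (c s).filterMap Prod.fst := by
    have := congrArg (List.filterMap Prod.fst) heq
    rw [show List.zipWithAll Prod.mk u' v' = padPair u' v' from rfl, fst_padPair,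
      List.filterMap_append, hp, take_padPair, fst_padPair] at this
    exact this.symm
  have e2 : v' = v.take i ++ (c s).filterMap Prod.snd := by
    have := congrArg (List.filterMap Prod.snd) heq
    rw [show List.zipWithAll Prod.mk u' v' = padPair u' v' from rfl, snd_padPair,
      List.filterMap_append, hp, take_padPair, snd_padPair] at this
    exact this.symm
  refine ⟨s, ?_⟩
  simp only
  rw [e1, e2, value_append, value_append] at huv'
  rw [mul_inv_eq_iff_eq_mul, mul_assoc, ← huv']
  group

theorem FT_mul (ev : A → G) (L : Language A) (onto : ∀ g : G, ∃ w ∈ L, value ev w = g) (g h : G)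
    (hg : FT ev L g) (hh : FT ev L h) : FT ev L (g * h) := by
  classical
  obtain ⟨D, hD, hD'⟩ := hg
  obtain ⟨E, hE, hE'⟩ := hh
  refine ⟨Set.image2 (· * ·) D E, hD.image2 _ hE, ?_⟩
  intro u hu v hv huv i
  obtain ⟨w, hw, hwv⟩ := onto (value ev u * g)
  have h1 := hD' u hu w hw hwv.symm i
  have h2 := hE' w hw v hv (by rw [hwv, ← huv, mul_assoc]) i
  refine ⟨_, h1, _, h2, ?_⟩
  simp only
  group

theorem FT_all (ev : A → G) (L : Language A) (h : IsAutomaticStructure ev L) (g : G) :
    FT ev L g := by
  have hg : g ∈ Submonoid.closure (Set.range ev) := by rw [h.generates]; trivial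
  induction hg using Submonoid.closure_induction with
  | mem x hx =>
    obtain ⟨a, rfl⟩ := hx
    exact FT_of_regular ev L _ (h.multiply a)
  | one => exact FT_of_regular ev L _ h.equality
  | mul x y _ _ hx hy => exact FT_mul ev L h.onto x y hx hy

theorem FT_mono (ev : A → G) (L L' : Language A) (hL : ∀ w, w ∈ L' → w ∈ L) (g : G)
    (h : FT ev L g) : FT ev L' g := by
  obtain ⟨D, hD, hD'⟩ := h
  exact ⟨D, hD, fun u hu v hv => hD' u (hL u hu) v (hL v hv)⟩

/-! ### from the fellow traveller property back to regularity -/

/-- the word difference of a list of pairs of letters-or-padding -/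
def wdiff (ev : A → G) (w : List (Option A × Option A)) : G :=
  (value ev (w.filterMap Prod.fst))⁻¹ * value ev (w.filterMap Prod.snd)

/-- value of an optional letter -/
def oval (ev : A → G) : Option A → G
  | none => 1
  | some a => ev a

open Classical in
/-- step of the word difference automaton -/
noncomputable def diffStep (ev : A → G) (D : Set G) (s : Option D) (p : Option A × Option A) :
    Option D :=
  match s with
  | none => none
  | some d =>
    if h : (oval ev p.1)⁻¹ * (d : G) * oval ev p.2 ∈ D then
      some ⟨(oval ev p.1)⁻¹ * (d : G) * oval ev p.2, h⟩ else none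

theorem diffStep_none (ev : A → G) (D : Set G) (w : List (Option A × Option A)) :
    w.foldl (diffStep ev D) none = none := by
  induction w with
  | nil => rfl
  | cons p w ih => exact ih

theorem value_filterMap_fst (ev : A → G) (p : Option A × Option A)
    (w : List (Option A × Option A)) :
    value ev ((p :: w).filterMap Prod.fst) = oval ev p.1 * value ev (w.filterMap Prod.fst) := by
  obtain ⟨a, b⟩ := p
  cases a <;> simp [oval]

theorem value_filterMap_snd (ev : A → G) (p : Option A × Option A)
    (w : List (Option A × Option A)) :
    value ev ((p :: w).filterMap Prod.snd) = oval ev p.2 * value ev (w.filterMap Prod.snd) := by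
  obtain ⟨a, b⟩ := p
  cases b <;> simp [oval]

theorem diffStep_iff (ev : A → G) (D : Set G) (w : List (Option A × Option A)) (d e : D) :
    w.foldl (diffStep ev D) (some d) = some e ↔
      (∀ i : ℕ, (value ev ((w.take i).filterMap Prod.fst))⁻¹ * (d : G) *
        value ev ((w.take i).filterMap Prod.snd) ∈ D) ∧
      (value ev (w.filterMap Prod.fst))⁻¹ * (d : G) * value ev (w.filterMap Prod.snd) = e := by
  classical
  induction w generalizing d with
  | nil =>
    simp only [List.foldl_nil, Option.some.injEq, List.take_nil, List.filterMap_nil, value_nil,
      inv_one, one_mul, mul_one, forall_const, Subtype.coe_prop, true_and]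
    exact Subtype.ext_iff
  | cons p w ih =>
    rw [List.foldl_cons]
    by_cases h : (oval ev p.1)⁻¹ * (d : G) * oval ev p.2 ∈ D
    · have hs : diffStep ev D (some d) p = some ⟨(oval ev p.1)⁻¹ * (d : G) * oval ev p.2, h⟩ := by
        simp [diffStep, h]
      rw [hs, ih]
      simp only [value_filterMap_fst, value_filterMap_snd]
      constructor
      · rintro ⟨h1, h2⟩
        refine ⟨?_, ?_⟩
        · intro i
          cases i with
          | zero => simp
          | succ i =>
            have := h1 i
            rw [List.take_succ_cons, value_filterMap_fst, value_filterMap_snd]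
            convert this using 1
            group
        · rw [← h2]
          group
      · rintro ⟨h1, h2⟩
        refine ⟨?_, ?_⟩
        · intro i
          have := h1 (i + 1)
          rw [List.take_succ_cons, value_filterMap_fst, value_filterMap_snd] at this
          convert this using 1
          group
        · rw [← h2]
          group
    · have hs : diffStep ev D (some d) p = none := by
        simp [diffStep, h]
      rw [hs, diffStep_none]
      simp only [reduceCtorEq, false_iff, not_and]
      intro h1
      exfalso
      apply h
      have := h1 1
      rw [List.take_succ_cons, value_filterMap_fst, value_filterMap_snd] at this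
      simpa using this

theorem regular_of_FT (ev : A → G) (L : Language A) (hL : L.IsRegular) (g : G)
    (h : FT ev L g) : (multiplier ev L g).IsRegular := by
  classical
  obtain ⟨D0, hD0, hD'⟩ := h
  -- enlarge the set of differences
  set D : Set G := D0 ∪ {1, g} with hDdef
  have hDfin : D.Finite := hD0.union (by simp)
  have : Finite D := hDfin
  have h1 : (1 : G) ∈ D := by simp [hDdef]
  have h2 : g ∈ D := by simp [hDdef]
  -- the tracker language
  set T : Language (Option A × Option A) :=
    {w | w.foldl (diffStep ev D) (some ⟨1, h1⟩) = some ⟨g, h2⟩} with hT
  have hTreg : T.IsRegular := by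
    refine isRegular_of_fold (diffStep ev D) (some ⟨1, h1⟩) {some ⟨g, h2⟩} T ?_
    intro w
    rfl
  set P : Language (Option A × Option A) := {w | ∃ u v : List A, w = padPair u v} with hP
  have hPreg : P.IsRegular := isRegular_pads A P (fun w => Iff.rfl)
  set L1 : Language (Option A × Option A) := {w | w.filterMap Prod.fst ∈ L} with hL1
  have hL1reg : L1.IsRegular := isRegular_filterMap Prod.fst hL L1 (fun w => Iff.rfl)
  set L2 : Language (Option A × Option A) := {w | w.filterMap Prod.snd ∈ L} with hL2
  have hL2reg : L2.IsRegular := isRegular_filterMap Prod.snd hL L2 (fun w => Iff.rfl)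
  have h12 : (L1 ⊓ L2).IsRegular := hL1reg.inf hL2reg
  have hPT : (P ⊓ T).IsRegular := hPreg.inf hTreg
  refine isRegular_and h12 hPT _ ?_
  intro w
  constructor
  · rintro ⟨u, hu, v, hv, huv, rfl⟩
    refine ⟨⟨?_, ?_⟩, ⟨u, v, rfl⟩, ?_⟩
    · change (padPair u v).filterMap Prod.fst ∈ L
      rw [fst_padPair]; exact hu
    · change (padPair u v).filterMap Prod.snd ∈ L
      rw [snd_padPair]; exact hv
    · change (padPair u v).foldl (diffStep ev D) (some ⟨1, h1⟩) = some ⟨g, h2⟩
      rw [diffStep_iff]
      refine ⟨?_, ?_⟩
      · intro i
        rw [take_padPair, fst_padPair, snd_padPair]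
        left
        simpa using hD' u hu v hv huv i
      · rw [fst_padPair, snd_padPair]
        simp only [mul_one]
        rw [← huv]
        group
  · rintro ⟨⟨hu, hv⟩, ⟨u, v, rfl⟩, ht⟩
    change (padPair u v).filterMap Prod.fst ∈ L at hu
    change (padPair u v).filterMap Prod.snd ∈ L at hv
    change (padPair u v).foldl (diffStep ev D) (some ⟨1, h1⟩) = some ⟨g, h2⟩ at ht
    rw [fst_padPair] at hu
    rw [snd_padPair] at hv
    rw [diffStep_iff, fst_padPair, snd_padPair] at ht
    refine ⟨u, hu, v, hv, ?_, rfl⟩
    have h3 : (value ev u)⁻¹ * 1 * value ev v = g := ht.2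
    rw [← h3]
    group

/-- A regular language mapping onto `G` with the fellow traveller property is an automatic
structure. -/
theorem automatic_of_FT (ev : A → G) (L : Language A)
    (hgen : Submonoid.closure (Set.range ev) = ⊤) (hL : L.IsRegular)
    (onto : ∀ g : G, ∃ w ∈ L, value ev w = g) (h : ∀ g, FT ev L g) :
    IsAutomaticStructure ev L where
  generates := hgen
  regular := hL
  onto := onto
  equality := regular_of_FT ev L hL 1 (h 1)
  multiply _ := regular_of_FT ev L hL _ (h _)

end Pool.Agent.H47.CD
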